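import Pool.Agent.GTC.KlA
import Pool.Agent.GTM.DkH

/-!
# The alternating products for the known families
-/

set_option autoImplicit false

noncomputable section

namespace Pool.Agent.GTC

open Pool.Agent.ZCyc Pool.Agent.Dess Pool.Agent.GT Pool.Agent.GTM Pool.Agent.ZIso
  Pool.Agent.TInc
open scoped Classical LinearAlgebra.Projectivization

variable {k L : Type} [Field k] [IsAlgClosed k] [CharZero k] [Field L] [Algebra k L] {m : ℕ}
  {X : Set (MvPolynomial (Fin (m + 1)) k)} {R : Type} [Field R] [CharZero R]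

omit [IsAlgClosed k] [CharZero k] in
/-- the alternating sum with coefficients in the field -/
private theorem aa_altR {n : ℕ} (z : Fin n → (Pt X k →₀ R)) :
    ∑ τ : Equiv.Perm (Fin n), ((Equiv.Perm.sign τ : ℤ) : R) • extR (fun j => z (τ j)) =
      altR z := by
  unfold altR
  exact Finset.sum_congr rfl fun τ _ => Int.cast_smul_eq_zsmul R _ _

/-- Curves of genus one: `main_cov` with the sign (`kills_sign`) for cycles with rational coefficients,
and `altR_span` with `G = toR R '' DiffCyc d X` (the alternating sum of the products of `toR R (u j)` is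
`toR R` of the alternating sum for `u`, by `extR_toR`). -/
theorem alt_cov (hX : Hom X) (hL : IsCurve k L) {d : GD L m} (hd : d.Ok X)
    {D : Place k L →₀ ℤ} {n₀ : ℕ} (hD : deg D = n₀) (hn₀ : 0 < n₀)
    (hα : d.α ≠ 0 → ∀ v, 0 ≤ ord v d.α + 4 * D v) (hB : d.B ≠ 0 → ∀ v, 0 ≤ ord v d.B + 6 * D v)
    {g : ℕ} (hg : Riemann hL g) {N : ℕ} (hN : N + 1 = n₀ + g) {δ : Place k L}
    (hδ : BadAt δ d.α d.B) :
    AltP N (Submodule.span R (toR R '' DiffCyc d X) ⊔ RatR1 R X) := by
  intro w hw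
  refine altR_span hX (toR R '' DiffCyc d X) (fun z hz => ?_) w hw
  choose u hu huz using hz
  have h1 := main_cov hX hL hd hD hn₀ hα hB hg hN hδ (kills_sign ℚ N) u
    (Or.inl fun j => Submodule.mem_sup_left (Submodule.subset_span (hu j)))
  have h2 : toR R (∑ τ : Equiv.Perm (Fin (N + 1)), ((Equiv.Perm.sign τ : ℤ) : ℚ) •
      ext (fun j => u (τ j))) = altR z := by
    rw [toR_sum, ← aa_altR]
    refine Finset.sum_congr rfl fun τ _ => ?_
    rw [map_intCast]
    simp only [huz]
  rw [← h2]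
  exact Submodule.subset_span ⟨_, h1, rfl⟩

/-- Dickson curves, the eigenspaces: `main_dickson` with the sign (`kills_sign`), `h = 1` and
`Ω = fun _ => ω`. (`⨆ i : Fin 1` is the only term, `one_mul`.) -/
theorem alt_eig (hX : Hom X) (hL : IsCurve k L) {μ : ℕ} {d : GD L m} (hd : OkD μ d X)
    (hμ3 : 3 ≤ μ) {A : Place k L →₀ ℤ} {a g : ℕ} (hA : deg A = a) (ha : 0 < a)
    (hf : ∀ v, 0 ≤ ord v d.α + 4 * A v) (hB : ∀ v, 0 ≤ ord v d.B + 2 * μ * A v)
    (hJ : ∀ c : k, d.B ^ 2 ≠ algebraMap k L c * d.α ^ μ) (hg : Riemann hL g) {N : ℕ}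
    (hN : N + 1 = (μ - 2) * a + g) {ξ : k} (hξ : IsPrimitiveRoot ξ μ) {ω : R}
    (hω : ω ^ μ = 1) (hω2 : ω ^ 2 ≠ 1) :
    AltP N (Submodule.span R (EigCycD R μ d X ξ ω) ⊔ RatR1 R X) := by
  intro w hw
  rw [← aa_altR]
  refine main_dickson hX hL hd hμ3 hA ha hf hB hJ hg hN hξ (h := 1)
    (by rw [one_mul]; exact kills_sign R N) w
    (Or.inl ⟨fun _ => ω, fun _ => ⟨hω, hω2⟩, fun j => ?_⟩)
  rw [iSup_const]
  exact hw j

/-- Dickson curves, differences in one fibre: `main_dickson` with the sign and `h = (μ - 1) / 2`; the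
elements of `toR R '' DiffCycD μ d X` are in `KerD` with the divisor `D = 0` (the two values are over the
same point of the base, which exists by `exists_embed` and `exists_below` (TInc), as in `dkh_ker`), and the
elements of `KerD` are closed under sums and multiples. `k` has a primitive root `ξ` of the order `μ`
(`HasEnoughRootsOfUnity.exists_primitiveRoot`). -/
theorem alt_diff (hX : Hom X) (hL : IsCurve k L) {μ : ℕ} {d : GD L m} (hd : OkD μ d X)
    (hμ3 : 3 ≤ μ) {A : Place k L →₀ ℤ} {a g : ℕ} (hA : deg A = a) (ha : 0 < a)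
    (hf : ∀ v, 0 ≤ ord v d.α + 4 * A v) (hB : ∀ v, 0 ≤ ord v d.B + 2 * μ * A v)
    (hJ : ∀ c : k, d.B ^ 2 ≠ algebraMap k L c * d.α ^ μ) (hg : Riemann hL g) {N : ℕ}
    (hN : N + 1 = (μ - 2) * a + g) :
    AltP ((μ - 1) / 2 * N) (Submodule.span R (toR R '' DiffCycD μ d X) ⊔ RatR1 R X) := by
  have : NeZero μ := ⟨by omega⟩
  obtain ⟨ξ, hξ⟩ : ∃ ξ : k, IsPrimitiveRoot ξ μ :=
    HasEnoughRootsOfUnity.exists_primitiveRoot k μ
  have hker : Submodule.span R (toR R '' DiffCycD μ d X) ⊔ RatR1 R X ≤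
      (Submodule.span R (PairD R μ d X) ⊔
        (RatR1 R X).prod (⊥ : Submodule R (Place k L →₀ R))).comap
          (LinearMap.inl R (Pt X k →₀ R) (Place k L →₀ R)) := by
    refine sup_le (Submodule.span_le.2 ?_) ?_
    · rintro _ ⟨_, ⟨K, i1, i2, hK, σ, v, e, e', θ, θ', x, y, x', y', P, P', h, h', rfl⟩, rfl⟩
      obtain ⟨ι, V, hV⟩ := exists_embed hK v
      obtain ⟨c, hc⟩ := exists_below hL V (ι.comp σ)
      have hvc : v.ring.comap (σ : L →+* K) = c.ring := by
        rw [← hc, ← hV]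
        rfl
      have e1 : ∀ {n : ℕ} (Q : Fin n → Pt X k), toR R (∑ a, Finsupp.single (Q a) (1 : ℚ)) =
          ∑ a, Finsupp.single (Q a) (1 : R) := by
        intro n Q
        rw [map_sum]
        refine Finset.sum_congr rfl fun a _ => ?_
        rw [toR_single, map_one]
      have m1 : ((∑ a, Finsupp.single (P a) (1 : R), Finsupp.single c (1 : R)) :
          (Pt X k →₀ R) × (Place k L →₀ R)) ∈ PairD R μ d X :=
        ⟨K, i1, i2, hK, σ, v, c, e, θ, x, y, P, hvc, h, rfl⟩
      have m2 : ((∑ a, Finsupp.single (P' a) (1 : R), Finsupp.single c (1 : R)) :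
          (Pt X k →₀ R) × (Place k L →₀ R)) ∈ PairD R μ d X :=
        ⟨K, i1, i2, hK, σ, v, c, e', θ', x', y', P', hvc, h', rfl⟩
      rw [SetLike.mem_coe, Submodule.mem_comap]
      have e2 : LinearMap.inl R (Pt X k →₀ R) (Place k L →₀ R)
          (toR R (∑ a, Finsupp.single (P a) 1 - ∑ a, Finsupp.single (P' a) 1)) =
          ((∑ a, Finsupp.single (P a) (1 : R), Finsupp.single c (1 : R)) :
            (Pt X k →₀ R) × (Place k L →₀ R)) -
          (∑ a, Finsupp.single (P' a) (1 : R), Finsupp.single c (1 : R)) := by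
        rw [map_sub (toR R), e1, e1, LinearMap.inl_apply, Prod.mk_sub_mk, sub_self]
      rw [e2]
      exact Submodule.mem_sup_left
        (Submodule.sub_mem _ (Submodule.subset_span m1) (Submodule.subset_span m2))
    · intro z hz
      rw [Submodule.mem_comap, LinearMap.inl_apply]
      exact Submodule.mem_sup_right ⟨hz, Submodule.zero_mem _⟩
  intro w hw
  rw [← aa_altR]
  refine main_dickson hX hL hd hμ3 hA ha hf hB hJ hg hN hξ (kills_sign R _) w
    (Or.inr ⟨rfl, fun j => ⟨0, Submodule.zero_mem _, ?_⟩⟩)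
  exact hker (hw j)

end Pool.Agent.GTC
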