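import Pool.Agent.GTC.Ex

/-!
# Products of linear forms
-/

set_option autoImplicit false

noncomputable section

namespace Pool.Agent.GTC

open MvPolynomial
open scoped Classical

section

variable {A : Type} [CommRing A] {n e : ℕ}

/-- the linear form with the coefficients `p` -/
def lin (p : Fin (n + 1) → A) : MvPolynomial (Fin (n + 1)) A := ∑ i, C (p i) * X i

/-- the product of the linear forms with the coefficients `P a` -/
def pro (P : Fin e → Fin (n + 1) → A) : MvPolynomial (Fin (n + 1)) A := ∏ a, lin (P a)

/-- the coefficients of the Chow form -/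
def chw (P : Fin e → Fin (n + 1) → A) : Fin (nx n e + 1) → A := cf (pro P)

theorem lin_hom (p : Fin (n + 1) → A) : (lin p).IsHomogeneous 1 := by
  exact IsHomogeneous.sum _ _ _ fun i _ => isHomogeneous_C_mul_X (p i) i

theorem lin_smul (c : A) (p : Fin (n + 1) → A) : lin (fun i => c * p i) = C c * lin p := by
  unfold lin
  rw [Finset.mul_sum]
  refine Finset.sum_congr rfl fun i _ => ?_
  rw [C_mul, mul_assoc]

theorem lin_map {A' : Type} [CommRing A'] (φ : A →+* A') (p : Fin (n + 1) → A) :
    (lin p).map φ = lin fun i => φ (p i) := by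
  unfold lin
  rw [map_sum]
  refine Finset.sum_congr rfl fun i _ => ?_
  rw [map_mul, map_C, map_X]

private theorem lin_coeff (p : Fin (n + 1) → A) (i : Fin (n + 1)) :
    (lin p).coeff (Finsupp.single i 1) = p i := by
  unfold lin
  rw [coeff_sum, Finset.sum_eq_single i]
  · rw [coeff_C_mul, coeff_X, if_pos rfl, mul_one]
  · intro j _ hj
    rw [coeff_C_mul, coeff_X, if_neg, mul_zero]
    intro h
    exact hj (Finsupp.single_left_injective one_ne_zero h)
  · intro h
    exact absurd (Finset.mem_univ i) h

private theorem lin_zero : lin (0 : Fin (n + 1) → A) = 0 := by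
  unfold lin
  exact Finset.sum_eq_zero fun i _ => by rw [Pi.zero_apply, C_0, zero_mul]

/-- the coefficient of `X i` is `p i` -/
theorem lin_inj {p p' : Fin (n + 1) → A} (h : lin p = lin p') : p = p' := by
  funext i
  rw [← lin_coeff p i, ← lin_coeff p' i, h]

theorem pro_hom (P : Fin e → Fin (n + 1) → A) : (pro P).IsHomogeneous e := by
  have h := IsHomogeneous.prod Finset.univ (fun a => lin (P a)) (fun _ => 1) fun a _ => lin_hom (P a)
  simpa [pro] using h

theorem pro_map {A' : Type} [CommRing A'] (φ : A →+* A') (P : Fin e → Fin (n + 1) → A) :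
    (pro P).map φ = pro fun a i => φ (P a i) := by
  unfold pro
  rw [map_prod]
  exact Finset.prod_congr rfl fun a _ => lin_map φ (P a)

/-- `lin_smul`, `Finset.prod_mul_distrib` -/
theorem pro_smul (c : Fin e → A) (P : Fin e → Fin (n + 1) → A) :
    pro (fun a i => c a * P a i) = C (∏ a, c a) * pro P := by
  unfold pro
  rw [map_prod, ← Finset.prod_mul_distrib]
  exact Finset.prod_congr rfl fun a _ => lin_smul (c a) (P a)

theorem chw_map {A' : Type} [CommRing A'] (φ : A →+* A') (P : Fin e → Fin (n + 1) → A) :
    chw (fun a i => φ (P a i)) = fun i => φ (chw P i) := by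
  unfold chw
  rw [← pro_map, cf_map]

theorem chw_smul (c : Fin e → A) (P : Fin e → Fin (n + 1) → A) :
    chw (fun a i => c a * P a i) = fun i => (∏ a, c a) * chw P i := by
  unfold chw
  rw [pro_smul, cf_smul]

/-- the coefficients of the form with the coefficients `chw P` -/
theorem fm_chw (P : Fin e → Fin (n + 1) → A) : fm (chw P) = pro P := fm_cf (pro_hom P)

variable [IsDomain A]

/-- a product of nonzero linear forms is not zero (`MvPolynomial` over a domain is a domain, and
`lin_inj`) -/
theorem pro_ne {P : Fin e → Fin (n + 1) → A} (h : ∀ a, P a ≠ 0) : pro P ≠ 0 := by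
  unfold pro
  rw [Finset.prod_ne_zero_iff]
  intro a _ h0
  apply h a
  apply lin_inj
  rw [h0, lin_zero]

theorem chw_ne {P : Fin e → Fin (n + 1) → A} (h : ∀ a, P a ≠ 0) : chw P ≠ 0 := by
  exact cf_ne (pro_hom P) (pro_ne h)

/-- If the product is not zero then no factor is zero. -/
theorem ne_of_pro_ne {P : Fin e → Fin (n + 1) → A} (h : pro P ≠ 0) (a : Fin e) : P a ≠ 0 := by
  intro h0
  apply h
  unfold pro
  refine Finset.prod_eq_zero (Finset.mem_univ a) ?_
  rw [h0, lin_zero]

end

end Pool.Agent.GTC
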