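import Pool.Agent.GTC.Chow
import Pool.Agent.GT.Val

/-!
# Chow forms of zero-cycles and the symmetric power of a projective variety

The Chow form of the points `p_1, ..., p_e` of the projective space is the product of the linear
forms `∑ i, p_a(i) U_i`. The symmetric power `Sy X e` of the variety with the equations `X` is given
by all homogeneous equations (over `k`) which hold for the Chow forms of all `e` points of `X`.
-/

set_option autoImplicit false

noncomputable section

namespace Pool.Agent.GTC

open Pool.Agent.ZCyc Pool.Agent.Dess Pool.Agent.GT MvPolynomial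
open scoped Classical LinearAlgebra.Projectivization

variable {k : Type} [Field k] {n : ℕ}

/-- the equations of the symmetric power of the variety with the equations `X` -/
def Sy (X : Set (MvPolynomial (Fin (n + 1)) k)) (e : ℕ) :
    Set (MvPolynomial (Fin (nx n e + 1)) k) :=
  {F | (∃ d : ℕ, 0 < d ∧ F.IsHomogeneous d) ∧ ∀ (K : Type) [Field K] [Algebra k K]
    (P : Fin e → Fin (n + 1) → K), (∀ a, ∀ f ∈ X, aeval (P a) f = 0) → aeval (chw P) F = 0}

variable {X : Set (MvPolynomial (Fin (n + 1)) k)} {e : ℕ}

theorem hom_Sy (X : Set (MvPolynomial (Fin (n + 1)) k)) (e : ℕ) : Hom (Sy X e) :=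
  fun _ hf => ⟨hf.1.choose, hf.1.choose_spec.2⟩

/-- the Chow form of `e` points of the variety, as a point of the symmetric power -/
def chp {K : Type} [Field K] [Algebra k K] (P : Fin e → Pt X K) : Pt (Sy X e) K :=
  mkPt (hom_Sy X e) (chw fun a => (P a).1.rep) (chw_ne fun a => (P a).1.rep_nonzero)
    fun _ hF => hF.2 K _ fun a f hf => (P a).2 f hf

private theorem mkPt_eq {K : Type} [Field K] [Algebra k K] {m : ℕ}
    {Y : Set (MvPolynomial (Fin (m + 1)) k)} (hY : Hom Y) {a b : Fin (m + 1) → K} {ha : a ≠ 0}
    {hb : b ≠ 0} {h : ∀ f ∈ Y, aeval a f = 0} {h' : ∀ f ∈ Y, aeval b f = 0} (c : K) (hc : c ≠ 0)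
    (hab : ∀ i, a i = c * b i) : mkPt hY a ha h = mkPt hY b hb h' := by
  apply Subtype.ext
  change Projectivization.mk K a ha = Projectivization.mk K b hb
  rw [Projectivization.mk_eq_mk_iff]
  exact ⟨Units.mk0 c hc, funext fun i => (hab i).symm⟩

private theorem val_mv {K : Type} [Field K] [Algebra k K] {v : Place k K} {ι : Type} {x : ι → K}
    {y : ι → k} (h : ∀ i, v.At (x i) (y i)) (f : MvPolynomial ι k) :
    v.At (aeval x f) (aeval y f) := by
  induction f using MvPolynomial.induction_on with
  | C a =>
    rw [MvPolynomial.algHom_C, MvPolynomial.algHom_C]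
    exact Place.at_const a
  | add f g hf hg =>
    rw [map_add, map_add]
    exact hf.add hg
  | mul_X f i hf =>
    rw [map_mul, map_mul, MvPolynomial.aeval_X, MvPolynomial.aeval_X]
    exact hf.mul (h i)

private theorem chw_aeval {K : Type} [Field K] [Algebra k K] (x : Fin e → Fin (n + 1) → K)
    (j : Fin (nx n e + 1)) : chw x j = aeval (fun p : Fin e × Fin (n + 1) => x p.1 p.2)
      (chw (fun a i => (MvPolynomial.X (a, i) : MvPolynomial (Fin e × Fin (n + 1)) k)) j) := by
  have h := congrFun (chw_map ((aeval (fun p : Fin e × Fin (n + 1) => x p.1 p.2)).toRingHom :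
    MvPolynomial (Fin e × Fin (n + 1)) k →+* K)
    (fun a i => (MvPolynomial.X (a, i) : MvPolynomial (Fin e × Fin (n + 1)) k))) j
  have h2 : (fun (a : Fin e) (i : Fin (n + 1)) =>
      ((aeval (fun p : Fin e × Fin (n + 1) => x p.1 p.2)).toRingHom :
        MvPolynomial (Fin e × Fin (n + 1)) k →+* K)
        (MvPolynomial.X (a, i) : MvPolynomial (Fin e × Fin (n + 1)) k)) = x := by
    funext a i
    exact aeval_X _ _
  rw [h2] at h
  exact h

/-- The Chow form does not depend on the coordinates: `Projectivization.exists_smul_eq_mk_rep`,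
`chw_smul`, `Projectivization.mk_eq_mk_iff`. -/
theorem chp_eq {K : Type} [Field K] [Algebra k K] (hX : Hom X) {P : Fin e → Fin (n + 1) → K}
    (h0 : ∀ a, P a ≠ 0) (h : ∀ a, ∀ f ∈ X, aeval (P a) f = 0) :
    chp (fun a => mkPt hX (P a) (h0 a) (h a)) =
      mkPt (hom_Sy X e) (chw P) (chw_ne h0) fun _ hF => hF.2 K _ h := by
  choose c hc using fun a => Projectivization.exists_smul_eq_mk_rep K (P a) (h0 a)
  refine mkPt_eq (hom_Sy X e) (∏ a, (c a : K))
    (Finset.prod_ne_zero_iff.2 fun a _ => (c a).ne_zero) fun i => ?_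
  have h1 : (fun a => (mkPt hX (P a) (h0 a) (h a)).1.rep) = fun a i => (c a : K) * P a i := by
    funext a
    exact (hc a).symm
  rw [h1, chw_smul]

/-- Extensions of the field: `Pt.map` is `mkPt` of the images of the coordinates, `chp_eq`, `chw_map`,
and the coordinates `(chp P).1.rep` are a multiple of `chw`. -/
theorem chp_map {K K' : Type} [Field K] [Algebra k K] [Field K'] [Algebra k K'] (φ : K →ₐ[k] K')
    (hX : Hom X) (P : Fin e → Pt X K) :
    (chp P).map φ (hom_Sy X e) = chp fun a => (P a).map φ hX := by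
  unfold GT.Pt.map
  rw [chp_eq hX]
  obtain ⟨d, hd⟩ := Projectivization.exists_smul_eq_mk_rep K (chw fun a => (P a).1.rep)
    (chw_ne fun a => (P a).1.rep_nonzero)
  refine mkPt_eq (hom_Sy X e) (φ d) ((map_ne_zero φ).2 d.ne_zero) fun i => ?_
  have h1 : (chp P).1.rep = d • (chw fun a => (P a).1.rep) := hd.symm
  have h2 := congrFun (chw_map (φ : K →+* K') fun a => (P a).1.rep) i
  have h3 : (chp P).1.rep i = (d : K) * chw (fun a => (P a).1.rep) i := by
    rw [h1]
    rfl
  rw [h3, map_mul]
  congr 1
  exact h2.symm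

/-- The value of the Chow form is the Chow form of the values: with `v.At (l a * p_a(i)) (y_a(i))` for
all `a` and `i` we have `v.At ((∏ l) * chw p j) (chw y j)` (a coefficient of the product of the linear
forms is a polynomial in the coefficients of the factors: it is the image of the coefficient of
`pro (fun a i => X (a, i))`, or use `Place.At.mul`, `Place.At.sum`), `isVal_iff`. -/
theorem chp_val {K : Type} [Field K] [Algebra k K] {v : Place k K} {P : Fin e → Pt X K}
    {Q : Fin e → Pt X k} (h : ∀ a, IsVal v (P a) (Q a)) : IsVal v (chp P) (chp Q) := by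
  choose l hl using h
  have hx : (chp P).1 = Projectivization.mk K (chw fun a => (P a).1.rep)
    (chw_ne fun a => (P a).1.rep_nonzero) := rfl
  have hy : (chp Q).1 = Projectivization.mk k (chw fun a => (Q a).1.rep)
    (chw_ne fun a => (Q a).1.rep_nonzero) := rfl
  rw [isVal_iff _ _ hx hy]
  refine ⟨∏ a, l a, fun j => ?_⟩
  have h1 : chw (fun a i => l a * (P a).1.rep i) j =
    (∏ a, l a) * chw (fun a => (P a).1.rep) j := congrFun (chw_smul l fun a => (P a).1.rep) j
  have h2 := chw_aeval (k := k) (fun a i => l a * (P a).1.rep i) j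
  have h3 := chw_aeval (k := k) (fun a => (Q a).1.rep) j
  rw [← h1, h2, h3]
  exact val_mv (x := fun p : Fin e × Fin (n + 1) => l p.1 * (P p.1).1.rep p.2)
    (y := fun p : Fin e × Fin (n + 1) => (Q p.1).1.rep p.2) (fun p => hl p.1 p.2) _

end Pool.Agent.GTC
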