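import Pool.Agent.GTC.Defs
import Pool.Agent.GT.IsoT

/-!
# The map to the symmetric power
-/

set_option autoImplicit false

noncomputable section

namespace Pool.Agent.GTC

open Pool.Agent.ZCyc Pool.Agent.Dess Pool.Agent.GT Pool.Agent.GTM Pool.Agent.TInc
open scoped Classical LinearAlgebra.Projectivization

namespace Cor

variable {k L : Type} [Field k] [Field L] [Algebra k L] {n : ℕ}
  {X : Set (MvPolynomial (Fin (n + 1)) k)}

/-- the map from the family of curves to the projective space of forms, as data of `GT` -/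
def gd (Φ : Cor L n) : GD L (nx n Φ.e) := gd1 Φ.f Φ.B (cf Φ.G) (cf Φ.H)

/-- `gd1_mp`: the coordinates are the coefficients of the form (`MvPolynomial.coeff_map`,
`MvPolynomial.coeff_C_mul`, `Polynomial.coe_eval₂RingHom`, `Polynomial.eval₂_eq_eval_map`) -/
theorem gd_co (Φ : Cor L n) {K : Type} [Field K] (σ : L →+* K) (θ x y : K) :
    (Φ.gd.mp σ θ).co x y = cf (Φ.form σ x y) := by
  unfold gd
  rw [gd1_mp]
  funext i
  unfold Mp.co cf Cor.form
  rw [MvPolynomial.coeff_add, MvPolynomial.coeff_C_mul, MvPolynomial.coeff_map,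
    MvPolynomial.coeff_map]
  simp only [Polynomial.coe_eval₂RingHom, Polynomial.eval_map]
  rw [mul_comm]

/-- the form is homogeneous -/
theorem Ok.form_hom {Φ : Cor L n} (h : Φ.Ok X) {K : Type} [Field K] (σ : L →+* K) (x y : K) :
    (Φ.form σ x y).IsHomogeneous Φ.e := by
  exact (h.homG.map _).add ((h.homH.map _).C_mul y)

/-- the forms commute with extensions of the field -/
private theorem form_map (Φ : Cor L n) {K K' : Type} [Field K] [Field K'] (σ : L →+* K)
    (τ : K →+* K') (x y : K) :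
    (Φ.form σ x y).map τ = Φ.form (τ.comp σ) (τ x) (τ y) := by
  have h1 : τ.comp (Polynomial.eval₂RingHom σ x) =
      Polynomial.eval₂RingHom (τ.comp σ) (τ x) := by
    refine Polynomial.ringHom_ext ?_ ?_
    · intro a
      simp
    · simp
  unfold Cor.form
  rw [map_add, map_mul, MvPolynomial.map_C, MvPolynomial.map_map, MvPolynomial.map_map, h1]

/-- The equations of the symmetric power hold for the forms `Φ(x, y)`, over every field `K`: over the
algebraic closure of `K` the form is a multiple of a Chow form (`Ok.onX`), and the equations are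
homogeneous of positive degree (`aeval_smul_homog`; for the factor zero the value is zero); the
coefficients are in `K` (`cf_map`, `form` commutes with extensions of the field) and
`algebraMap K (AlgebraicClosure K)` is injective. -/
theorem Ok.aeval_form {Φ : Cor L n} (h : Φ.Ok X) {K : Type} [Field K] [Algebra k K]
    (σ : L →ₐ[k] K) {x y : K} (hxy : Φ.On (σ : L →+* K) x y)
    {F : MvPolynomial (Fin (nx n Φ.e + 1)) k} (hF : F ∈ Sy X Φ.e) :
    MvPolynomial.aeval (cf (Φ.form (σ : L →+* K) x y)) F = 0 := by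
  let τ : K →ₐ[k] AlgebraicClosure K := IsScalarTower.toAlgHom k K (AlgebraicClosure K)
  have hcoe : ((τ.comp σ : L →ₐ[k] AlgebraicClosure K) : L →+* AlgebraicClosure K) =
      (algebraMap K (AlgebraicClosure K)).comp (σ : L →+* K) := rfl
  have hon : Φ.On ((τ.comp σ : L →ₐ[k] AlgebraicClosure K) : L →+* AlgebraicClosure K)
      (algebraMap K _ x) (algebraMap K _ y) := by
    have h1 := congrArg (algebraMap K (AlgebraicClosure K)) hxy
    unfold Cor.On
    rw [map_pow, map_add] at h1
    rw [h1, hcoe]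
    congr 1
    rw [RingHom.comp_apply, ← Polynomial.map_dickson (algebraMap K (AlgebraicClosure K)),
      Polynomial.eval_map, Polynomial.eval₂_at_apply]
  obtain ⟨c, P, hP⟩ := h.onX (AlgebraicClosure K) (τ.comp σ) _ _ hon
  obtain ⟨⟨d, hd, hFd⟩, hF2⟩ := hF
  have h2 : MvPolynomial.aeval (cf (e := Φ.e) (Φ.form ((τ.comp σ :
      L →ₐ[k] AlgebraicClosure K) : L →+* AlgebraicClosure K) (algebraMap K _ x)
      (algebraMap K _ y))) F = 0 := by
    rw [hP, cf_smul, aeval_smul_homog hFd]
    have h3 : MvPolynomial.aeval (cf (e := Φ.e) (pro fun a => (P a).1.rep)) F = 0 :=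
      hF2 (AlgebraicClosure K) _ fun a f hf => (P a).2 f hf
    rw [h3, mul_zero]
  rw [hcoe, ← form_map, cf_map] at h2
  have h4 := MvPolynomial.aeval_algebraMap_apply (AlgebraicClosure K)
    (cf (e := Φ.e) (Φ.form (σ : L →+* K) x y)) F
  refine (algebraMap K (AlgebraicClosure K)).injective ?_
  rw [← h4, map_zero]
  exact h2

private theorem gd_ne {Φ : Cor L n} (h : Φ.Ok X) :
    Ideal.span ({Φ.gd.h} ∪ {c | ∃ i j, c = (Φ.gd.G i).coeff j ∨ c = (Φ.gd.H i).coeff j}) =
      ⊤ := by
  have key : ∀ q : Polynomial L, q ≠ 0 → ∃ n, q.coeff n ≠ 0 := by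
    intro q hq
    by_contra hcon
    push Not at hcon
    apply hq
    ext n
    rw [hcon, Polynomial.coeff_zero]
  have h2 : ∃ c : L, c ≠ 0 ∧ (Polynomial.C c : Polynomial L) ∈
      ({Φ.gd.h} ∪ {c | ∃ i j, c = (Φ.gd.G i).coeff j ∨ c = (Φ.gd.H i).coeff j} :
        Set (Polynomial L)) := by
    rcases h.ne with hG | hH
    · have h3 := cf_ne h.homG hG
      obtain ⟨i, hi⟩ := Function.ne_iff.1 h3
      obtain ⟨j, hj⟩ := key _ hi
      refine ⟨_, hj, Or.inr ⟨i, j, Or.inl ?_⟩⟩
      change _ = ((cf Φ.G i).map Polynomial.C).coeff j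
      rw [Polynomial.coeff_map]
    · have h3 := cf_ne h.homH hH
      obtain ⟨i, hi⟩ := Function.ne_iff.1 h3
      obtain ⟨j, hj⟩ := key _ hi
      refine ⟨_, hj, Or.inr ⟨i, j, Or.inr ?_⟩⟩
      change _ = ((cf Φ.H i).map Polynomial.C).coeff j
      rw [Polynomial.coeff_map]
  obtain ⟨c, hc, hmem⟩ := h2
  refine Ideal.eq_top_of_isUnit_mem _ (Ideal.subset_span hmem) ?_
  exact Polynomial.isUnit_C.2 (isUnit_iff_ne_zero.2 hc)

private theorem gd_sep (Φ : Cor L n) : ∃ u w : Polynomial L,
    u * Φ.gd.h + w * Polynomial.derivative Φ.gd.h = 1 := by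
  refine ⟨0, 1, ?_⟩
  change (0 : Polynomial L) * Polynomial.X + 1 * Polynomial.derivative Polynomial.X = 1
  rw [Polynomial.derivative_X]
  ring

/-- The data satisfy the conditions of `GTM` if `f ≠ 0`. Proof: `h = T` is monic and separable (see
`gd1_ok` in `GT/IsoT.lean`), `f` and the discriminant are units in the field `L`; the ideal contains a
nonzero constant polynomial, a coefficient of `G` or `H`, as in `gd1_ok` (`cf_ne`); `onX` is
`Ok.aeval_form` with `gd_co`. -/
theorem Ok.okD {Φ : Cor L n} (h : Φ.Ok X) (hf : Φ.f ≠ 0) : OkD Φ.m Φ.gd (Sy X Φ.e) := by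
  refine ⟨lt_of_lt_of_le (by norm_num) h.three, Polynomial.monic_X, gd_sep Φ,
    isUnit_iff_ne_zero.2 hf, isUnit_iff_ne_zero.2 (sub_ne_zero.2 h.disc), gd_ne h, ?_⟩
  intro K _ _ S θ _ x y hxy F hF
  rw [gd_co]
  exact h.aeval_form S hxy hF

/-- The data satisfy the conditions of `GT` if `m = 3` (`D_3(x, f) = x ³ - 3 f x`:
`Polynomial.dickson_add_two` or `simp [Polynomial.dickson]`). -/
theorem Ok.ok {Φ : Cor L n} (h : Φ.Ok X) (hm : Φ.m = 3) : Φ.gd.Ok (Sy X Φ.e) := by
  have hdisc := h.disc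
  rw [hm] at hdisc
  refine ⟨Polynomial.monic_X, gd_sep Φ, isUnit_iff_ne_zero.2 (sub_ne_zero.2 hdisc), gd_ne h, ?_⟩
  intro K _ _ S θ _ x y hxy F hF
  rw [gd_co]
  refine h.aeval_form S ?_ hF
  have h1 : y ^ 2 = x ^ 3 - 3 * S Φ.f * x + S Φ.B := hxy
  unfold Cor.On
  rw [hm, h1]
  simp [Polynomial.dickson]
  ring

end Cor

end Pool.Agent.GTC
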