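import Pool.Agent.GTC.ChowP

/-!
# Elimination: reduction modulo the maximal ideal of a valuation ring
-/

set_option autoImplicit false

noncomputable section

namespace Pool.Agent.GTC

open Pool.Agent.ZCyc Pool.Agent.Dess Pool.Agent.GT MvPolynomial
open scoped Classical LinearAlgebra.Projectivization

variable {k : Type} [Field k] {n : ℕ} {X : Set (MvPolynomial (Fin (n + 1)) k)} {e : ℕ}

/-- A nonzero vector is a multiple of a vector with coordinates in the valuation ring, one of
which is one: divide by the coordinate with the largest valuation, as in `GT.exists_scale`. -/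
theorem elc_scale {F' : Type} [Field F'] (V : ValuationSubring F') {ι : Type} [Finite ι]
    (x : ι → F') (hx : x ≠ 0) :
    ∃ (l : F') (u : ι → V), l ≠ 0 ∧ (∃ i, u i = 1) ∧ ∀ i, x i = l * (u i : F') := by
  obtain ⟨i₀, hi₀⟩ : ∃ i, x i ≠ 0 := by
    by_contra h
    push Not at h
    exact hx (funext h)
  have : Nonempty ι := ⟨i₀⟩
  obtain ⟨i, hi⟩ := Finite.exists_max fun i => V.valuation (x i)
  have hxi : x i ≠ 0 := by
    intro h
    have h1 := hi i₀
    rw [h, map_zero] at h1
    exact hi₀ ((map_eq_zero V.valuation).1 (le_antisymm h1 zero_le))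
  have hmem : ∀ j, (x i)⁻¹ * x j ∈ V := by
    intro j
    rw [← V.valuation_le_one_iff, map_mul, map_inv₀]
    have h0 : V.valuation (x i) ≠ 0 := (map_ne_zero V.valuation).2 hxi
    calc (V.valuation (x i))⁻¹ * V.valuation (x j)
        ≤ (V.valuation (x i))⁻¹ * V.valuation (x i) := mul_le_mul_right (hi j) _
      _ = 1 := inv_mul_cancel₀ h0
  refine ⟨x i, fun j => ⟨_, hmem j⟩, hxi, ⟨i, ?_⟩, fun j => ?_⟩
  · exact Subtype.ext (inv_mul_cancel₀ hxi)
  · exact (mul_inv_cancel_left₀ hxi (x j)).symm

/-- If the product of the linear forms is not zero, no factor is zero. -/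
private theorem ne_of_chw {F' : Type} [Field F'] {x : Fin e → Fin (n + 1) → F'}
    {j : Fin (nx n e + 1)} (h : chw x j ≠ 0) (a : Fin e) : x a ≠ 0 := by
  intro h0
  apply h
  have h1 : x = fun b i => (if b = a then (0 : F') else 1) * x b i := by
    funext b i
    by_cases hb : b = a
    · rw [if_pos hb, zero_mul, hb, h0]
      rfl
    · rw [if_neg hb, one_mul]
  rw [h1, chw_smul]
  have h2 : (∏ b, if b = a then (0 : F') else 1) = 0 :=
    Finset.prod_eq_zero (Finset.mem_univ a) (if_pos rfl)
  rw [h2]
  exact zero_mul _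

/-- **Reduction.** Let `x` be a tuple of vectors in `F'` which satisfies the equations `X`, `V` a
valuation ring of `F'` such that all `G(chw x)` are in `V`, and in the maximal ideal if and only
if `G(y) = 0`, where `y` is a nonzero vector in `K`. Then over the residue field `κ` of `V` there
are a vector `z`, satisfying the same equations over `k` as `y`, and a tuple `P` of vectors
satisfying the equations `X`, such that `z` is a multiple of `chw P`.

Proof. `V` contains the image of `k` (constant polynomials `G`), so `κ = IsLocalRing.ResidueField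
V` is a `k`-algebra, and `z i` is the residue of `chw x i ∈ V` (`G = X i`); the residue of `G(chw
x)` is `G(z)`. As `y ≠ 0` some `y j ≠ 0` and so `chw x j ≠ 0`, so all `x a ≠ 0` (`ne_of_pro_ne`, a
nonzero coefficient). By `elc_scale` `x a = l a • u a`. Let `λ = ∏ l a`, then `chw x = λ • chw u`
(`chw_smul`, `chw_map` for the inclusion of `V` into `F'`). Let `P a` be the residue of `u a`, a
nonzero vector (a coordinate is one), so `chw P ≠ 0` (`chw_ne`), i.e. `chw u i` is a unit of `V`
for some `i`; since `λ * chw u i = chw x i ∈ V` we get `λ ∈ V`. Let `c` be the residue of `λ`;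
then `z = c • chw P` (`chw_map`). The equations: for `f ∈ X`, homogeneous of degree `d`, `0 = f(x
a) = l a ^ d f(u a)` (`GT.aeval_smul_homog`), so `f(u a) = 0` in `F'`, hence in `V`, and so `f(P
a) = 0`. -/
theorem elc_red (hX : Hom X) {K : Type} [Field K] [Algebra k K] {y : Fin (nx n e + 1) → K}
    (hy : y ≠ 0) {F' : Type} [Field F'] [Algebra k F'] {x : Fin e → Fin (n + 1) → F'}
    {V : ValuationSubring F'} (hx : ∀ a, ∀ f ∈ X, aeval (x a) f = 0)
    (hV : ∀ G : MvPolynomial (Fin (nx n e + 1)) k, aeval (chw x) G ∈ V)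
    (hV' : ∀ G : MvPolynomial (Fin (nx n e + 1)) k,
      aeval (chw x) G ∈ V.nonunits ↔ aeval y G = 0) :
    ∃ (κ : Type) (_ : Field κ) (_ : Algebra k κ) (z : Fin (nx n e + 1) → κ)
      (P : Fin e → Fin (n + 1) → κ) (c : κ),
      (∀ G : MvPolynomial (Fin (nx n e + 1)) k, aeval z G = 0 ↔ aeval y G = 0) ∧
      (∀ a, ∀ f ∈ X, aeval (P a) f = 0) ∧ ∀ i, z i = c * chw P i := by
  let ι : k →+* V := (algebraMap k F').codRestrict V.toSubring fun c => by
    have h := hV (C c)
    rw [← MvPolynomial.algebraMap_eq, AlgHom.commutes] at h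
    exact h
  let κ := IsLocalRing.ResidueField V
  let r : V →+* κ := IsLocalRing.residue V
  let _ : Algebra k κ := (r.comp ι).toAlgebra
  let Φ : MvPolynomial (Fin (nx n e + 1)) k →+* V :=
    (aeval (R := k) (chw x)).toRingHom.codRestrict V.toSubring fun G => hV G
  let z : Fin (nx n e + 1) → κ := fun i => r ⟨chw x i, by
    have h := hV (MvPolynomial.X i)
    rwa [aeval_X] at h⟩
  have hz : ∀ G : MvPolynomial (Fin (nx n e + 1)) k, aeval z G = r (Φ G) := by
    have h : ((aeval z : MvPolynomial (Fin (nx n e + 1)) k →ₐ[k] κ) :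
        MvPolynomial (Fin (nx n e + 1)) k →+* κ) = r.comp Φ := by
      refine MvPolynomial.ringHom_ext (fun c => ?_) fun i => ?_
      · change aeval z (C c) = r (Φ (C c))
        rw [← MvPolynomial.algebraMap_eq, AlgHom.commutes]
        change r (ι c) = r (Φ (algebraMap k _ c))
        congr 1
        refine Subtype.ext ?_
        change algebraMap k F' c = aeval (chw x) (algebraMap k _ c)
        rw [AlgHom.commutes]
      · change aeval z (MvPolynomial.X i) = r (Φ (MvPolynomial.X i))
        rw [aeval_X]
        change r _ = r (Φ (MvPolynomial.X i))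
        congr 1
        refine Subtype.ext ?_
        change chw x i = aeval (chw x) (MvPolynomial.X i)
        rw [aeval_X]
    exact fun G => RingHom.congr_fun h G
  have hz0 : ∀ G : MvPolynomial (Fin (nx n e + 1)) k, aeval z G = 0 ↔ aeval y G = 0 := by
    intro G
    rw [hz, ← hV' G, IsLocalRing.residue_eq_zero_iff, ← ValuationSubring.coe_mem_nonunits_iff]
    rfl
  obtain ⟨j, hj⟩ : ∃ j, y j ≠ 0 := by
    by_contra h
    push Not at h
    exact hy (funext h)
  have hxj : chw x j ≠ 0 := by
    intro h0
    apply hj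
    have h1 := (hV' (MvPolynomial.X j)).1 (by
      rw [aeval_X, h0, ValuationSubring.mem_nonunits_iff, map_zero]
      exact zero_lt_one)
    rwa [aeval_X] at h1
  choose l u hl hu1 hu using fun a => elc_scale V (x a) (ne_of_chw hxj a)
  have hxu : x = fun a i => l a * (V.subtype (u a i)) := by
    funext a i
    exact hu a i
  have hchw : ∀ i, chw x i = (∏ a, l a) * ((chw u i : V) : F') := by
    intro i
    have h1 : chw x i = chw (fun a i => l a * (V.subtype (u a i))) i := by
      rw [← hxu]
    rw [h1, chw_smul, chw_map]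
    rfl
  let P : Fin e → Fin (n + 1) → κ := fun a i => r (u a i)
  have hP0 : ∀ a, P a ≠ 0 := by
    intro a h0
    obtain ⟨i, hi⟩ := hu1 a
    have h1 := congrFun h0 i
    change r (u a i) = 0 at h1
    rw [hi, map_one] at h1
    exact one_ne_zero h1
  have hPu : ∀ i, chw P i = r (chw u i) := by
    intro i
    change chw (fun a i => r (u a i)) i = _
    rw [chw_map]
  obtain ⟨i₀, hi₀⟩ : ∃ i, chw P i ≠ 0 := by
    by_contra h
    push Not at h
    exact chw_ne hP0 (funext h)
  rw [hPu] at hi₀
  have hunit : IsUnit (chw u i₀) := by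
    by_contra h
    exact hi₀ ((IsLocalRing.residue_eq_zero_iff _).2 ((IsLocalRing.mem_maximalIdeal _).2 h))
  obtain ⟨w, hw⟩ := hunit.exists_right_inv
  have hlam : (∏ a, l a) = ((Φ (MvPolynomial.X i₀) * w : V) : F') := by
    have h1 : ((Φ (MvPolynomial.X i₀) : V) : F') = chw x i₀ := by
      change aeval (chw x) (MvPolynomial.X i₀) = _
      rw [aeval_X]
    have h2 : ((chw u i₀ : V) : F') * (w : F') = 1 := by
      have := congrArg (fun v : V => (v : F')) hw
      simpa using this
    change _ = ((Φ (MvPolynomial.X i₀) : V) : F') * (w : F')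
    rw [h1, hchw, mul_assoc, h2, mul_one]
  refine ⟨κ, inferInstance, inferInstance, z, P, r (Φ (MvPolynomial.X i₀) * w), hz0, ?_, ?_⟩
  · intro a f hf
    obtain ⟨d, hd⟩ := hX f hf
    have h1 := hx a f hf
    have h2 : x a = fun i => l a * (V.subtype (u a i)) := by
      funext i
      exact hu a i
    rw [h2, aeval_smul_homog hd] at h1
    have h3 := (mul_eq_zero.1 h1).resolve_left (pow_ne_zero _ (hl a))
    have h4 : aeval (fun i => V.subtype (u a i)) f = V.subtype (eval₂ ι (u a) f) := by
      rw [eval₂_comp_left, aeval_def]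
      rfl
    rw [h4] at h3
    have h5 : eval₂ ι (u a) f = 0 := Subtype.ext h3
    have h6 : aeval (P a) f = r (eval₂ ι (u a) f) := by
      rw [eval₂_comp_left, aeval_def]
      rfl
    rw [h6, h5, map_zero]
  · intro i
    rw [hPu, ← map_mul]
    change r _ = r _
    congr 1
    refine Subtype.ext ?_
    change chw x i = ((Φ (MvPolynomial.X i₀) * w : V) : F') * ((chw u i : V) : F')
    rw [← hlam, hchw]

end Pool.Agent.GTC
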