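import Mathlib

/-!
# A common extension of two fields
-/

set_option autoImplicit false

noncomputable section

namespace Pool.Agent.GTC

open MvPolynomial
open scoped Classical

/-- Two vectors in two extensions of `k` which satisfy the same equations over `k` have the same images
in a common extension. Proof: let `p` be the kernel of `aeval y`, which is also the kernel of `aeval z`,
`E = FractionRing (MvPolynomial ι k ⧸ p)`. The injective homomorphisms from `MvPolynomial ι k ⧸ p` to `K`
and `κ` extend to `E` (`IsFractionRing.lift`), so `K` and `κ` are `E`-algebras. `K ⊗[E] κ` is not the zero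
ring; let `M` be the quotient by a maximal ideal. -/
theorem eld_common {k K κ : Type} [Field k] [Field K] [Field κ] [Algebra k K] [Algebra k κ]
    {ι : Type} (y : ι → K) (z : ι → κ)
    (h : ∀ G : MvPolynomial ι k, aeval z G = 0 ↔ aeval y G = 0) :
    ∃ (M : Type) (_ : Field M) (_ : Algebra k M) (i : K →ₐ[k] M) (j : κ →ₐ[k] M),
      ∀ s, i (y s) = j (z s) := by
  let p : Ideal (MvPolynomial ι k) := RingHom.ker (aeval y : MvPolynomial ι k →ₐ[k] K)
  have hp : p.IsPrime := RingHom.ker_isPrime _
  let fy : (MvPolynomial ι k ⧸ p) →ₐ[k] K := Ideal.Quotient.liftₐ p (aeval y) fun a ha => ha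
  let fz : (MvPolynomial ι k ⧸ p) →ₐ[k] κ :=
    Ideal.Quotient.liftₐ p (aeval z) fun a ha => (h a).2 ha
  have hy : Function.Injective fy := by
    rw [injective_iff_map_eq_zero]
    intro a ha
    obtain ⟨a, rfl⟩ := Ideal.Quotient.mk_surjective a
    exact Ideal.Quotient.eq_zero_iff_mem.2 ha
  have hz : Function.Injective fz := by
    rw [injective_iff_map_eq_zero]
    intro a ha
    obtain ⟨a, rfl⟩ := Ideal.Quotient.mk_surjective a
    exact Ideal.Quotient.eq_zero_iff_mem.2 ((h a).1 ha)
  let gy : FractionRing (MvPolynomial ι k ⧸ p) →+* K := IsFractionRing.lift (g := fy.toRingHom) hy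
  let gz : FractionRing (MvPolynomial ι k ⧸ p) →+* κ := IsFractionRing.lift (g := fz.toRingHom) hz
  have ey : ∀ a : MvPolynomial ι k, gy (algebraMap _ _ (Ideal.Quotient.mk p a)) = aeval y a :=
    fun a => IsFractionRing.lift_algebraMap hy _
  have ez : ∀ a : MvPolynomial ι k, gz (algebraMap _ _ (Ideal.Quotient.mk p a)) = aeval z a :=
    fun a => IsFractionRing.lift_algebraMap hz _
  let : Algebra (FractionRing (MvPolynomial ι k ⧸ p)) K := gy.toAlgebra
  let : Algebra (FractionRing (MvPolynomial ι k ⧸ p)) κ := gz.toAlgebra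
  have : Nontrivial (TensorProduct (FractionRing (MvPolynomial ι k ⧸ p)) K κ) := inferInstance
  obtain ⟨m, hm⟩ := Ideal.exists_maximal (TensorProduct (FractionRing (MvPolynomial ι k ⧸ p)) K κ)
  let i0 : K →+* (TensorProduct (FractionRing (MvPolynomial ι k ⧸ p)) K κ) ⧸ m :=
    (Ideal.Quotient.mk m).comp Algebra.TensorProduct.includeLeftRingHom
  let j0 : κ →+* (TensorProduct (FractionRing (MvPolynomial ι k ⧸ p)) K κ) ⧸ m :=
    (Ideal.Quotient.mk m).comp
      (Algebra.TensorProduct.includeRight :
        κ →ₐ[FractionRing (MvPolynomial ι k ⧸ p)] TensorProduct _ K κ).toRingHom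
  have hij : ∀ e : FractionRing (MvPolynomial ι k ⧸ p), i0 (gy e) = j0 (gz e) := by
    intro e
    have e1 : (Algebra.TensorProduct.includeLeftRingHom (gy e) :
        TensorProduct (FractionRing (MvPolynomial ι k ⧸ p)) K κ) =
        (Algebra.TensorProduct.includeRight :
          κ →ₐ[FractionRing (MvPolynomial ι k ⧸ p)] TensorProduct _ K κ) (gz e) := by
      have := (Algebra.TensorProduct.includeRight :
        κ →ₐ[FractionRing (MvPolynomial ι k ⧸ p)] TensorProduct _ K κ).commutes e
      exact this.symm
    exact congrArg (Ideal.Quotient.mk m) e1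
  have hp1 : ∀ G : MvPolynomial ι k, i0 (aeval y G) = j0 (aeval z G) := by
    intro G
    rw [← ey, ← ez]
    exact hij _
  let F : Field ((TensorProduct (FractionRing (MvPolynomial ι k ⧸ p)) K κ) ⧸ m) :=
    Ideal.Quotient.field m
  let A : Algebra k ((TensorProduct (FractionRing (MvPolynomial ι k ⧸ p)) K κ) ⧸ m) :=
    (i0.comp (algebraMap k K)).toAlgebra
  refine ⟨_, F, A, ⟨i0, fun c => rfl⟩, ⟨j0, fun c => ?_⟩, fun s => ?_⟩
  · have := hp1 (C c)
    rw [aeval_C, aeval_C] at this
    exact this.symm
  · have := hp1 (X s)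
    rw [aeval_X, aeval_X] at this
    exact this

end Pool.Agent.GTC
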