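import Pool.Agent.GTC.ChowP

/-!
# Elimination: the theorem of zeros
-/

set_option autoImplicit false

noncomputable section

namespace Pool.Agent.GTC

open Pool.Agent.ZCyc Pool.Agent.Dess Pool.Agent.GT MvPolynomial
open scoped Classical LinearAlgebra.Projectivization

variable {k : Type} [Field k] {n : ℕ} {X : Set (MvPolynomial (Fin (n + 1)) k)} {e : ℕ}

/-- Hilbert's theorem of zeros: if over an extension `M` of the algebraically closed field `K` the
vector `y` is a multiple of the Chow form of a tuple of vectors satisfying the equations `X`, then this is so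
over `K`. Proof: polynomials over `K` in the variables `Option (Fin e × Fin (n + 1))` (`none` is the
factor `c`): the ideal `J` generated by all `(aeval fun i => X (some (a, i))) f`, for `f ∈ X`, and
`C (y s) - X none * chw (fun a i => X (some (a, i))) s` is mapped to zero by the evaluation at the point
over `M` (`MvPolynomial.aeval` with `K → M`), so `J ≠ ⊤`. It is contained in a maximal ideal, and by
`MvPolynomial.isMaximal_iff_eq_vanishingIdeal_singleton` this is the ideal of a point over `K`. -/
theorem eld_null {K M : Type} [Field K] [IsAlgClosed K] [Algebra k K] [Field M] [Algebra k M]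
    (i : K →ₐ[k] M) {y : Fin (nx n e + 1) → K} {P : Fin e → Fin (n + 1) → M} {c : M}
    (hP : ∀ a, ∀ f ∈ X, aeval (P a) f = 0) (hc : ∀ s, i (y s) = c * chw P s) :
    ∃ (P' : Fin e → Fin (n + 1) → K) (c' : K), (∀ a, ∀ f ∈ X, aeval (P' a) f = 0) ∧
      ∀ s, y s = c' * chw P' s := by
  let σ : Type := Option (Fin e × Fin (n + 1))
  let Q : Fin e → Fin (n + 1) → MvPolynomial σ K := fun a j => MvPolynomial.X (some (a, j))
  let t : MvPolynomial σ K := MvPolynomial.X none
  let G : Set (MvPolynomial σ K) :=
    {g | (∃ a, ∃ f ∈ X, g = aeval (Q a) f) ∨ ∃ s, g = C (y s) - t * chw Q s}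
  let φ : MvPolynomial σ K →ₐ[k] M := aevalTower i (fun o => o.elim c fun p => P p.1 p.2)
  have hφQ : ∀ a j, φ (Q a j) = P a j := fun a j => aevalTower_X _ _ _
  have hφt : φ t = c := aevalTower_X _ _ _
  have hG : ∀ g ∈ G, φ g = 0 := by
    rintro g (⟨a, f, hf, rfl⟩ | ⟨s, rfl⟩)
    · rw [comp_aeval_apply]
      simp only [hφQ]
      exact hP a f hf
    · rw [map_sub, map_mul, hφt]
      have h1 : φ (C (y s)) = i (y s) := aevalTower_C _ _ _
      have h2 : φ (chw Q s) = chw P s := by
        have h3 := congrFun (chw_map (φ : MvPolynomial σ K →+* M) Q) s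
        have h4 : (fun a j => (φ : MvPolynomial σ K →+* M) (Q a j)) = P := by
          funext a j
          exact hφQ a j
        rw [h4] at h3
        exact h3.symm
      rw [h1, h2, hc s, sub_self]
  have hJ : Ideal.span G ≠ ⊤ := by
    intro h
    have h1 : (1 : MvPolynomial σ K) ∈ Ideal.span G := h ▸ Submodule.mem_top
    have h2 : Ideal.span G ≤ RingHom.ker (φ : MvPolynomial σ K →+* M) :=
      Ideal.span_le.2 fun g hg => hG g hg
    have h3 : φ 1 = 0 := h2 h1
    rw [map_one] at h3
    exact one_ne_zero h3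
  obtain ⟨m, hm, hJm⟩ := Ideal.exists_le_maximal _ hJ
  obtain ⟨x, rfl⟩ := isMaximal_iff_eq_vanishingIdeal_singleton.1 hm
  have hx : ∀ g ∈ G, aeval x g = 0 := fun g hg =>
    (mem_vanishingIdeal_singleton_iff x g).1 (hJm (Ideal.subset_span hg))
  let ψ : MvPolynomial σ K →ₐ[k] K := (aeval x : MvPolynomial σ K →ₐ[K] K).restrictScalars k
  have hψ : ∀ g, ψ g = aeval x g := fun g => rfl
  have hψQ : ∀ a j, ψ (Q a j) = x (some (a, j)) := fun a j => aeval_X _ _
  refine ⟨fun a j => x (some (a, j)), x none, fun a f hf => ?_, fun s => ?_⟩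
  · have h1 : ψ (aeval (Q a) f) = 0 := hx _ (Or.inl ⟨a, f, hf, rfl⟩)
    rw [comp_aeval_apply] at h1
    simp only [hψQ] at h1
    exact h1
  · have h1 : ψ (C (y s) - t * chw Q s) = 0 := hx _ (Or.inr ⟨s, rfl⟩)
    have h2 : ψ (chw Q s) = chw (fun a j => x (some (a, j))) s := by
      have h3 := congrFun (chw_map (ψ : MvPolynomial σ K →+* K) Q) s
      have h4 : (fun a j => (ψ : MvPolynomial σ K →+* K) (Q a j)) =
          fun a j => x (some (a, j)) := by
        funext a j
        exact hψQ a j
      rw [h4] at h3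
      exact h3.symm
    have h5 : ψ t = x none := aeval_X _ _
    have h6 : ψ (C (y s)) = y s := by
      rw [hψ, aeval_C]
      rfl
    rw [map_sub, map_mul, h2, h5, h6] at h1
    exact sub_eq_zero.1 h1

end Pool.Agent.GTC
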