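import Pool.Agent.GTC.ElB
import Pool.Agent.GTC.ElC
import Pool.Agent.GTC.ElD1
import Pool.Agent.GTC.ElD2

/-!
# Elimination: every point of the symmetric power is a Chow form
-/

set_option autoImplicit false

noncomputable section

namespace Pool.Agent.GTC

open Pool.Agent.ZCyc Pool.Agent.Dess Pool.Agent.GT MvPolynomial
open scoped Classical LinearAlgebra.Projectivization

variable {k : Type} [Field k] {n : ℕ} {X : Set (MvPolynomial (Fin (n + 1)) k)} {e : ℕ}

/-- **Elimination.** Every point of the symmetric power over an algebraically closed field is a Chow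
form: `elb_main`, `elc_red`, `eld_common`, `eld_null` for `y = Q.1.rep`. In `y s = c' * chw P' s` we have
`c' ≠ 0` and all `P' a ≠ 0` since `y ≠ 0` (`ne_of_pro_ne`), and `chp_eq`, `Projectivization.mk_rep`,
`Projectivization.mk_eq_mk_iff'`. -/
theorem exists_chp (hX : Hom X) (he : 0 < e) {K : Type} [Field K] [IsAlgClosed K] [Algebra k K]
    (Q : Pt (Sy X e) K) : ∃ P : Fin e → Pt X K, chp P = Q := by
  obtain ⟨F', iF, iA, x, V, hx, hV, hV'⟩ := elb_main hX he Q
  have hy : Q.1.rep ≠ 0 := Q.1.rep_nonzero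
  obtain ⟨κ, iκ, iAκ, z, P, c, hz, hP, hzc⟩ := elc_red hX hy hx hV hV'
  obtain ⟨M, iM, iAM, i, j, hij⟩ := eld_common Q.1.rep z hz
  obtain ⟨P', c', hP', hc'⟩ := eld_null (X := X) i (y := Q.1.rep)
    (P := fun a s => j (P a s)) (c := j c) (by
      intro a f hf
      have h1 : aeval (fun s => j (P a s)) f = j (aeval (P a) f) :=
        (comp_aeval_apply (P a) j f).symm
      rw [h1, hP a f hf, map_zero]) (by
      intro s
      have h2 : chw (fun a s => j (P a s)) s = j (chw P s) :=
        congrFun (chw_map (j : κ →+* M) P) s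
      rw [hij, hzc, map_mul, h2])
  have hc0 : c' ≠ 0 := by
    rintro rfl
    apply hy
    funext s
    rw [hc' s, zero_mul, Pi.zero_apply]
  have hchw : chw P' ≠ 0 := by
    intro h0
    apply hy
    funext s
    rw [hc' s, h0, Pi.zero_apply, mul_zero]
  have hpro : pro P' ≠ 0 := by
    intro h0
    apply hchw
    funext s
    change (pro P').coeff _ = 0
    rw [h0, coeff_zero]
  have hP0 : ∀ a, P' a ≠ 0 := ne_of_pro_ne hpro
  refine ⟨fun a => mkPt hX (P' a) (hP0 a) (hP' a), ?_⟩
  rw [chp_eq hX hP0 hP']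
  apply Subtype.ext
  change Projectivization.mk K (chw P') (chw_ne hP0) = Q.1
  rw [← Projectivization.mk_rep Q.1, Projectivization.mk_eq_mk_iff']
  refine ⟨c'⁻¹, ?_⟩
  funext s
  change c'⁻¹ * Q.1.rep s = chw P' s
  rw [hc' s, ← mul_assoc, inv_mul_cancel₀ hc0, one_mul]

end Pool.Agent.GTC
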