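import Pool.Agent.GTC.CorA
import Pool.Agent.GTC.ElD

/-!
# Values of correspondences
-/

set_option autoImplicit false

noncomputable section

namespace Pool.Agent.GTC

open Pool.Agent.ZCyc Pool.Agent.Dess Pool.Agent.GT Pool.Agent.GTM Pool.Agent.TInc
open Pool.Agent.VFP (Om tt)
open scoped Classical LinearAlgebra.Projectivization

variable {k : Type} [Field k] {n : ℕ} {X : Set (MvPolynomial (Fin (n + 1)) k)}

/-- Values of forms and values of points: for a form `F ≠ 0` of degree `e` over `K` whose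
coefficients
satisfy the equations `Sy X e`, the condition that the Chow form of `P` is the value of a multiple
of
`F` for all coefficients is the condition for the points (`isVal_iff`; the coefficients `s` which
are
not of degree `e` are zero on both sides, the others are `exn i`). -/
theorem form_val_iff {K : Type} [Field K] [Algebra k K] {e : ℕ} {F : MvPolynomial (Fin (n + 1)) K}
    (hF : F.IsHomogeneous e) (h0 : cf (e := e) F ≠ 0)
    (hS : ∀ f ∈ Sy X e, MvPolynomial.aeval (cf (e := e) F) f = 0) (v : Place k K)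
    (P : Fin e → Pt X k) :
    (∃ l : K, ∀ s, v.At (l * F.coeff s) ((pro fun a => (P a).1.rep).coeff s)) ↔
      IsVal v (mkPt (hom_Sy X e) (cf F) h0 hS) (chp P) := by
  refine Iff.trans ?_ (isVal_iff h0 (chw_ne fun a => (P a).1.rep_nonzero) rfl rfl).symm
  constructor
  · rintro ⟨l, hl⟩
    exact ⟨l, fun i => hl (exn i)⟩
  · rintro ⟨l, hl⟩
    refine ⟨l, fun s => ?_⟩
    by_cases hs : ∑ j, s j = e
    · obtain ⟨i, hi⟩ := exists_exn hs
      have h1 := hl i
      unfold cf chw cf at h1
      rwa [hi] at h1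
    · have hd : s.degree ≠ e := by
        rwa [Finsupp.degree_eq_sum]
      rw [hF.coeff_eq_zero hd, (pro_hom _).coeff_eq_zero hd, mul_zero]
      have h2 := Place.at_const (v := v) (0 : k)
      rwa [map_zero] at h2

/-- If the form has a value then it is not zero (the coefficients of `pro` are not all zero,
`pro_ne`). -/
theorem form_ne_of_val {K : Type} [Field K] [Algebra k K] {e : ℕ}
    {F : MvPolynomial (Fin (n + 1)) K} (hF : F.IsHomogeneous e) {v : Place k K} {P : Fin e → Pt X k}
    {l : K} (h : ∀ s, v.At (l * F.coeff s) ((pro fun a => (P a).1.rep).coeff s)) :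
    cf (e := e) F ≠ 0 := by
  intro h0
  have h1 : F = 0 := by
    refine cf_inj hF (MvPolynomial.isHomogeneous_zero _ _ _) (h0.trans ?_)
    funext i
    exact (MvPolynomial.coeff_zero _).symm
  refine pro_ne (fun a => (P a).1.rep_nonzero) (MvPolynomial.ext _ _ fun s => ?_)
  have h2 := h s
  rw [h1, MvPolynomial.coeff_zero, mul_zero] at h2
  have h3 := Place.at_const (v := v) (0 : k)
  rw [map_zero] at h3
  rw [MvPolynomial.coeff_zero]
  exact Place.At.unique h2 h3

private theorem fv_mul {K : Type} [Field K] [Algebra k K] {v : Place k K}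
    {F F' : MvPolynomial (Fin (n + 1)) K} {G G' : MvPolynomial (Fin (n + 1)) k}
    (h : ∃ l : K, ∀ s, v.At (l * F.coeff s) (G.coeff s))
    (h' : ∃ l : K, ∀ s, v.At (l * F'.coeff s) (G'.coeff s)) :
    ∃ l : K, ∀ s, v.At (l * (F * F').coeff s) ((G * G').coeff s) := by
  obtain ⟨l, hl⟩ := h
  obtain ⟨l', hl'⟩ := h'
  refine ⟨l * l', fun s => ?_⟩
  rw [MvPolynomial.coeff_mul, MvPolynomial.coeff_mul, Finset.mul_sum]
  refine Place.At.sum fun x _ => ?_
  have h1 : l * l' * (F.coeff x.1 * F'.coeff x.2) =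
      (l * F.coeff x.1) * (l' * F'.coeff x.2) := by ring
  rw [h1]
  exact (hl _).mul (hl' _)

private theorem fv_prod {K : Type} [Field K] [Algebra k K] {v : Place k K} {ι : Type}
    (T : Finset ι) {F : ι → MvPolynomial (Fin (n + 1)) K} {G : ι → MvPolynomial (Fin (n + 1)) k}
    (h : ∀ i, ∃ l : K, ∀ s, v.At (l * (F i).coeff s) ((G i).coeff s)) :
    ∃ l : K, ∀ s, v.At (l * (∏ i ∈ T, F i).coeff s) ((∏ i ∈ T, G i).coeff s) := by
  induction T using Finset.induction_on with
  | empty =>
    refine ⟨1, fun s => ?_⟩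
    rw [Finset.prod_empty, Finset.prod_empty, one_mul, MvPolynomial.coeff_one,
      MvPolynomial.coeff_one]
    split_ifs
    · have h2 := Place.at_const (v := v) (1 : k)
      rwa [map_one] at h2
    · have h2 := Place.at_const (v := v) (0 : k)
      rwa [map_zero] at h2
  | insert a T ha ih =>
    rw [Finset.prod_insert ha, Finset.prod_insert ha]
    exact fv_mul (h a) ih

/-- Products: if `P` is the value of `F` and `P'` the value of `F'` then `P, P'` is the value of
`F * F'` (`MvPolynomial.coeff_mul`, `Place.At.mul`, `Place.At.sum`; `pro` of `Fin.append P P'` is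
the
product, `Fin.prod_univ_add`). -/
theorem form_val_mul {K : Type} [Field K] [Algebra k K] {e e' : ℕ}
    {F F' : MvPolynomial (Fin (n + 1)) K} {v : Place k K} {P : Fin e → Pt X k}
    {P' : Fin e' → Pt X k}
    (h : ∃ l : K, ∀ s, v.At (l * F.coeff s) ((pro fun a => (P a).1.rep).coeff s))
    (h' : ∃ l : K, ∀ s, v.At (l * F'.coeff s) ((pro fun a => (P' a).1.rep).coeff s)) :
    ∃ l : K, ∀ s, v.At (l * (F * F').coeff s)
      ((pro fun a => (Fin.append P P' a).1.rep).coeff s) := by
  have h1 : (pro fun a => (Fin.append P P' a).1.rep) =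
      (pro fun a => (P a).1.rep) * pro fun a => (P' a).1.rep := by
    unfold pro
    rw [Fin.prod_univ_add]
    simp only [Fin.append_left, Fin.append_right]
  rw [h1]
  exact fv_mul h h'

/-- Products of `r` forms of the same degree; the index set `Fin (r * e)` by `finProdFinEquiv`. -/
theorem form_val_prod {K : Type} [Field K] [Algebra k K] {e r : ℕ}
    {F : Fin r → MvPolynomial (Fin (n + 1)) K} {v : Place k K} {P : Fin r → Fin e → Pt X k}
    (h : ∀ i, ∃ l : K, ∀ s, v.At (l * (F i).coeff s) ((pro fun a => (P i a).1.rep).coeff s)) :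
    ∃ l : K, ∀ s, v.At (l * (∏ i, F i).coeff s)
      ((pro fun a : Fin (r * e) => (P (finProdFinEquiv.symm a).1 (finProdFinEquiv.symm a).2).1.rep
        ).coeff s) := by
  have h1 : (pro fun a : Fin (r * e) =>
      (P (finProdFinEquiv.symm a).1 (finProdFinEquiv.symm a).2).1.rep) =
      ∏ i, pro fun j => (P i j).1.rep := by
    unfold pro
    rw [← Fintype.prod_prod_type']
    exact Fintype.prod_equiv finProdFinEquiv.symm _ _ fun a => rfl
  rw [h1]
  exact fv_prod Finset.univ h

namespace Cor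

variable {L : Type} [Field L] [Algebra k L]

private theorem crb_form {K K' : Type} [Field K] [Field K'] (Φ : Cor L n) (S : L →+* K)
    (ι : K →+* K') (x y : K) : Φ.form (ι.comp S) (ι x) (ι y) = (Φ.form S x y).map ι := by
  have h : Polynomial.eval₂RingHom (ι.comp S) (ι x) = ι.comp (Polynomial.eval₂RingHom S x) := by
    refine Polynomial.ringHom_ext (fun a => ?_) ?_
    · simp
    · simp
  unfold form
  rw [h, map_add, map_mul, MvPolynomial.map_C, MvPolynomial.map_map, MvPolynomial.map_map]

private theorem crb_at {K K' : Type} [Field K] [Algebra k K] [Field K'] [Algebra k K']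
    {φ : K →ₐ[k] K'} {V : Place k K'} {v : Place k K}
    (hV : V.ring.comap (φ : K →+* K') = v.ring) (f : K) (c : k) :
    V.At (φ f) c ↔ v.At f c := by
  have hmem : ∀ f : K, φ f ∈ V.ring ↔ f ∈ v.ring := by
    intro f
    rw [← hV, ValuationSubring.mem_comap]
    rfl
  unfold Place.At
  rw [Place.vanishes_iff_or, Place.vanishes_iff_or, ← φ.commutes c, ← map_sub, ← map_inv₀,
    hmem, map_eq_zero]

/-- The values under an extension of the field, as `IsValsD.map` in `GTM/DkF.lean` (`dkf_at`
there): the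
form over `K'` is the image of the form over `K`. -/
theorem Val.map {Φ : Cor L n} {K K' : Type} [Field K] [Algebra k K] [Field K'] [Algebra k K']
    {σ : L →ₐ[k] K} {v : Place k K} {x y : K} {P : Fin Φ.e → Pt X k} (h : Φ.Val X σ v x y P)
    {φ : K →ₐ[k] K'} {V : Place k K'} (hV : V.ring.comap (φ : K →+* K') = v.ring) :
    Φ.Val X (φ.comp σ) V (φ x) (φ y) P := by
  refine ⟨?_, ?_⟩
  · have h1 := congrArg φ h.on
    rw [map_pow, map_add] at h1
    unfold On
    rw [h1]
    have h2 : φ ((Polynomial.dickson 1 (σ Φ.f) Φ.m).eval x) =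
        (Polynomial.dickson 1 ((φ.comp σ) Φ.f) Φ.m).eval (φ x) := by
      have h3 := Polynomial.eval_map_apply (φ : K →+* K') x
        (p := Polynomial.dickson 1 (σ Φ.f) Φ.m)
      rw [dickson_map] at h3
      exact h3.symm
    exact congrArg (· + φ (σ Φ.B)) h2
  · obtain ⟨l, hl⟩ := h.val
    refine ⟨φ l, fun s => ?_⟩
    have h1 := (crb_at hV _ _).2 (hl s)
    rw [map_mul] at h1
    have h2 := crb_form Φ (σ : L →+* K) (φ : K →+* K') x y
    have h3 : ((φ : K →+* K').comp (σ : L →+* K)) = ((φ.comp σ : L →ₐ[k] K') : L →+* K') := rfl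
    rw [h3] at h2
    have h4 := congrArg (MvPolynomial.coeff s) h2
    rw [MvPolynomial.coeff_map] at h4
    have h5 : MvPolynomial.coeff s (Φ.form ((φ.comp σ : L →ₐ[k] K') : L →+* K') (φ x) (φ y)) =
      φ (MvPolynomial.coeff s (Φ.form (σ : L →+* K) x y)) := h4
    rw [h5]
    exact h1

private theorem crb_val {Φ : Cor L n} {K : Type} [Field K] [Algebra k K] {σ : L →ₐ[k] K}
    {v : Place k K} {x y : K} {P : Fin Φ.e → Pt X k} (h : Φ.Val X σ v x y P) (θ : K) :
    ∃ l : K, ∀ i, v.At (l * (Φ.gd.mp (σ : L →+* K) θ).co x y i) ((chp P).1.rep i) := by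
  obtain ⟨l, hl⟩ := h.val
  obtain ⟨c, hc⟩ := Projectivization.exists_smul_eq_mk_rep k (chw fun a => (P a).1.rep)
    (chw_ne fun a => (P a).1.rep_nonzero)
  refine ⟨algebraMap k K c * l, fun i => ?_⟩
  have h1 : (chp P).1.rep i = (c : k) * chw (fun a => (P a).1.rep) i := by
    have h2 : (chp P).1.rep = c • chw (fun a => (P a).1.rep) := hc.symm
    rw [h2]
    rfl
  rw [h1, gd_co, mul_assoc]
  exact (Place.at_const (v := v) (c : k)).mul (hl (exn i))

private theorem crb_roots {Φ : Cor L n} {K : Type} [Field K] (σ : L →+* K) :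
    Φ.gd.h.map σ = ∏ _b : Fin 1, (Polynomial.X - Polynomial.C (0 : K)) := by
  have h1 : Φ.gd.h = Polynomial.X := rfl
  rw [h1, Polynomial.map_X]
  simp

/-- A value of `Φ` is a value of the map to the symmetric power, for `h = T` with the root `0`:
`gd_co`, `form_val_iff` or `isVal_iff` with the representative `chw` of `chp P`. -/
theorem Val.isValsD {Φ : Cor L n} {K : Type} [Field K] [Algebra k K] {σ : L →ₐ[k] K}
    {v : Place k K} {x y : K} {P : Fin Φ.e → Pt X k} (h : Φ.Val X σ v x y P) :
    IsValsD Φ.m Φ.gd (Sy X Φ.e) σ v (fun _ : Fin 1 => (0 : K)) x y fun _ => chp P :=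
  ⟨crb_roots _, h.on, fun _ => crb_val h 0⟩

/-- the same for `m = 3` and the definition of `GT` -/
theorem Val.isVals {Φ : Cor L n} (hm : Φ.m = 3) {K : Type} [Field K] [Algebra k K]
    {σ : L →ₐ[k] K} {v : Place k K} {x y : K} {P : Fin Φ.e → Pt X k} (h : Φ.Val X σ v x y P) :
    IsVals Φ.gd (Sy X Φ.e) σ v (fun _ : Fin 1 => (0 : K)) x y fun _ => chp P := by
  refine ⟨crb_roots _, ?_, fun _ => crb_val h 0⟩
  have h1 := h.on
  unfold On at h1
  rw [hm] at h1
  have h2 : (Polynomial.dickson 1 ((σ : L →+* K) Φ.f) 3).eval x =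
      x ^ 3 - 3 * (σ : L →+* K) Φ.f * x := by
    simp [Polynomial.dickson]
    ring
  rw [h2] at h1
  exact h1

/-- Existence of values: if the form is not zero then the point of the symmetric power has a value
(`exists_isVal`), which is a Chow form (`exists_chp`), and `form_val_iff`. -/
theorem Ok.exists_val [IsAlgClosed k] {Φ : Cor L n} (hX : Hom X) (hΦ : Φ.Ok X) {K : Type} [Field K]
    [Algebra k K] [HasRes k K] (σ : L →ₐ[k] K) (v : Place k K) {x y : K}
    (hxy : Φ.On (σ : L →+* K) x y) (h0 : Φ.form (σ : L →+* K) x y ≠ 0) :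
    ∃ P : Fin Φ.e → Pt X k, Φ.Val X σ v x y P := by
  have hF := hΦ.form_hom (σ : L →+* K) x y
  have h0' : cf (e := Φ.e) (Φ.form (σ : L →+* K) x y) ≠ 0 := cf_ne hF h0
  have hS : ∀ f ∈ Sy X Φ.e, MvPolynomial.aeval (cf (e := Φ.e) (Φ.form (σ : L →+* K) x y)) f = 0 :=
    fun f hf => hΦ.aeval_form σ hxy hf
  obtain ⟨Q, hQ⟩ := exists_isVal (hom_Sy X Φ.e) v (mkPt (hom_Sy X Φ.e) _ h0' hS)
  obtain ⟨P, hP⟩ := exists_chp hX hΦ.pos Q
  refine ⟨P, hxy, ?_⟩
  rw [form_val_iff hF h0' hS v P, hP]
  exact hQ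

end Cor

end Pool.Agent.GTC
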