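import Pool.Agent.TInc.Riem

/-!
# Functions with one pole
-/

set_option autoImplicit false

noncomputable section

namespace Pool.Agent.GTC

open Pool.Agent.ZCyc Pool.Agent.Dess Pool.Agent.TInc Module
open scoped Classical

variable {k : Type} [Field k] [IsAlgClosed k] [CharZero k] {K : Type} [Field K] [Algebra k K]

/-- A function whose only pole is the given place: by Riemann's inequality (`exists_genus`) for the
divisor `(g + 1) v` the space `LD` has dimension at least `2`, so it contains a function which is not
constant (`transc_of_ne`); it has a pole (`const_of_regular`), and only at `v` (`mem_LD`,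
`mem_iff_ord`). -/
theorem cvr_pole (hK : IsCurve k K) (v : Place k K) :
    ∃ f : K, Transcendental k f ∧ ∀ u : Place k K, f ∉ u.ring ↔ u = v := by
  obtain ⟨w, hw, hreg⟩ := exists_single_pole hK v
  refine ⟨w, hw, fun u => ⟨fun hu => ?_, ?_⟩⟩
  · by_contra hne
    exact hu (hreg u hne)
  · rintro rfl hu
    obtain ⟨a, ha⟩ := const_of_regular hK (f := w) fun v' => by
      by_cases h : v' = u
      · rw [h]
        exact hu
      · exact hreg v' h
    rw [ha] at hw
    exact hw (isAlgebraic_algebraMap a)

end Pool.Agent.GTC
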