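import Pool.Agent.TInc.Riem

/-!
# Finite coverings of curves: the degree
-/

set_option autoImplicit false

noncomputable section

namespace Pool.Agent.GTC

open Pool.Agent.ZCyc Pool.Agent.Dess Pool.Agent.TInc Module
open scoped Classical

variable {k : Type} [Field k] [IsAlgClosed k] [CharZero k] {K K' : Type} [Field K] [Algebra k K]
  [Field K'] [Algebra k K']

/-- The degree of the covering: `N = finrank K K'` for the algebra structure given by `φ` (it is finite:
`K'` is finite over `k(φ t)`, `fin_adjoin`). `finrank k(φ f) K' = finrank k(f) K * N`: the field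
`φ(K)` is an intermediate field of `K' / k(φ f)` with `finrank k(φ f) φ(K) = finrank k(f) K`
(`φ` maps `k(f)` onto `k(φ f)`; compare `IntermediateField.adjoin_map`), `Module.finrank_mul_finrank`. -/
theorem cvr_deg (hK : IsCurve k K) (hK' : IsCurve k K') (φ : K →ₐ[k] K') :
    ∃ N : ℕ, 0 < N ∧ ∀ f : K, Transcendental k f →
      finrank (IntermediateField.adjoin k {φ f}) K' =
        finrank (IntermediateField.adjoin k {f}) K * N := by
  let alg : Algebra K K' := φ.toRingHom.toAlgebra
  have key : ∀ f : K, finrank (IntermediateField.adjoin k {φ f}) K' =
        finrank (IntermediateField.adjoin k {f}) K * finrank K K' := by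
    intro f
    have he : IntermediateField.adjoin k {φ f} = (IntermediateField.adjoin k {f}).map φ := by
      rw [IntermediateField.adjoin_map, Set.image_singleton]
    rw [he]
    have hst : IsScalarTower (IntermediateField.adjoin k {f}) K K' := inferInstance
    rw [Module.finrank_mul_finrank (IntermediateField.adjoin k {f}) K K']
    symm
    refine Algebra.finrank_eq_of_equiv_equiv
      (IntermediateField.equivMap (IntermediateField.adjoin k {f}) φ).toRingEquiv
      (RingEquiv.refl K') ?_
    ext x
    rfl
  obtain ⟨t, ht, -⟩ := hK
  have ht' : Transcendental k (φ t) := by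
    intro h
    exact ht (by
      rwa [isAlgebraic_algHom_iff φ φ.injective] at h)
  have hfin := fin_adjoin hK' ht'
  have hpos : 0 < finrank (IntermediateField.adjoin k {φ t}) K' := Module.finrank_pos
  rw [key t] at hpos
  exact ⟨finrank K K', Nat.pos_of_mul_pos_left hpos, fun f _ => key f⟩

end Pool.Agent.GTC
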