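import Pool.Agent.GTC.CvrA
import Pool.Agent.GTC.CvrB
import Pool.Agent.GTC.CvrC

/-!
# Finite coverings of curves: places and divisors
-/

set_option autoImplicit false

noncomputable section

namespace Pool.Agent.GTC

open Pool.Agent.ZCyc Pool.Agent.Dess Pool.Agent.GT Pool.Agent.TInc Module
open scoped Classical

variable {k : Type} [Field k] [IsAlgClosed k] [CharZero k] {K K' : Type} [Field K] [Algebra k K]
  [Field K'] [Algebra k K']

/-- The sum of the ramification indices over a place is the degree: for the function `f` with the only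
pole `v` (`cvr_pole`) the poles of `φ f` are the places above `v`, with the orders
`ord w (φ f) = e(w) * ord v f` (`cvr_ord`), so `deg_poles'` for `f` and `φ f` and `cvr_deg` give
`(∑ e(w)) * (- ord v f) = finrank k(f) K * N = (- ord v f) * N`. Here `e(w)` is described by
`ord w (φ π) = e(w)` for every `π` with `ord v π = 1`. -/
theorem cvr_sum (hK : IsCurve k K) (hK' : IsCurve k K') (φ : K →ₐ[k] K') :
    ∃ N : ℕ, 0 < N ∧ ∀ (v : Place k K) (S : Finset (Place k K')),
      (∀ w, w ∈ S ↔ w.ring.comap (φ : K →+* K') = v.ring) →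
        ∀ e : Place k K' → ℕ, (∀ w ∈ S, ∀ f : K, ord w (φ f) = e w * ord v f) →
          ∑ w ∈ S, e w = N := by
  obtain ⟨N, hN, hdeg⟩ := cvr_deg hK hK' φ
  refine ⟨N, hN, fun v S hS e he => ?_⟩
  obtain ⟨f, hft, hf⟩ := cvr_pole hK v
  have hφ : Function.Injective φ := (φ : K →+* K').injective
  have hft' : Transcendental k (φ f) := fun h => hft ((isAlgebraic_algHom_iff φ hφ).1 h)
  have hf0 : f ≠ 0 := by
    rintro rfl
    exact hft isAlgebraic_zero
  have h1 := deg_poles' hK hft {v} (fun u => by rw [Finset.mem_singleton, hf])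
  rw [Finset.sum_singleton] at h1
  have h2 := deg_poles' hK' hft' S (fun w => by
    obtain ⟨u, hu⟩ := cvr_below hK hK' φ w
    have h3 : φ f ∈ w.ring ↔ f ∈ u.ring := by
      rw [← hu]
      exact ValuationSubring.mem_comap.symm
    rw [hS, h3, hf, hu]
    exact ⟨fun h => Place.ext h, fun h => by rw [h]⟩)
  have h3 : ∑ w ∈ S, -ord w (φ f) = ((∑ w ∈ S, e w : ℕ) : ℤ) * (-ord v f) := by
    rw [Nat.cast_sum, Finset.sum_mul]
    refine Finset.sum_congr rfl fun w hw => ?_
    rw [he w hw f]
    ring
  have hpos : 0 < -ord v f := by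
    have h4 : f ∉ v.ring := (hf v).2 rfl
    rw [mem_iff_ord hK hf0] at h4
    omega
  rw [h3, hdeg f hft, Nat.cast_mul, ← h1, mul_comm] at h2
  have h5 := mul_left_cancel₀ (ne_of_gt hpos) h2
  exact_mod_cast h5

/-- **Pull back of divisors.** For a function `F` on the places of `K` and the function `G(w) = F(v)`
(`v` below `w`) on the places of `K'` we have
`∑ w, ord w (φ f) • G w = N • ∑ v, ord v f • F v`. Proof: group the sum over `w` in the support of
`dv hK' (φ f)` by the place `v` below `w` (`cvr_below`), `cvr_finite`, `cvr_ord`, `cvr_sum`. -/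
theorem cvr_div (hK : IsCurve k K) (hK' : IsCurve k K') (φ : K →ₐ[k] K') :
    ∃ N : ℕ, 0 < N ∧ ∀ (f : K), f ≠ 0 → ∀ {W : Type} [AddCommGroup W] [Module ℚ W]
      (F : Place k K → W) (G : Place k K' → W),
      (∀ (w : Place k K') (v : Place k K), w.ring.comap (φ : K →+* K') = v.ring → G w = F v) →
      ((dv hK' (φ f)).sum fun w a => (a : ℚ) • G w) =
        (N : ℚ) • (dv hK f).sum fun v a => (a : ℚ) • F v := by
  obtain ⟨N, hN, hsum⟩ := cvr_sum hK hK' φ
  refine ⟨N, hN, fun f hf0 W _ _ F G hG => ?_⟩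
  choose b hb using cvr_below hK hK' φ
  choose S hS using cvr_finite hK hK' φ
  choose e he hef using fun w => cvr_ord hK hK' φ (hb w)
  have hSb : ∀ w v, w ∈ S v ↔ b w = v := by
    intro w v
    rw [hS, hb w]
    exact ⟨fun h => Place.ext h, fun h => by rw [h]⟩
  have hmaps : ∀ w ∈ (dv hK' (φ f)).support, b w ∈ (dv hK f).support := by
    intro w hw
    rw [Finsupp.mem_support_iff, dv_apply] at hw ⊢
    intro h
    apply hw
    rw [hef w f, h, mul_zero]
  unfold Finsupp.sum
  rw [← Finset.sum_fiberwise_of_maps_to hmaps, Finset.smul_sum]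
  refine Finset.sum_congr rfl fun v hv => ?_
  rw [Finsupp.mem_support_iff, dv_apply] at hv
  have hfil : ((dv hK' (φ f)).support.filter fun w => b w = v) = S v := by
    ext w
    rw [Finset.mem_filter, hSb, Finsupp.mem_support_iff, dv_apply]
    constructor
    · exact fun h => h.2
    · intro h
      refine ⟨?_, h⟩
      rw [hef w f, h]
      have h1 : (e w : ℤ) ≠ 0 := by
        have := he w
        omega
      exact mul_ne_zero h1 hv
  rw [hfil]
  have hs := hsum v (S v) (fun w => hS v w) e (fun w hw g => by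
    rw [hef w g, (hSb w v).1 hw])
  have h2 : ∀ w ∈ S v, ((dv hK' (φ f) w : ℤ) : ℚ) • G w =
      (e w : ℚ) • ((dv hK f v : ℤ) : ℚ) • F v := by
    intro w hw
    have h3 : b w = v := (hSb w v).1 hw
    rw [dv_apply, dv_apply, hef w f, h3, hG w v (by rw [hb w, h3]), smul_smul]
    congr 1
    push_cast
    ring
  rw [Finset.sum_congr rfl h2, ← Finset.sum_smul, ← hs, Nat.cast_sum]

end Pool.Agent.GTC
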