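import Pool.Agent.GTC.ElD
import Pool.Agent.GT.Cov

/-!
# Points of the symmetric power over function fields of curves
-/

set_option autoImplicit false

noncomputable section

namespace Pool.Agent.GTC

open Pool.Agent.ZCyc Pool.Agent.Dess Pool.Agent.GT Pool.Agent.TInc
open Pool.Agent.VFP (Om tt)
open scoped Classical LinearAlgebra.Projectivization

variable {k : Type} [Field k] [IsAlgClosed k] [CharZero k] {n : ℕ}
  {X : Set (MvPolynomial (Fin (n + 1)) k)} {e : ℕ}

omit [IsAlgClosed k] [CharZero k] in
/-- `Pt.map` is injective -/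
private theorem TrS_map_inj {m : ℕ} {Y : Set (MvPolynomial (Fin (m + 1)) k)} (hY : Hom Y)
    {K K' : Type} [Field K] [Algebra k K] [Field K'] [Algebra k K'] (φ : K →ₐ[k] K')
    {x y : Pt Y K} (h : x.map φ hY = y.map φ hY) : x = y := by
  apply Subtype.ext
  have h1 := congrArg Subtype.val h
  unfold Pt.map mkPt at h1
  dsimp only at h1
  rw [Projectivization.mk_eq_mk_iff'] at h1
  obtain ⟨c, hc⟩ := h1
  rw [← Projectivization.mk_rep x.1, ← Projectivization.mk_rep y.1,
    Projectivization.mk_eq_mk_iff']
  obtain ⟨i, hi⟩ := Function.ne_iff.1 y.1.rep_nonzero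
  have hi' : y.1.rep i ≠ 0 := hi
  have hi2 : φ (y.1.rep i) ≠ 0 := (map_ne_zero φ).2 hi'
  have hc1 : c = φ (x.1.rep i / y.1.rep i) := by
    have h2 : c * φ (y.1.rep i) = φ (x.1.rep i) := congrFun hc i
    rw [map_div₀, ← h2, mul_div_cancel_right₀ _ hi2]
  refine ⟨x.1.rep i / y.1.rep i, ?_⟩
  funext j
  apply (φ : K →+* K').injective
  have h3 : c * φ (y.1.rep j) = φ (x.1.rep j) := congrFun hc j
  change φ (x.1.rep i / y.1.rep i * y.1.rep j) = φ (x.1.rep j)
  rw [map_mul, ← hc1, h3]

omit [IsAlgClosed k] [CharZero k] in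
/-- `Pt.map` of a composition -/
private theorem TrS_map_comp {m : ℕ} {Y : Set (MvPolynomial (Fin (m + 1)) k)} (hY : Hom Y)
    {K K' K'' : Type} [Field K] [Algebra k K] [Field K'] [Algebra k K'] [Field K'']
    [Algebra k K''] (φ : K →ₐ[k] K') (ψ : K' →ₐ[k] K'') (x : Pt Y K) :
    (x.map φ hY).map ψ hY = x.map (ψ.comp φ) hY := by
  apply Subtype.ext
  have hne : (fun i => φ (x.1.rep i)) ≠ 0 := by
    intro h
    apply x.1.rep_nonzero
    funext i
    exact (map_eq_zero φ).1 (congrFun h i)
  obtain ⟨c, hc⟩ := Projectivization.exists_smul_eq_mk_rep K' (fun i => φ (x.1.rep i)) hne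
  unfold Pt.map mkPt
  dsimp only
  rw [Projectivization.mk_eq_mk_iff']
  refine ⟨ψ (c : K'), ?_⟩
  funext i
  have h1 := congrFun hc i
  rw [← h1]
  change ψ (c : K') * ψ (φ (x.1.rep i)) = ψ ((c : K') * φ (x.1.rep i))
  rw [map_mul]

omit [IsAlgClosed k] [CharZero k] in
/-- a function field of a curve is generated over `k` by finitely many elements -/
theorem trb_gen {K : Type} [Field K] [Algebra k K] (hK : IsCurve k K) :
    ∃ S : Finset K, IntermediateField.adjoin k (S : Set K) = ⊤ := by
  obtain ⟨t, ht, hfin⟩ := hK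
  have h1 : Algebra.EssFiniteType k (IntermediateField.adjoin k {t}) := by
    rw [IntermediateField.essFiniteType_iff]
    exact IntermediateField.fg_adjoin_of_finite (Set.finite_singleton t)
  have h2 : Algebra.EssFiniteType k K :=
    Algebra.EssFiniteType.comp k (IntermediateField.adjoin k {t}) K
  exact IntermediateField.fg_top k K

/-- Finitely many points of the symmetric power over the function field `K` of a curve become Chow
forms over a finite extension. Proof: embed `K` into `Om k` (`exists_embed` for any place, or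
`TInc.card_emb`), let `ι` be the embedding. By `exists_chp` the points `(Q j).map ι` are the Chow
forms of points `P j a` over `Om k`. By `GT.exists_field` there is a function field `K'` of a curve in
`Om k` over which all `P j a` are defined and which contains `ι s` for the generators `s` of `K`
(`trb_gen`), hence `ι(K)`; this gives `φ : K → K'`. The equality of the points over `K'` follows from the
equality over `Om k` (`chp_map`; `Pt.map` is injective, `Pt.map` of a composition). -/
theorem trb_split (hX : Hom X) (he : 0 < e) {K : Type} [Field K] [Algebra k K]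
    (hK : IsCurve k K) {J : Type} [Finite J] (Q : J → Pt (Sy X e) K) :
    ∃ (K' : Type) (_ : Field K') (_ : Algebra k K') (_ : IsCurve k K') (φ : K →ₐ[k] K')
      (P : J → Fin e → Pt X K'), ∀ j, chp (P j) = (Q j).map φ (hom_Sy X e) := by
  obtain ⟨t, ht, hfin⟩ := id hK
  have h1 := Pool.Agent.TInc.card_emb hK ht (ψ := tt k) Pool.Agent.VFP.tt_transc
  have h2 : 0 < {σ : K →ₐ[k] Om k | σ t = tt k}.ncard := by
    rw [h1.2]
    exact Module.finrank_pos
  obtain ⟨ι, -⟩ := Set.nonempty_of_ncard_ne_zero h2.ne'
  have hP : ∀ j, ∃ P : Fin e → Pt X (Om k), chp P = (Q j).map ι (hom_Sy X e) :=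
    fun j => exists_chp hX he _
  choose P hP using hP
  obtain ⟨S, hS⟩ := trb_gen hK
  obtain ⟨K', y, hK', hΓ, -, hy⟩ := exists_field hX (S.image ι) (fun p : J × Fin e => P p.1 p.2)
  have hle : ∀ z : K, ι z ∈ K' := by
    have h3 : (⊤ : IntermediateField k K).map ι ≤ K' := by
      rw [← hS, IntermediateField.adjoin_map]
      refine IntermediateField.adjoin_le_iff.2 ?_
      rintro _ ⟨s, hs, rfl⟩
      apply hΓ
      rw [Finset.coe_image]
      exact ⟨s, hs, rfl⟩
    intro z
    exact h3 ⟨z, trivial, rfl⟩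
  let φ : K →ₐ[k] K' := ι.codRestrict K'.toSubalgebra hle
  have hφ : K'.val.comp φ = ι := by
    ext z
    rfl
  refine ⟨K', inferInstance, inferInstance, hK', φ, fun j a => y (j, a), fun j => ?_⟩
  apply TrS_map_inj (hom_Sy X e) K'.val
  rw [chp_map K'.val hX, TrS_map_comp, hφ, ← hP j]
  congr 1
  funext a
  exact hy (j, a)

end Pool.Agent.GTC
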