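import Pool.Agent.GTC.TrA
import Pool.Agent.GTC.TrS
import Pool.Agent.GTC.Cvr

/-!
# The transfer preserves rational equivalence
-/

set_option autoImplicit false

noncomputable section

namespace Pool.Agent.GTC

open Pool.Agent.ZCyc Pool.Agent.Dess Pool.Agent.GT Pool.Agent.GTM Pool.Agent.TInc
open Pool.Agent.VFP (Om tt)
open scoped Classical LinearAlgebra.Projectivization

variable {k : Type} [Field k] [IsAlgClosed k] [CharZero k] {n : ℕ}
  {X : Set (MvPolynomial (Fin (n + 1)) k)} {e : ℕ}

/-- **The transfer preserves rational equivalence.** For a generator of `Rat (Sy X e) ι` given by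
`(K, x, y, f, D)` take the extension `K'` and the points `P j` over `K'` of `trb_split`, and the values
`Y w j a` of `P j a` at the places `w` of `K'` (`exists_isVal`, `hasRes_of_isCurve`). For `w` above `v`
the Chow form of `Y w j` is the value of `x j` at `v`, i.e. `y v j` (`chp_val`, `isVal_map`,
`isVal_unique`), so that `trI ℚ (single (y v) 1) = ∑ s, single (fun j => Y w j (s j)) 1` (`trI_chp`).
For every `s : ι → Fin e` the cycle `∑ w, ord w (φ f) • single (fun j => Y w j (s j)) 1` is in
`Rat X ι` (definition, with `dv` and `ord_hasOrd`). The sum over all `s` is, by `cvr_div` with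
`F v = trI ℚ (single (y v) 1)`, the multiple `N` of the transfer of the generator (`D = dv hK f`, by
`ord_eq`). -/
theorem trI_rat (hX : Hom X) (he : 0 < e) {ι : Type} [Fintype ι] :
    Rat (Sy X e) ι ≤ (Rat X ι).comap (trI ℚ hX he ι) := by
  unfold GT.Rat
  rw [Submodule.span_le]
  rintro z ⟨K, iK, iA, hK, x, y, f, D, hf, hD, hy, rfl⟩
  obtain ⟨K', iK', iA', hK', φ, P, hP⟩ := trb_split hX he hK x
  have hres : HasRes k K' := hasRes_of_isCurve hK'
  choose Y hY using fun (w : Place k K') (j : ι) (a : Fin e) => exists_isVal hX w (P j a)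
  have hval : ∀ (w : Place k K') (v : Place k K), w.ring.comap (φ : K →+* K') = v.ring →
      (fun j => chp (Y w j)) = y v := by
    intro w v hwv
    funext j
    have h1 : IsVal w (chp (P j)) (chp (Y w j)) := chp_val fun a => hY w j a
    have h2 : IsVal w (chp (P j)) (y v j) := by
      rw [hP j]
      exact (isVal_map hwv).2 (hy v j)
    exact isVal_unique h1 h2
  obtain ⟨N, hN, hdiv⟩ := cvr_div hK hK' φ
  have hDf : D = dv hK f := by
    refine Finsupp.ext fun v => ?_
    rw [dv_apply]
    exact (ord_eq hK hf (hD v)).symm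
  have hf' : φ f ≠ 0 := (map_ne_zero φ).2 hf
  have key := hdiv f hf (fun v => trI ℚ hX he ι (Finsupp.single (y v) 1))
    (fun w => ∑ s : ι → Fin e, Finsupp.single (fun j => Y w j (s j)) (1 : ℚ)) (by
      intro w v hwv
      rw [← hval w v hwv, trI_chp])
  have hz : trI ℚ hX he ι (D.sum fun v a => Finsupp.single (y v) (a : ℚ)) =
      (dv hK f).sum fun v a => (a : ℚ) • trI ℚ hX he ι (Finsupp.single (y v) 1) := by
    rw [hDf, map_finsuppSum]
    refine Finsupp.sum_congr fun v _ => ?_
    rw [← map_smul, Finsupp.smul_single, smul_eq_mul, mul_one]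
  have hleft : ((dv hK' (φ f)).sum fun w a => (a : ℚ) •
      ∑ s : ι → Fin e, Finsupp.single (fun j => Y w j (s j)) (1 : ℚ)) ∈ Rat X ι := by
    have h1 : ((dv hK' (φ f)).sum fun w a => (a : ℚ) •
        ∑ s : ι → Fin e, Finsupp.single (fun j => Y w j (s j)) (1 : ℚ)) =
        ∑ s : ι → Fin e, (dv hK' (φ f)).sum fun w a =>
          Finsupp.single (fun j => Y w j (s j)) (a : ℚ) := by
      unfold Finsupp.sum
      rw [Finset.sum_comm]
      refine Finset.sum_congr rfl fun w _ => ?_
      beta_reduce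
      rw [Finset.smul_sum]
      refine Finset.sum_congr rfl fun s _ => ?_
      rw [Finsupp.smul_single, smul_eq_mul, mul_one]
    rw [h1]
    refine Submodule.sum_mem _ fun s _ => Submodule.subset_span ?_
    exact ⟨K', iK', iA', hK', fun j => P j (s j), fun w j => Y w j (s j), φ f, dv hK' (φ f), hf',
      fun w => by rw [dv_apply]; exact ord_hasOrd hK' w hf', fun w j => hY w j (s j), rfl⟩
  rw [key, ← hz] at hleft
  have hN' : (N : ℚ) ≠ 0 := by exact_mod_cast hN.ne'
  have hfin := (Submodule.smul_mem_iff _ hN').1 hleft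
  exact hfin

/-- `trI_rat` and `trI_toR` -/
theorem trI_ratR (R : Type) [Field R] [CharZero R] (hX : Hom X) (he : 0 < e) {ι : Type}
    [Fintype ι] : RatR R (Sy X e) ι ≤ (RatR R X ι).comap (trI R hX he ι) := by
  unfold RatR
  rw [Submodule.span_le]
  rintro _ ⟨w, hw, rfl⟩
  change trI R hX he ι (toR R w) ∈ Submodule.span R (toR R '' (Rat X ι : Set _))
  rw [trI_toR]
  exact Submodule.subset_span ⟨_, trI_rat hX he hw, rfl⟩

/-- `trI_rat` for `Unit` and `trI_unit` -/
theorem tr1_rat (hX : Hom X) (he : 0 < e) : Rat1 (Sy X e) ≤ (Rat1 X).comap (tr1 ℚ hX he) := by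
  intro z hz
  have h1 : Finsupp.lmapDomain ℚ ℚ (fun x _ => x) z ∈ Rat (Sy X e) Unit := hz
  have h2 := trI_rat hX he h1
  change trI ℚ hX he Unit (Finsupp.lmapDomain ℚ ℚ (fun x _ => x) z) ∈ Rat X Unit at h2
  rw [trI_unit] at h2
  exact h2

theorem tr1_ratR (R : Type) [Field R] [CharZero R] (hX : Hom X) (he : 0 < e) :
    RatR1 R (Sy X e) ≤ (RatR1 R X).comap (tr1 R hX he) := by
  unfold RatR1
  rw [Submodule.span_le]
  rintro _ ⟨w, hw, rfl⟩
  change tr1 R hX he (toR R w) ∈ Submodule.span R (toR R '' (Rat1 X : Set _))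
  rw [tr1_toR]
  exact Submodule.subset_span ⟨_, tr1_rat hX he hw, rfl⟩

end Pool.Agent.GTC
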