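import Pool.Agent.GTC.KlA
import Pool.Agent.GTC.TrB

/-!
# The transfer and alternating products
-/

set_option autoImplicit false

noncomputable section

namespace Pool.Agent.GTC

open Pool.Agent.ZCyc Pool.Agent.Dess Pool.Agent.GT Pool.Agent.GTM Pool.Agent.ZIso
open scoped Classical LinearAlgebra.Projectivization

variable {R : Type} [Field R] [CharZero R] {k : Type} [Field k] [IsAlgClosed k] [CharZero k]
  {n : ℕ} {X : Set (MvPolynomial (Fin (n + 1)) k)} {e : ℕ}

/-- The transfer of a space of cycles with vanishing alternating products has this property: a tuple in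
the image is the transfer of a tuple `w`, and `altR (tr1 ∘ w) = trI (altR w)` (`trI_ext`), `trI_ratR`. -/
theorem AltP.tr (hX : Hom X) (he : 0 < e) {M : ℕ} {W : Submodule R (Pt (Sy X e) k →₀ R)}
    (h : AltP M W) : AltP M (W.map (tr1 R hX he)) := by
  intro w hw
  choose u hu hu' using fun j => Submodule.mem_map.1 (hw j)
  have e1 : w = fun j => tr1 R hX he (u j) := funext fun j => (hu' j).symm
  have e2 : trI R hX he (Fin (M + 1)) (altR u) = altR w := by
    rw [e1]
    unfold altR
    rw [map_sum]
    refine Finset.sum_congr rfl fun π _ => ?_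
    rw [map_zsmul, trI_ext]
  rw [← e2]
  exact trI_ratR R hX he (h u hu)

end Pool.Agent.GTC
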