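import Pool.Agent.GTC.CorB
import Pool.Agent.GTC.KlB
import Pool.Agent.GTC.AltA

/-!
# The alternating products for correspondences
-/

set_option autoImplicit false

noncomputable section

namespace Pool.Agent.GTC

open Pool.Agent.ZCyc Pool.Agent.Dess Pool.Agent.GT Pool.Agent.GTM Pool.Agent.TInc
open scoped Classical LinearAlgebra.Projectivization

namespace Cor

variable {k L : Type} [Field k] [IsAlgClosed k] [CharZero k] [Field L] [Algebra k L] {n : ℕ}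
  {X : Set (MvPolynomial (Fin (n + 1)) k)} {R : Type} [Field R] [CharZero R] {Φ : Cor L n}

omit [CharZero k] in
/-- a point of the symmetric power as a cycle, its transfer -/
private theorem tr_toR_chp (hX : Hom X) {e : ℕ} (he : 0 < e) (P : Fin e → Pt X k) :
    tr1 R hX he (toR R (Finsupp.single (chp P) 1)) = ∑ a, Finsupp.single (P a) (1 : R) := by
  rw [toR_single, map_one, tr1_chp]

/-- The differences are transfers of differences of values of the map to the symmetric power: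
`Val.isValsD` for both values (`e = e' = 1`, `θ = 0`), `toR_single`, `tr1_chp`. -/
theorem dif_sub (hX : Hom X) (hΦ : Φ.Ok X) : Φ.Dif R X ⊆
    ((Submodule.span R (toR R '' DiffCycD Φ.m Φ.gd (Sy X Φ.e))).map (tr1 R hX hΦ.pos) :
      Set (Pt X k →₀ R)) := by
  rintro z ⟨K, i1, i2, hK, σ, v, x, y, x', y', P, P', h, h', rfl⟩
  rw [SetLike.mem_coe, Submodule.mem_map]
  refine ⟨toR R (Finsupp.single (chp P) 1 - Finsupp.single (chp P') 1),
    Submodule.subset_span ⟨_, ⟨K, i1, i2, hK, σ, v, 1, 1, fun _ => 0, fun _ => 0, x, y, x', y',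
      fun _ => chp P, fun _ => chp P', h.isValsD, h'.isValsD, ?_⟩, rfl⟩, ?_⟩
  · rw [Fin.sum_univ_one, Fin.sum_univ_one]
  · rw [map_sub (toR R), map_sub, tr_toR_chp, tr_toR_chp]

/-- the same for `m = 3` and the definition of `GT` (`Val.isVals`) -/
theorem dif_sub3 (hX : Hom X) (hΦ : Φ.Ok X) (hm : Φ.m = 3) : Φ.Dif R X ⊆
    ((Submodule.span R (toR R '' DiffCyc Φ.gd (Sy X Φ.e))).map (tr1 R hX hΦ.pos) :
      Set (Pt X k →₀ R)) := by
  rintro z ⟨K, i1, i2, hK, σ, v, x, y, x', y', P, P', h, h', rfl⟩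
  rw [SetLike.mem_coe, Submodule.mem_map]
  refine ⟨toR R (Finsupp.single (chp P) 1 - Finsupp.single (chp P') 1),
    Submodule.subset_span ⟨_, ⟨K, i1, i2, hK, σ, v, 1, 1, fun _ => 0, fun _ => 0, x, y, x', y',
      fun _ => chp P, fun _ => chp P', h.isVals hm, h'.isVals hm, ?_⟩, rfl⟩, ?_⟩
  · rw [Fin.sum_univ_one, Fin.sum_univ_one]
  · rw [map_sub (toR R), map_sub, tr_toR_chp, tr_toR_chp]

omit [CharZero k] [CharZero R] in
/-- the same for the eigen-cycles (`EigCycD` with `e = 1`, `θ = 0`) -/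
theorem eig_sub (hX : Hom X) (hΦ : Φ.Ok X) (ξ : k) (ω : R) : Φ.Eig R X ξ ω ⊆
    ((Submodule.span R (EigCycD R Φ.m Φ.gd (Sy X Φ.e) ξ ω)).map (tr1 R hX hΦ.pos) :
      Set (Pt X k →₀ R)) := by
  rintro z ⟨K, i1, i2, hK, σ, v, W, y, P, hW, h, rfl⟩
  rw [SetLike.mem_coe, Submodule.mem_map]
  refine ⟨∑ b : Fin Φ.m, ∑ _a : Fin 1, Finsupp.single (chp (P b)) (ω ^ b.val)⁻¹,
    Submodule.subset_span ⟨K, i1, i2, hK, σ, v, 1, fun _ => 0, W, y, fun b _ => chp (P b), hW,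
      fun b => (h b).isValsD, rfl⟩, ?_⟩
  rw [map_sum]
  refine Finset.sum_congr rfl fun b _ => ?_
  rw [Fin.sum_univ_one, tr1_chp]

/-- Differences: if `B ² / f ^ m` is not constant then `alt_diff` for `Φ.gd` and the symmetric power
(`Ok.okD`; `B ≠ 0` because `B ² ≠ 0 * f ^ m`), `AltP.tr`, `AltP.mono` with `dif_sub`, and `AltP.sup`.
Otherwise `m = 3` (`(3 - 1) / 2 = 1`), `Ok.ok`, `alt_cov` (`n₀ = a`, `D = A`), `dif_sub3`. -/
theorem Ok.alt_dif (hX : Hom X) (hL : IsCurve k L) (hΦ : Φ.Ok X) (hg : Φ.Good k) {N : ℕ}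
    (hN : Φ.Bound hL N) :
    AltP ((Φ.m - 1) / 2 * N) (Submodule.span R (Φ.Dif R X) ⊔ RatR1 R X) := by
  obtain ⟨A, a, g, hA, ha, hf, hB, hg', hN'⟩ := hN
  rcases hg with hc | ⟨hm, δ, hδ⟩
  · have hB0 : Φ.B ≠ 0 := by
      intro hB0
      refine hc.2 0 ?_
      rw [hB0, map_zero, zero_mul]
      exact zero_pow two_ne_zero
    have h1 := alt_diff (R := R) (hom_Sy X Φ.e) hL (hΦ.okD hc.1) hΦ.three hA ha (hf hc.1)
      (hB hB0) hc.2 hg' hN'
    have h2 := AltP.tr hX hΦ.pos (h1.mono le_sup_left)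
    exact (h2.mono (Submodule.span_le.2 (dif_sub hX hΦ))).sup hX
  · have h1 := alt_cov (R := R) (hom_Sy X Φ.e) hL (hΦ.ok hm) hA ha hf
      (fun h v => by
        have h3 := hB h v
        rw [hm] at h3
        norm_num at h3
        exact h3) hg' (N := N) (by rw [hN', hm, show 3 - 2 = 1 from rfl, one_mul]) hδ
    have h2 := AltP.tr hX hΦ.pos (h1.mono le_sup_left)
    have h3 := (h2.mono (Submodule.span_le.2 (dif_sub3 hX hΦ hm))).sup hX
    rw [hm, show (3 - 1) / 2 = 1 from rfl, one_mul]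
    exact h3

/-- Eigen-cycles: `alt_eig` (`GTC/AltA.lean`), `AltP.tr`, `eig_sub`, `AltP.sup`. -/
theorem Ok.alt_eig (hX : Hom X) (hL : IsCurve k L) (hΦ : Φ.Ok X) (hg : Φ.NonConst k) {N : ℕ}
    (hN : Φ.Bound hL N) {ξ : k} (hξ : IsPrimitiveRoot ξ Φ.m) {ω : R} (h1 : ω ^ Φ.m = 1)
    (h2 : ω ^ 2 ≠ 1) : AltP N (Submodule.span R (Φ.Eig R X ξ ω) ⊔ RatR1 R X) := by
  obtain ⟨A, a, g, hA, ha, hf, hB, hg', hN'⟩ := hN
  have hB0 : Φ.B ≠ 0 := by
    intro hB0
    refine hg.2 0 ?_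
    rw [hB0, map_zero, zero_mul]
    exact zero_pow two_ne_zero
  have h3 := Pool.Agent.GTC.alt_eig (hom_Sy X Φ.e) hL (hΦ.okD hg.1) hΦ.three hA ha (hf hg.1)
    (hB hB0) hg.2 hg' hN' hξ h1 h2
  have h4 := AltP.tr hX hΦ.pos (h3.mono le_sup_left)
  exact (h4.mono (Submodule.span_le.2 (eig_sub hX hΦ ξ ω))).sup hX

end Cor

end Pool.Agent.GTC
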