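import Mathlib

/-!
# The polynomial `D_m(x, f) + B` is not a square
-/

set_option autoImplicit false

noncomputable section

namespace Pool.Agent.GTC

open Polynomial

private theorem nsq_deg {F : Type} [Field F] (f : F) (n : ℕ) :
    (dickson 1 f (n + 1)).Monic ∧ (dickson 1 f (n + 1)).natDegree = n + 1 ∧
      (dickson 1 f n).natDegree ≤ n := by
  induction n with
  | zero =>
    refine ⟨?_, ?_, ?_⟩
    · rw [zero_add, dickson_one]
      exact monic_X
    · rw [zero_add, dickson_one]
      exact natDegree_X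
    · rw [dickson_zero]
      have : (3 - ((1 : ℕ) : F[X])) = C (2 : F) := by
        rw [map_ofNat]
        push_cast
        norm_num
      rw [this]
      exact (natDegree_C _).le
  | succ n ih =>
    obtain ⟨h1, h2, h3⟩ := ih
    have h4 : (X * dickson 1 f (n + 1)).natDegree = n + 2 := by
      rw [monic_X.natDegree_mul h1, natDegree_X, h2]
      omega
    have h5 : (C f * dickson 1 f n).natDegree < (X * dickson 1 f (n + 1)).natDegree := by
      rw [h4]
      exact (natDegree_C_mul_le _ _).trans_lt (by omega)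
    rw [show n + 1 + 1 = n + 2 from rfl, dickson_add_two]
    refine ⟨?_, ?_, h2.le⟩
    · exact (monic_X.mul h1).sub_of_left (degree_lt_degree h5)
    · rw [natDegree_sub_eq_left_of_natDegree_lt h5, h4]

private theorem nsq_mul {F : Type} [Field F] (f : F) (i d : ℕ) :
    dickson 1 f i * dickson 1 f (i + d) = dickson 1 f (2 * i + d) + C f ^ i * dickson 1 f d := by
  induction i using Nat.strong_induction_on generalizing d with
  | _ i ih =>
    match i, ih with
    | 0, _ =>
      rw [dickson_zero, mul_zero, zero_add, pow_zero, one_mul]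
      push_cast
      ring
    | 1, _ =>
      rw [dickson_one, show 2 * 1 + d = d + 2 by omega, dickson_add_two, show 1 + d = d + 1 by omega,
        pow_one]
      ring
    | i + 2, ih =>
      have e1 := ih (i + 1) (by omega) (d + 1)
      have e2 := ih i (by omega) (d + 2)
      rw [show i + 1 + (d + 1) = i + 2 + d by omega,
        show 2 * (i + 1) + (d + 1) = 2 * i + d + 2 + 1 by omega] at e1
      rw [show i + (d + 2) = i + 2 + d by omega,
        show 2 * i + (d + 2) = 2 * i + d + 2 by omega, dickson_add_two] at e2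
      rw [dickson_add_two 1 f i, show 2 * (i + 2) + d = 2 * i + d + 2 + 2 by omega,
        dickson_add_two 1 f (2 * i + d + 2), dickson_add_two 1 f (2 * i + d)]
      linear_combination X * e1 - C f * e2 - C f * C f ^ i * dickson_add_two 1 f d

/-- If `B ² ≠ 4 f ^ m` then `a ² = (D_m(x, f) + B) b ²` only for `a = b = 0`. Proof: the degree of
`P = D_m(x, f) + B` is `m` (monic: prove `(dickson 1 f m).natDegree = m` and monic by induction from
`dickson_add_two`, or use existing lemmas). If `m` is odd compare the degrees of both sides. If `m = 2 j`,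
`j ≥ 1`, then `D_{2 j}(x, f) = D_j(x, f) ² - 2 f ^ j` (`dickson_one_one_mul`-type identity; it follows from
`D_j(w + f / w, f) = w ^ j + (f / w) ^ j` in the field of rational functions, or by induction using
`D_i D_j = D_{i + j} + f ^ i D_{j - i}` for `i ≤ j`, with `D_0 = 2`). If `b ≠ 0` then `b ² ∣ a ²`, so
`a = b Q` (`pow_dvd_pow_iff`) and `P = Q ²`, so `(Q - D_j)(Q + D_j) = B - 2 f ^ j` is a nonzero constant
(`B ² ≠ 4 f ^ m`), so both factors are constants (units), and their difference `2 D_j` is constant, a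
contradiction to the degree `j ≥ 1`. If `b = 0` then `a = 0`. -/
theorem not_sq {F : Type} [Field F] [CharZero F] {m : ℕ} (hm : 0 < m) {f B : F}
    (h : B ^ 2 ≠ 4 * f ^ m) {a b : F[X]} (hab : a ^ 2 = (dickson 1 f m + C B) * b ^ 2) :
    a = 0 ∧ b = 0 := by
  by_cases hb : b = 0
  · subst hb
    rw [zero_pow two_ne_zero, mul_zero] at hab
    exact ⟨pow_eq_zero_iff two_ne_zero |>.1 hab, rfl⟩
  exfalso
  obtain ⟨m, rfl⟩ : ∃ m', m = m' + 1 := ⟨m - 1, by omega⟩
  obtain ⟨h1, h2, -⟩ := nsq_deg f m
  have h3 : (C B : F[X]).degree < (dickson 1 f (m + 1)).degree := by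
    rw [degree_eq_natDegree h1.ne_zero, h2]
    exact degree_C_le.trans_lt (by exact_mod_cast hm)
  have h4 : (dickson 1 f (m + 1) + C B).Monic := h1.add_of_left h3
  have h5 : (dickson 1 f (m + 1) + C B).natDegree = m + 1 := by
    rw [natDegree_add_eq_left_of_degree_lt h3, h2]
  obtain ⟨Q, rfl⟩ : b ∣ a := (UniqueFactorizationMonoid.pow_dvd_pow_iff_dvd two_ne_zero).1 (hab ▸ Dvd.intro_left _ rfl)
  have h6 : Q ^ 2 = dickson 1 f (m + 1) + C B := by
    refine mul_right_cancel₀ (pow_ne_zero 2 hb) ?_
    rw [← hab]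
    ring
  have h7 : 2 * Q.natDegree = m + 1 := by
    rw [← natDegree_pow, h6, h5]
  set j := Q.natDegree with hj
  have h8 := nsq_mul f j 0
  rw [add_zero, add_zero, h7, dickson_zero] at h8
  have h9 : (Q - dickson 1 f j) * (Q + dickson 1 f j) = C (B - 2 * f ^ j) := by
    rw [C_sub, C_mul, C_pow, map_ofNat]
    push_cast at h8
    linear_combination h6 - h8
  have h10 : B - 2 * f ^ j ≠ 0 := by
    intro h0
    refine h ?_
    rw [sub_eq_zero.1 h0, ← h7]
    ring
  have h11 : IsUnit ((Q - dickson 1 f j) * (Q + dickson 1 f j)) := by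
    rw [h9]
    exact isUnit_C.2 (isUnit_iff_ne_zero.2 h10)
  have h12 := natDegree_eq_zero_of_isUnit (isUnit_of_mul_isUnit_left h11)
  have h13 := natDegree_eq_zero_of_isUnit (isUnit_of_mul_isUnit_right h11)
  obtain ⟨i, hi⟩ : ∃ i, j = i + 1 := ⟨j - 1, by omega⟩
  obtain ⟨h14, h15, -⟩ := nsq_deg f i
  rw [← hi] at h14 h15
  have h16 : (C (2 : F) * dickson 1 f j).natDegree = j := by
    rw [natDegree_C_mul two_ne_zero, h15, hi]
  have h17 : C (2 : F) * dickson 1 f j = (Q + dickson 1 f j) - (Q - dickson 1 f j) := by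
    rw [map_ofNat]
    ring
  rw [h17] at h16
  have h18 := natDegree_sub_le (Q + dickson 1 f j) (Q - dickson 1 f j)
  rw [h16, h12, h13] at h18
  omega

end Pool.Agent.GTC
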