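import Pool.Agent.GTC.CorB
import Pool.Agent.GTC.NotSq

/-!
# The multisection `x = t`
-/

set_option autoImplicit false

noncomputable section

namespace Pool.Agent.GTC

open Pool.Agent.ZCyc Pool.Agent.Dess Pool.Agent.GT Pool.Agent.GTM Pool.Agent.TInc
open Pool.Agent.VFP (Om tt)
open scoped Classical LinearAlgebra.Projectivization

namespace Cor

variable {k L : Type} [Field k] [IsAlgClosed k] [CharZero k] [Field L] [Algebra k L] {n : ℕ}
  {X : Set (MvPolynomial (Fin (n + 1)) k)} {R : Type} [Field R] {Φ : Cor L n}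

/-- values under an extension of fields -/
private theorem cd_at {k : Type} [Field k] {K K' : Type} [Field K] [Algebra k K] [Field K']
    [Algebra k K'] {φ : K →ₐ[k] K'} {V : Place k K'} {v : Place k K}
    (hV : V.ring.comap (φ : K →+* K') = v.ring) (f : K) (c : k) :
    V.At (φ f) c ↔ v.At f c := by
  have hmem : ∀ f : K, φ f ∈ V.ring ↔ f ∈ v.ring := by
    intro f
    rw [← hV, ValuationSubring.mem_comap]
    rfl
  unfold Place.At
  rw [Place.vanishes_iff_or, Place.vanishes_iff_or, ← φ.commutes c, ← map_sub, ← map_inv₀,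
    hmem, map_eq_zero]

/-- the forms under an extension of fields -/
private theorem cd_form {L : Type} [Field L] {n : ℕ} {K K' : Type} [Field K] [Field K']
    (Φ : Cor L n) (S : L →+* K) (ι : K →+* K') (x y : K) :
    (Φ.form S x y).map ι = Φ.form (ι.comp S) (ι x) (ι y) := by
  have h : Polynomial.eval₂RingHom (ι.comp S) (ι x) = ι.comp (Polynomial.eval₂RingHom S x) := by
    refine Polynomial.ringHom_ext (fun a => ?_) ?_
    · simp
    · simp
  unfold form
  rw [map_add, map_mul, MvPolynomial.map_C, MvPolynomial.map_map, MvPolynomial.map_map, h]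

/-- the equation of the curve under an extension of fields -/
private theorem cd_on {L : Type} [Field L] {n : ℕ} {K K' : Type} [Field K] [Field K']
    (Φ : Cor L n) (S : L →+* K) (ι : K →+* K') (x y : K) :
    Φ.On (ι.comp S) (ι x) (ι y) ↔ Φ.On S x y := by
  unfold On
  have h1 : (Polynomial.dickson 1 ((ι.comp S) Φ.f) Φ.m).eval (ι x) =
      ι ((Polynomial.dickson 1 (S Φ.f) Φ.m).eval x) := by
    rw [← Polynomial.eval_map_apply, Polynomial.map_dickson]
    rfl
  rw [h1, RingHom.comp_apply, ← map_add, ← map_pow]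
  exact ι.injective.eq_iff

/-- values over the smaller field -/
private theorem cd_val {k L : Type} [Field k] [Field L] [Algebra k L] {n : ℕ}
    {X : Set (MvPolynomial (Fin (n + 1)) k)} {Φ : Cor L n} {K K' : Type} [Field K] [Algebra k K]
    [Field K'] [Algebra k K'] {σ : L →ₐ[k] K} {v : Place k K} {P : Fin Φ.e → Pt X k}
    {φ : K →ₐ[k] K'} {V : Place k K'} (hV : V.ring.comap (φ : K →+* K') = v.ring) {σ' : L →ₐ[k] K'}
    (hσ : φ.comp σ = σ') {l x y : K} (hon : Φ.On (σ' : L →+* K') (φ x) (φ y))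
    (hl : ∀ s, V.At (φ l * (Φ.form (σ' : L →+* K') (φ x) (φ y)).coeff s)
      ((pro fun a => (P a).1.rep).coeff s)) : Φ.Val X σ v x y P := by
  subst hσ
  refine ⟨(cd_on Φ (σ : L →+* K) (φ : K →+* K') x y).1 hon, l, fun s => ?_⟩
  rw [← cd_at hV, map_mul]
  have h1 : (Φ.form ((φ.comp σ : L →ₐ[k] K') : L →+* K') (φ x) (φ y)).coeff s =
      φ ((Φ.form (σ : L →+* K) x y).coeff s) := by
    have h2 := congrArg (MvPolynomial.coeff s)
      (cd_form Φ (σ : L →+* K) (φ : K →+* K') x y)
    rw [MvPolynomial.coeff_map] at h2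
    exact h2.symm
  rw [← h1]
  exact hl s

/-- a function field of a curve is finitely generated -/
private theorem cd_gen {k L : Type} [Field k] [Field L] [Algebra k L] (hL : IsCurve k L) :
    ∃ G : Finset L, IntermediateField.adjoin k (G : Set L) = ⊤ := by
  obtain ⟨t, -, hfin⟩ := hL
  obtain ⟨S, hS⟩ := hfin.fg_top
  refine ⟨insert t S, ?_⟩
  rw [eq_top_iff]
  rintro x -
  have hx : x ∈ Submodule.span (IntermediateField.adjoin k {t}) (S : Set L) := by
    rw [hS]
    exact Submodule.mem_top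
  have hle : IntermediateField.adjoin k {t} ≤
      IntermediateField.adjoin k ((insert t S : Finset L) : Set L) := by
    refine IntermediateField.adjoin.mono k _ _ ?_
    rw [Finset.coe_insert]
    exact Set.singleton_subset_iff.2 (Set.mem_insert _ _)
  induction hx using Submodule.span_induction with
  | mem x hx =>
    refine IntermediateField.subset_adjoin k _ ?_
    rw [Finset.coe_insert]
    exact Set.mem_insert_of_mem _ hx
  | zero => exact zero_mem _
  | add x y _ _ hx hy => exact add_mem hx hy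
  | smul c x _ hx =>
    rw [Algebra.smul_def]
    exact mul_mem (hle c.2) hx

/-- The difference of two values over `Om k` over the same point of the base is in `Dif`: take a
subfield `K` of `Om k` which is the function field of a curve and contains `σ(L)` (a finite number
of generators: `trb_gen`, or directly a transcendental element `t` and a basis of `L` over `k(t)`),
the coordinates of the points and the factors `l` of `Val` (`GT.exists_field` with `J = Fin 0`),
and the place of `K` below `V` (`TInc.exists_below` for `K.val`). Values over `K` and over `Om k`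
are the same (`Place.At` of an element of `K`, as `cov_at` in `GT/Cov.lean`). -/
theorem dif_om (hX : Hom X) (hL : IsCurve k L) {σ : L →ₐ[k] Om k} {V : Place k (Om k)}
    {x y x' y' : Om k} {P P' : Fin Φ.e → Pt X k} (h : Φ.Val X σ V x y P)
    (h' : Φ.Val X σ V x' y' P') :
    ∑ a, Finsupp.single (P a) (1 : R) - ∑ a, Finsupp.single (P' a) 1 ∈ Φ.Dif R X := by
  obtain ⟨l, hl⟩ := h.val
  obtain ⟨l', hl'⟩ := h'.val
  obtain ⟨G, hG⟩ := cd_gen hL
  obtain ⟨K, -, hK, hΓ, -, -⟩ := exists_field hX (G.image σ ∪ {x, y, x', y', l, l'})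
    (J := Fin 0) (fun j => j.elim0)
  have hmem : ∀ z ∈ G.image σ ∪ {x, y, x', y', l, l'}, z ∈ K := fun z hz => hΓ hz
  have hσK : ∀ a, σ a ∈ K := by
    have h1 : (IntermediateField.adjoin k (G : Set L)).map σ ≤ K := by
      rw [IntermediateField.adjoin_map, IntermediateField.adjoin_le_iff]
      rintro _ ⟨a, ha, rfl⟩
      exact hmem _ (Finset.mem_union_left _ (Finset.mem_image_of_mem σ ha))
    intro a
    refine h1 ⟨a, ?_, rfl⟩
    rw [hG]
    trivial
  let σ₀ : L →ₐ[k] K :=
    { toFun := fun a => ⟨σ a, hσK a⟩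
      map_one' := Subtype.ext (map_one σ)
      map_mul' := fun a b => Subtype.ext (map_mul σ a b)
      map_zero' := Subtype.ext (map_zero σ)
      map_add' := fun a b => Subtype.ext (map_add σ a b)
      commutes' := fun c => Subtype.ext (σ.commutes c) }
  have hc : K.val.comp σ₀ = σ := AlgHom.ext fun _ => rfl
  obtain ⟨v, hv⟩ := exists_below hK V K.val
  have hx : x ∈ K := hmem _ (by simp)
  have hy : y ∈ K := hmem _ (by simp)
  have hx' : x' ∈ K := hmem _ (by simp)
  have hy' : y' ∈ K := hmem _ (by simp)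
  have hlK : l ∈ K := hmem _ (by simp)
  have hlK' : l' ∈ K := hmem _ (by simp)
  exact ⟨K, inferInstance, inferInstance, hK, σ₀, v, ⟨x, hx⟩, ⟨y, hy⟩, ⟨x', hx'⟩, ⟨y', hy'⟩, P, P',
    cd_val hv hc (l := ⟨l, hlK⟩) h.on hl, cd_val hv hc (l := ⟨l', hlK'⟩) h'.on hl', rfl⟩

/-- There is `t ∈ k` such that the form `G(t) ² - P(t) H(t) ²`, `P = D_m(x, f) + B`, over `L` is not zero.
Proof: otherwise all coefficients of the polynomial `G ² - P H ²` (a polynomial in `U_0, ..., U_n` with
coefficients in `L[x]`) vanish at the infinitely many elements of `k`, so `G ² = P H ²`. Let `Ω` be the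
algebraic closure of `L`. For `x ∈ Ω` and `y ² = P(x)` the product of the forms `Φ(x, y)` and `Φ(x, - y)`
is zero, so one of them is zero; for every exponent `s`, with the coefficients `a = G_s`, `b = H_s` in
`L[x]`, this gives `a(x) ² = P(x) b(x) ²`. Hence `a ² = P b ²` (infinitely many `x`), so `a = b = 0` for
all `s` by `not_sq`, a contradiction to `Ok.ne`. -/
theorem Ok.exists_t (hΦ : Φ.Ok X) : ∃ t : k,
    (Φ.G.map (Polynomial.evalRingHom (algebraMap k L t))) ^ 2 -
      MvPolynomial.C ((Polynomial.dickson 1 Φ.f Φ.m).eval (algebraMap k L t) + Φ.B) *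
        (Φ.H.map (Polynomial.evalRingHom (algebraMap k L t))) ^ 2 ≠ 0 := by
  by_contra hcon
  have hcon' : ∀ t : k,
      (Φ.G.map (Polynomial.evalRingHom (algebraMap k L t))) ^ 2 -
        MvPolynomial.C ((Polynomial.dickson 1 Φ.f Φ.m).eval (algebraMap k L t) + Φ.B) *
        (Φ.H.map (Polynomial.evalRingHom (algebraMap k L t))) ^ 2 = 0 := fun t => by
    by_contra h
    exact hcon ⟨t, h⟩
  obtain ⟨Q, hQ⟩ : ∃ Q : Polynomial L, Q = Polynomial.dickson 1 Φ.f Φ.m + Polynomial.C Φ.B :=
    ⟨_, rfl⟩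
  have hk : Infinite k := inferInstance
  have h1 : Φ.G ^ 2 - MvPolynomial.C Q * Φ.H ^ 2 = 0 := by
    refine MvPolynomial.ext _ _ fun s => ?_
    rw [MvPolynomial.coeff_zero]
    refine Polynomial.eq_zero_of_infinite_isRoot _ (Set.Infinite.mono
      (s := Set.range (algebraMap k L)) ?_
      (Set.infinite_range_of_injective (algebraMap k L).injective))
    rintro _ ⟨t, rfl⟩
    have h2 : MvPolynomial.map (Polynomial.evalRingHom (algebraMap k L t))
        (Φ.G ^ 2 - MvPolynomial.C Q * Φ.H ^ 2) = 0 := by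
      have h3 : Polynomial.evalRingHom (algebraMap k L t) Q =
          (Polynomial.dickson 1 Φ.f Φ.m).eval (algebraMap k L t) + Φ.B := by
        rw [hQ, Polynomial.coe_evalRingHom, Polynomial.eval_add, Polynomial.eval_C]
      rw [map_sub, map_mul, map_pow, map_pow, MvPolynomial.map_C, h3]
      exact hcon' t
    have h4 := congrArg (MvPolynomial.coeff s) h2
    rw [MvPolynomial.coeff_map, MvPolynomial.coeff_zero] at h4
    exact h4
  have key : ∀ s, (Φ.G.coeff s) ^ 2 = Q * (Φ.H.coeff s) ^ 2 := by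
    intro s
    rw [← sub_eq_zero]
    apply Polynomial.map_injective (algebraMap L (AlgebraicClosure L))
      (algebraMap L (AlgebraicClosure L)).injective
    rw [Polynomial.map_zero]
    refine Polynomial.funext fun x => ?_
    rw [Polynomial.eval_zero, Polynomial.eval_map]
    obtain ⟨ψ, hψ⟩ : ∃ ψ : Polynomial L →+* AlgebraicClosure L,
        ψ = Polynomial.eval₂RingHom (algebraMap L (AlgebraicClosure L)) x := ⟨_, rfl⟩
    have hψ' : ∀ p, Polynomial.eval₂ (algebraMap L (AlgebraicClosure L)) x p = ψ p := fun p => by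
      rw [hψ]
      rfl
    rw [hψ']
    obtain ⟨y, hy⟩ := IsAlgClosed.exists_pow_nat_eq (ψ Q) (n := 2) (by norm_num)
    have h5 := congrArg (MvPolynomial.map ψ) h1
    rw [map_sub, map_mul, map_pow, map_pow, MvPolynomial.map_C, map_zero, ← hy] at h5
    have h6 : (MvPolynomial.map ψ Φ.G - MvPolynomial.C y * MvPolynomial.map ψ Φ.H) *
        (MvPolynomial.map ψ Φ.G + MvPolynomial.C y * MvPolynomial.map ψ Φ.H) = 0 := by
      rw [← h5, map_pow]
      ring
    rw [map_sub, map_mul, map_pow, map_pow, ← hy]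
    rcases mul_eq_zero.1 h6 with h7 | h7
    · have h8 := congrArg (MvPolynomial.coeff s) h7
      rw [MvPolynomial.coeff_sub, MvPolynomial.coeff_C_mul, MvPolynomial.coeff_map,
        MvPolynomial.coeff_map, MvPolynomial.coeff_zero] at h8
      rw [sub_eq_zero.1 h8]
      ring
    · have h8 := congrArg (MvPolynomial.coeff s) h7
      rw [MvPolynomial.coeff_add, MvPolynomial.coeff_C_mul, MvPolynomial.coeff_map,
        MvPolynomial.coeff_map, MvPolynomial.coeff_zero] at h8
      rw [eq_neg_of_add_eq_zero_left h8]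
      ring
  have hL0 : CharZero L := charZero_of_injective_algebraMap (algebraMap k L).injective
  have h9 : ∀ s, Φ.G.coeff s = 0 ∧ Φ.H.coeff s = 0 := by
    intro s
    have h10 := key s
    rw [hQ] at h10
    exact not_sq (lt_of_lt_of_le (by norm_num) hΦ.three) hΦ.disc h10
  rcases hΦ.ne with h11 | h11
  · exact h11 (MvPolynomial.ext _ _ fun s => by rw [(h9 s).1, MvPolynomial.coeff_zero])
  · exact h11 (MvPolynomial.ext _ _ fun s => by rw [(h9 s).2, MvPolynomial.coeff_zero])

omit [IsAlgClosed k] [CharZero k] in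
/-- the image of a point with given coordinates -/
private theorem psi_map {m : ℕ} {Y : Set (MvPolynomial (Fin (m + 1)) k)} (hY : Hom Y) {K K' : Type}
    [Field K] [Algebra k K] [Field K'] [Algebra k K'] (φ : K →ₐ[k] K') {a : Fin (m + 1) → K}
    (ha : a ≠ 0) (h : ∀ f ∈ Y, MvPolynomial.aeval a f = 0) (ha' : (fun i => φ (a i)) ≠ 0) :
    ((mkPt hY a ha h).map φ hY).1 = Projectivization.mk K' (fun i => φ (a i)) ha' := by
  obtain ⟨c, hc⟩ := Projectivization.exists_smul_eq_mk_rep K a ha
  unfold Pt.map mkPt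
  dsimp only
  rw [Projectivization.mk_eq_mk_iff']
  refine ⟨φ (c : K), ?_⟩
  funext i
  have h1 := congrFun hc i
  rw [← h1]
  change φ (c : K) * φ (a i) = φ ((c : K) * a i)
  rw [map_mul]

omit [IsAlgClosed k] [CharZero k] in
/-- the product of the forms of the points `(t, y)` and `(t, - y)` -/
private theorem psi_mul {K : Type} [Field K] (σ : L →+* K) (t : L) {y : K}
    (hy : y ^ 2 = σ ((Polynomial.dickson 1 Φ.f Φ.m).eval t + Φ.B)) :
    Φ.form σ (σ t) y * Φ.form σ (σ t) (-y) =
      ((Φ.G.map (Polynomial.evalRingHom t)) ^ 2 -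
        MvPolynomial.C ((Polynomial.dickson 1 Φ.f Φ.m).eval t + Φ.B) *
          (Φ.H.map (Polynomial.evalRingHom t)) ^ 2).map σ := by
  have h1 : Polynomial.eval₂RingHom σ (σ t) = σ.comp (Polynomial.evalRingHom t) := by
    refine Polynomial.ringHom_ext (fun a => ?_) ?_
    · simp
    · simp
  unfold form
  rw [h1, map_sub, map_mul, map_pow, map_pow, MvPolynomial.map_C, ← hy,
    MvPolynomial.map_map, MvPolynomial.map_map, MvPolynomial.C_neg, MvPolynomial.C_pow]
  ring

omit [IsAlgClosed k] [CharZero k] [Algebra k L] in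
private theorem psi_on {K : Type} [Field K] (σ : L →+* K) (t : L) {y : K}
    (hy : y ^ 2 = σ ((Polynomial.dickson 1 Φ.f Φ.m).eval t + Φ.B)) :
    Φ.On σ (σ t) y ∧ Φ.On σ (σ t) (-y) := by
  have h1 : (Polynomial.dickson 1 (σ Φ.f) Φ.m).eval (σ t) =
      σ ((Polynomial.dickson 1 Φ.f Φ.m).eval t) := by
    rw [← Polynomial.map_dickson, Polynomial.eval_map, Polynomial.eval₂_hom]
  unfold On
  rw [neg_sq, h1, ← map_add]
  exact ⟨hy, hy⟩

/-- **The multisection `x = t`.** There is a point `Ψ` of the symmetric power of degree `2 e` over `L`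
whose value at a place `c` is the sum of the images of two points of the curve over `c`. Proof: `Ψ` is
the point with the coefficients of the form `F = G(t) ² - P(t) H(t) ²` of `Ok.exists_t`, homogeneous of
degree `e + e`. Over the algebraic closure of `L`, with `y ² = P(t)`, `F = Φ(t, y) Φ(t, - y)` is a multiple
of the Chow form of `e + e` points of `X` (`Ok.onX` twice, `pro` of `Fin.append`), so that the equations
`Sy X (e + e)` hold. For `σ : L → Om k` and `V` choose `y ∈ Om k` with `y ² = σ(P(t))`; the forms `Φ(t, y)` and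
`Φ(t, - y)` are not zero since their product is the image of `F`, so they have values `P`, `P'`
(`Ok.exists_val`), and `form_val_mul`, `form_val_iff`, `isVal_map` (`c` is below `V`) show that the Chow
form of `P, P'` is the value of `Ψ` at `c`. -/
theorem Ok.exists_psi (hX : Hom X) (hΦ : Φ.Ok X) : ∃ Ψ : Pt (Sy X (Φ.e + Φ.e)) L,
    ∀ (σ : L →ₐ[k] Om k) (V : Place k (Om k)) (c : Place k L),
      V.ring.comap (σ : L →+* Om k) = c.ring → ∃ (x y x' y' : Om k) (P P' : Fin Φ.e → Pt X k),
        Φ.Val X σ V x y P ∧ Φ.Val X σ V x' y' P' ∧ IsVal c Ψ (chp (Fin.append P P')) := by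
  obtain ⟨t, ht⟩ := hΦ.exists_t
  set F : MvPolynomial (Fin (n + 1)) L :=
    (Φ.G.map (Polynomial.evalRingHom (algebraMap k L t))) ^ 2 -
      MvPolynomial.C ((Polynomial.dickson 1 Φ.f Φ.m).eval (algebraMap k L t) + Φ.B) *
        (Φ.H.map (Polynomial.evalRingHom (algebraMap k L t))) ^ 2 with hF
  have hFh : F.IsHomogeneous (Φ.e + Φ.e) := by
    have h1 := (hΦ.homG.map (Polynomial.evalRingHom (algebraMap k L t))).pow 2
    have h2 := (hΦ.homH.map (Polynomial.evalRingHom (algebraMap k L t))).pow 2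
    rw [mul_two] at h1 h2
    refine h1.sub ?_
    have h3 := (MvPolynomial.isHomogeneous_C (Fin (n + 1))
      ((Polynomial.dickson 1 Φ.f Φ.m).eval (algebraMap k L t) + Φ.B)).mul h2
    rw [zero_add] at h3
    exact h3
  have hF0 : cf (e := Φ.e + Φ.e) F ≠ 0 := cf_ne hFh ht
  have hroot : ∀ (K : Type) [Field K] [IsAlgClosed K] (a : K), ∃ y : K, y ^ 2 = a :=
    fun K _ _ a => IsAlgClosed.exists_pow_nat_eq a (by norm_num)
  -- the equations
  have hS : ∀ f ∈ Sy X (Φ.e + Φ.e), MvPolynomial.aeval (cf (e := Φ.e + Φ.e) F) f = 0 := by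
    intro f hf
    let σ : L →ₐ[k] AlgebraicClosure L := IsScalarTower.toAlgHom k L (AlgebraicClosure L)
    obtain ⟨y, hy⟩ := hroot (AlgebraicClosure L)
      (σ ((Polynomial.dickson 1 Φ.f Φ.m).eval (algebraMap k L t) + Φ.B))
    obtain ⟨hon, hon'⟩ := psi_on (Φ := Φ) (σ : L →+* AlgebraicClosure L) (algebraMap k L t) hy
    obtain ⟨a, P, hP⟩ := hΦ.onX _ σ _ _ hon
    obtain ⟨a', P', hP'⟩ := hΦ.onX _ σ _ _ hon'
    have h1 := psi_mul (Φ := Φ) (σ : L →+* AlgebraicClosure L) (algebraMap k L t) hy
    rw [hP, hP', ← hF] at h1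
    have h2 : F.map (σ : L →+* AlgebraicClosure L) = MvPolynomial.C (a * a') *
        pro (fun b => (Fin.append P P' b).1.rep) := by
      rw [← h1]
      have h3 : pro (fun b => (Fin.append P P' b).1.rep) =
          pro (fun b => (P b).1.rep) * pro (fun b => (P' b).1.rep) := by
        unfold pro
        rw [Fin.prod_univ_add]
        simp only [Fin.append_left, Fin.append_right]
      rw [h3, MvPolynomial.C_mul]
      ring
    have h3 : MvPolynomial.aeval (cf (e := Φ.e + Φ.e) (F.map (σ : L →+* AlgebraicClosure L))) f =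
        0 := by
      rw [h2, cf_smul]
      obtain ⟨d, _, hd⟩ := hf.1
      rw [aeval_smul_homog hd]
      have h4 := hf.2 (AlgebraicClosure L) (fun b => (Fin.append P P' b).1.rep)
        (fun b g hg => (Fin.append P P' b).2 g hg)
      unfold chw at h4
      rw [h4, mul_zero]
    rw [cf_map] at h3
    apply (σ : L →+* AlgebraicClosure L).injective
    rw [map_zero, ← h3]
    exact DFunLike.congr_fun (MvPolynomial.comp_aeval (cf (e := Φ.e + Φ.e) F) σ) f
  refine ⟨mkPt (hom_Sy X (Φ.e + Φ.e)) (cf F) hF0 hS, fun σ V c hV => ?_⟩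
  obtain ⟨y, hy⟩ := hroot (Om k)
    (σ ((Polynomial.dickson 1 Φ.f Φ.m).eval (algebraMap k L t) + Φ.B))
  obtain ⟨hon, hon'⟩ := psi_on (Φ := Φ) (σ : L →+* Om k) (algebraMap k L t) hy
  have h1 := psi_mul (Φ := Φ) (σ : L →+* Om k) (algebraMap k L t) hy
  rw [← hF] at h1
  have hFσ : F.map (σ : L →+* Om k) ≠ 0 := by
    intro h2
    apply ht
    exact MvPolynomial.map_injective _ (σ : L →+* Om k).injective (by rw [h2, map_zero])
  rw [← h1] at hFσ
  obtain ⟨P, hP⟩ := hΦ.exists_val hX σ V hon (left_ne_zero_of_mul hFσ)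
  obtain ⟨P', hP'⟩ := hΦ.exists_val hX σ V hon' (right_ne_zero_of_mul hFσ)
  refine ⟨_, _, _, _, P, P', hP, hP', ?_⟩
  have h2 := form_val_mul hP.val hP'.val
  rw [h1] at h2
  rw [h1] at hFσ
  obtain ⟨l, hl⟩ := h2
  have hne : (fun i => σ (cf (e := Φ.e + Φ.e) F i)) ≠ 0 := by
    intro h3
    apply hF0
    funext i
    exact (map_eq_zero σ).1 (congrFun h3 i)
  rw [← isVal_map (hX := hom_Sy X (Φ.e + Φ.e)) hV]
  refine (isVal_iff hne (chw_ne fun a => (Fin.append P P' a).1.rep_nonzero)
    (psi_map (hom_Sy X (Φ.e + Φ.e)) σ hF0 hS hne) rfl).2 ⟨l, fun i => ?_⟩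
  have h3 := hl (exn i)
  rw [MvPolynomial.coeff_map] at h3
  exact h3

end Cor

end Pool.Agent.GTC
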