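import Pool.Agent.GTC.CorD
import Pool.Agent.GTC.TrB

/-!
# The cycles with trivial image in the Chow group of the base curve
-/

set_option autoImplicit false

noncomputable section

namespace Pool.Agent.GTC

open Pool.Agent.ZCyc Pool.Agent.Dess Pool.Agent.GT Pool.Agent.GTM Pool.Agent.TInc
open Pool.Agent.VFP (Om tt)
open scoped Classical LinearAlgebra.Projectivization

variable {k : Type} [Field k] [IsAlgClosed k] [CharZero k] {n : ℕ}
  {X : Set (MvPolynomial (Fin (n + 1)) k)} {R : Type} [Field R] [CharZero R]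

/-- Let `Ψ` be a point of the symmetric power over the function field `K` of a curve, and `Q c` its values
at the places. For a function `u` the cycle `∑ c, ord c u • tr1 [Q c]` is rationally equivalent to zero.
Proof: for `u ≠ 0` the cycle `∑ c, ord c u • [Q c]` is in `Rat1 (Sy X e)` by the definition of `Rat`
(index set `Unit`, `dv hK u`, `ord_hasOrd`), `toR_rat1`, `tr1_ratR`, `toR_single`. For `u = 0` the divisor
`dv hK 0` is zero (`ord_zero`). -/
theorem tr_dv {e : ℕ} (hX : Hom X) (he : 0 < e) {K : Type} [Field K] [Algebra k K]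
    (hK : IsCurve k K) {Ψ : Pt (Sy X e) K} {Q : Place k K → Pt (Sy X e) k}
    (hQ : ∀ c, IsVal c Ψ (Q c)) (u : K) :
    ((dv hK u).sum fun c a => (a : R) • tr1 R hX he (Finsupp.single (Q c) 1)) ∈ RatR1 R X := by
  by_cases hu : u = 0
  · have h0 : dv hK u = 0 := by
      refine Finsupp.ext fun v => ?_
      rw [dv_apply, hu, ord_zero, Finsupp.coe_zero, Pi.zero_apply]
    rw [h0, Finsupp.sum_zero_index]
    exact Submodule.zero_mem _
  · have h1 : ((dv hK u).sum fun c a => Finsupp.single (Q c) (a : ℚ)) ∈ Rat1 (Sy X e) := by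
      change Finsupp.lmapDomain ℚ ℚ (fun x _ => x)
        ((dv hK u).sum fun c a => Finsupp.single (Q c) (a : ℚ)) ∈ Rat (Sy X e) Unit
      refine Submodule.subset_span ⟨K, inferInstance, inferInstance, hK, fun _ => Ψ,
        fun c _ => Q c, u, dv hK u, hu, fun v => ?_, fun v _ => hQ v, ?_⟩
      · rw [dv_apply]
        exact ord_hasOrd hK v hu
      · rw [map_finsuppSum]
        refine Finsupp.sum_congr fun v _ => ?_
        rw [Finsupp.lmapDomain_apply, Finsupp.mapDomain_single]
    have h2 := tr1_ratR R hX he (toR_rat1 (R := R) h1)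
    change tr1 R hX he (toR R _) ∈ RatR1 R X at h2
    have h3 : tr1 R hX he (toR R ((dv hK u).sum fun c a => Finsupp.single (Q c) (a : ℚ))) =
        (dv hK u).sum fun c a => (a : R) • tr1 R hX he (Finsupp.single (Q c) 1) := by
      rw [map_finsuppSum, map_finsuppSum]
      refine Finsupp.sum_congr fun v _ => ?_
      rw [toR_single, ← map_smul, Finsupp.smul_single, smul_eq_mul, mul_one]
      congr 2
      exact map_intCast (algebraMap ℚ R) _
    rw [h3] at h2
    exact h2

namespace Cor

variable {L : Type} [Field L] [Algebra k L] {Φ : Cor L n}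

/-- Twice the image of a point minus the cycle of the multisection `Ψ` is a combination of differences in
one fibre: for a value over a curve `K` embed `K` into `Om k` with a place `V` above `v` (`exists_embed`,
`Val.map`), take the points of `Ok.exists_psi`, with `tr1_chp` (`Q c = chp (Fin.append P P')` by
`isVal_unique`) and the sum over `Fin (e + e)` (`Fin.sum_univ_add`, `Fin.append_left`, `Fin.append_right`),
and `dif_om` twice. -/
theorem two_val_mem (hX : Hom X) (hL : IsCurve k L) (hΦ : Φ.Ok X) {Ψ : Pt (Sy X (Φ.e + Φ.e)) L}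
    (hΨ : ∀ (σ : L →ₐ[k] Om k) (V : Place k (Om k)) (c : Place k L),
      V.ring.comap (σ : L →+* Om k) = c.ring → ∃ (x y x' y' : Om k) (P P' : Fin Φ.e → Pt X k),
        Φ.Val X σ V x y P ∧ Φ.Val X σ V x' y' P' ∧ IsVal c Ψ (chp (Fin.append P P')))
    (he : 0 < Φ.e + Φ.e) {Q : Place k L → Pt (Sy X (Φ.e + Φ.e)) k} (hQ : ∀ c, IsVal c Ψ (Q c))
    {K : Type} [Field K] [Algebra k K] (hK : IsCurve k K) {σ : L →ₐ[k] K} {v : Place k K}
    {c : Place k L} (hc : v.ring.comap (σ : L →+* K) = c.ring) {x y : K} {P : Fin Φ.e → Pt X k}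
    (h : Φ.Val X σ v x y P) :
    (2 : R) • ∑ a, Finsupp.single (P a) 1 - tr1 R hX he (Finsupp.single (Q c) 1) ∈
      Submodule.span R (Φ.Dif R X) := by
  obtain ⟨i, V, hV⟩ := exists_embed hK v
  have h1 := h.map hV
  have hVc : V.ring.comap ((i.comp σ : L →ₐ[k] Om k) : L →+* Om k) = c.ring := by
    rw [← hc, ← hV]
    rfl
  obtain ⟨x1, y1, x2, y2, P1, P2, v1, v2, hval⟩ := hΨ (i.comp σ) V c hVc
  have hQc : Q c = chp (Fin.append P1 P2) := isVal_unique (hQ c) hval
  rw [hQc, tr1_chp, Fin.sum_univ_add]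
  simp only [Fin.append_left, Fin.append_right]
  have e1 : (2 : R) • ∑ a, Finsupp.single (P a) (1 : R) -
      (∑ a, Finsupp.single (P1 a) (1 : R) + ∑ a, Finsupp.single (P2 a) (1 : R)) =
      (∑ a, Finsupp.single (P a) (1 : R) - ∑ a, Finsupp.single (P1 a) (1 : R)) +
        (∑ a, Finsupp.single (P a) (1 : R) - ∑ a, Finsupp.single (P2 a) (1 : R)) := by
    rw [two_smul]
    abel
  rw [e1]
  exact Submodule.add_mem _ (Submodule.subset_span (dif_om hX hL h1 v1))
    (Submodule.subset_span (dif_om hX hL h1 v2))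

/-- **The space `Ker`.** The cycles in `Ker` are combinations of differences in one fibre, up to rational
equivalence. Proof: let `(z, D)` be in the span of `Prs` with `D ∈ PrinR R hL`. The linear map
`(z, D) ↦ 2 z - ∑ c, D c • tr1 [Q c]` maps `Prs` to the span of `Dif` (`two_val_mem`), and
`∑ c, D c • tr1 [Q c] ∈ RatR1 R X` by `tr_dv` (and the definition of `PrinR`). The values `Q c` exist by
`exists_isVal` (`hasRes_of_isCurve`). -/
theorem Ok.ker_le (hX : Hom X) (hL : IsCurve k L) (hΦ : Φ.Ok X) :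
    Φ.Ker R X hL ≤ Submodule.span R (Φ.Dif R X) ⊔ RatR1 R X := by
  obtain ⟨Ψ, hΨ⟩ := hΦ.exists_psi hX
  have he : 0 < Φ.e + Φ.e := by
    have := hΦ.pos
    omega
  have hres : HasRes k L := hasRes_of_isCurve hL
  choose Q hQ using fun c : Place k L => exists_isVal (hom_Sy X (Φ.e + Φ.e)) c Ψ
  let T : ((Pt X k →₀ R) × (Place k L →₀ R)) →ₗ[R] (Pt X k →₀ R) :=
    (2 : R) • LinearMap.fst R _ _ -
      (Finsupp.linearCombination R fun c => tr1 R hX he (Finsupp.single (Q c) 1)) ∘ₗ
        LinearMap.snd R _ _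
  have hT : ∀ w, T w = (2 : R) • w.1 -
      Finsupp.linearCombination R (fun c => tr1 R hX he (Finsupp.single (Q c) 1)) w.2 :=
    fun w => rfl
  have h1 : Submodule.span R (Φ.Prs R X) ≤ (Submodule.span R (Φ.Dif R X)).comap T := by
    rw [Submodule.span_le]
    rintro _ ⟨K, iK, iA, hK, σ, v, c, x, y, P, hc, h, rfl⟩
    have h2 := two_val_mem (R := R) hX hL hΦ hΨ he hQ hK hc h
    have h3 : T (∑ a, Finsupp.single (P a) 1, Finsupp.single c 1) =
        (2 : R) • ∑ a, Finsupp.single (P a) 1 - tr1 R hX he (Finsupp.single (Q c) 1) := by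
      rw [hT, Finsupp.linearCombination_single, one_smul]
    change T (∑ a, Finsupp.single (P a) 1, Finsupp.single c 1) ∈
      Submodule.span R (Φ.Dif R X)
    rw [h3]
    exact h2
  have h2 : PrinR R hL ≤ (RatR1 R X).comap
      (Finsupp.linearCombination R fun c => tr1 R hX he (Finsupp.single (Q c) 1)) := by
    unfold PrinR
    rw [Submodule.span_le]
    rintro _ ⟨u, rfl⟩
    have h3 := tr_dv (R := R) hX he hL hQ u
    change Finsupp.linearCombination R (fun c => tr1 R hX he (Finsupp.single (Q c) 1))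
      ((dv hL u).mapRange (fun n : ℤ => (n : R)) Int.cast_zero) ∈ RatR1 R X
    rw [Finsupp.linearCombination_apply,
      Finsupp.sum_mapRange_index (h := fun c (a : R) => a • tr1 R hX he (Finsupp.single (Q c) 1))
        fun c => zero_smul R _]
    exact h3
  rintro z ⟨w, ⟨hw1, hw2⟩, rfl⟩
  have h3 : T w ∈ Submodule.span R (Φ.Dif R X) := h1 hw1
  have h4 : Finsupp.linearCombination R
      (fun c => tr1 R hX he (Finsupp.single (Q c) 1)) w.2 ∈ RatR1 R X := h2 hw2
  have h5 : (2 : R) • w.1 ∈ Submodule.span R (Φ.Dif R X) ⊔ RatR1 R X := by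
    have h6 : (2 : R) • w.1 = T w + Finsupp.linearCombination R
        (fun c => tr1 R hX he (Finsupp.single (Q c) 1)) w.2 := by
      rw [hT, sub_add_cancel]
    rw [h6]
    exact add_mem (Submodule.mem_sup_left h3) (Submodule.mem_sup_right h4)
  exact (Submodule.smul_mem_iff _ (two_ne_zero' R)).1 h5

end Cor

end Pool.Agent.GTC
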