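import Pool.Agent.GTC.CorE

/-!
# Multisections with constant image
-/

set_option autoImplicit false

noncomputable section

namespace Pool.Agent.GTC

open Pool.Agent.ZCyc Pool.Agent.Dess Pool.Agent.GT Pool.Agent.GTM Pool.Agent.TInc
open Pool.Agent.VFP (Om tt)
open scoped Classical LinearAlgebra.Projectivization

variable {k : Type} [Field k] [IsAlgClosed k] [CharZero k] {n : ℕ}
  {X : Set (MvPolynomial (Fin (n + 1)) k)} {R : Type} [Field R] [CharZero R]

/-- If the transfer of the value of `Ψ` is rationally equivalent to `z₀` at almost all places then this is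
so at all places: for `v ∈ T` take `u` with `ord v u = 1` and `ord c u = 0` for the other `c ∈ T`
(`exists_prescribed`). By `tr_dv` and `deg_dv` the sum over `c` of
`ord c u • (tr1 [Q c] - z₀)` is in `RatR1 R X`, and all terms with `c ≠ v` are. -/
theorem const_tr {e : ℕ} (hX : Hom X) (he : 0 < e) {K : Type} [Field K] [Algebra k K]
    (hK : IsCurve k K) {Ψ : Pt (Sy X e) K} {Q : Place k K → Pt (Sy X e) k}
    (hQ : ∀ c, IsVal c Ψ (Q c)) {z₀ : Pt X k →₀ R} {T : Finset (Place k K)}
    (h : ∀ v ∉ T, tr1 R hX he (Finsupp.single (Q v) 1) - z₀ ∈ RatR1 R X) (v : Place k K) :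
    tr1 R hX he (Finsupp.single (Q v) 1) - z₀ ∈ RatR1 R X := by
  obtain ⟨u, hu, huv, huT⟩ := exists_prescribed hK v T
  have h1 := tr_dv (R := R) hX he hK hQ u
  have h2 : ((dv hK u).sum fun c a =>
      (a : R) • (tr1 R hX he (Finsupp.single (Q c) 1) - z₀)) ∈ RatR1 R X := by
    have h3 : ((dv hK u).sum fun c a => (a : R) • (tr1 R hX he (Finsupp.single (Q c) 1) - z₀)) =
        ((dv hK u).sum fun c a => (a : R) • tr1 R hX he (Finsupp.single (Q c) 1)) -
          ((deg (dv hK u) : ℤ) : R) • z₀ := by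
      unfold deg Finsupp.sum
      rw [Int.cast_sum, Finset.sum_smul, ← Finset.sum_sub_distrib]
      exact Finset.sum_congr rfl fun c _ => smul_sub _ _ _
    rw [h3, deg_dv, Int.cast_zero, zero_smul, sub_zero]
    exact h1
  have hv : v ∈ (dv hK u).support := by
    rw [Finsupp.mem_support_iff, dv_apply, huv]
    exact one_ne_zero
  unfold Finsupp.sum at h2
  rw [← Finset.add_sum_erase _ _ hv] at h2
  have h4 : ∑ c ∈ (dv hK u).support.erase v,
      ((dv hK u c : ℤ) : R) • (tr1 R hX he (Finsupp.single (Q c) 1) - z₀) ∈ RatR1 R X :=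
    Submodule.sum_mem _ fun c hc => by
      by_cases hcT : c ∈ T
      · rw [dv_apply, huT c hcT (Finset.ne_of_mem_erase hc), Int.cast_zero, zero_smul]
        exact Submodule.zero_mem _
      · exact Submodule.smul_mem _ _ (h c hcT)
  have h5 := (Submodule.add_mem_iff_left _ h4).1 h2
  beta_reduce at h5
  rw [dv_apply, huv, Int.cast_one, one_smul] at h5
  exact h5

omit [CharZero k] in
private theorem sec_place {K : Type} [Field K] [Algebra k K] (hK : IsCurve k K)
    (T : Finset (Place k K)) : ∃ v, v ∉ T := by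
  obtain ⟨t, ht, -⟩ := hK
  choose u hu using fun c : k => exists_place ht c
  have hinj : Function.Injective u := fun c c' h => by
    have h1 := hu c
    rw [h] at h1
    exact h1.unique (hu c')
  have : Infinite (Place k K) := Infinite.of_injective u hinj
  exact Infinite.exists_notMem_finset T

omit [IsAlgClosed k] [CharZero k] in
/-- The equations of the symmetric power for a multiple of a Chow form over an extension. -/
private theorem sec_aeval {e : ℕ} {K Ω : Type} [Field K] [Algebra k K] [Field Ω] [Algebra k Ω]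
    (φ : K →ₐ[k] Ω) {F : MvPolynomial (Fin (n + 1)) K} {c : Ω} {P : Fin e → Pt X Ω}
    (h : F.map (φ : K →+* Ω) = MvPolynomial.C c * pro fun a => (P a).1.rep)
    {f : MvPolynomial (Fin (nx n e + 1)) k} (hf : f ∈ Sy X e) :
    MvPolynomial.aeval (cf (e := e) F) f = 0 := by
  apply (φ : K →+* Ω).injective
  rw [map_zero]
  have h1 : (φ : K →+* Ω) (MvPolynomial.aeval (cf (e := e) F) f) =
      MvPolynomial.aeval (cf (e := e) (F.map (φ : K →+* Ω))) f := by
    rw [cf_map]
    exact DFunLike.congr_fun (MvPolynomial.comp_aeval (cf (e := e) F) φ) f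
  obtain ⟨⟨d, hd0, hd⟩, h2⟩ := hf
  rw [h1, h, cf_smul, aeval_smul_homog hd]
  have h3 := h2 Ω (fun a => (P a).1.rep) fun a g hg => (P a).2 g hg
  change _ * MvPolynomial.aeval (chw fun a => (P a).1.rep) f = 0
  rw [h3, mul_zero]

/-- sums over pairs -/
private theorem sec_sum {e r : ℕ} {A B : Type} [AddCommMonoid B] (g : A → B)
    (P : Fin r → Fin e → A) :
    ∑ a : Fin (r * e), g (P (finProdFinEquiv.symm a).1 (finProdFinEquiv.symm a).2) =
      ∑ i, ∑ a, g (P i a) := by
  rw [Equiv.sum_comp finProdFinEquiv.symm fun p => g (P p.1 p.2), Fintype.sum_prod_type]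

/-- an embedding of `L` can be extended to a finite extension (`cov_lift` in `GT/Cov.lean`) -/
private theorem CorF_lift {L : Type} [Field L] [Algebra k L] {K : Type} [Field K] [Algebra k K]
    (hL : IsCurve k L) (hK : IsCurve k K) (σ : L →ₐ[k] K) (τ : L →ₐ[k] Om k) :
    ∃ ι : K →ₐ[k] Om k, ι.comp σ = τ := by
  obtain ⟨t, ht, -⟩ := hL
  have ht' : Transcendental k (σ t) := fun h =>
    ht ((isAlgebraic_algHom_iff σ (σ : L →+* K).injective).1 h)
  have hfin := fin_adjoin hK ht'
  let _ : Algebra L K := (σ : L →+* K).toAlgebra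
  let _ : Algebra L (Om k) := (τ : L →+* Om k).toAlgebra
  have hle : IntermediateField.adjoin k {σ t} ≤ σ.fieldRange := by
    rw [IntermediateField.adjoin_simple_le_iff]
    exact ⟨t, rfl⟩
  have hf : ∀ a : IntermediateField.adjoin k {σ t}, ∃ b : L, σ b = a := fun a => hle a.2
  choose f hf using hf
  let F : IntermediateField.adjoin k {σ t} →+* L :=
    { toFun := f
      map_one' := σ.toRingHom.injective (by
        change σ (f 1) = σ 1
        rw [hf, map_one]; rfl)
      map_mul' := fun a b => σ.toRingHom.injective (by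
        change σ (f (a * b)) = σ (f a * f b)
        rw [hf, map_mul, hf, hf]; rfl)
      map_zero' := σ.toRingHom.injective (by
        change σ (f 0) = σ 0
        rw [hf, map_zero]; rfl)
      map_add' := fun a b => σ.toRingHom.injective (by
        change σ (f (a + b)) = σ (f a + f b)
        rw [hf, map_add, hf, hf]; rfl) }
  have halg : Algebra.IsAlgebraic L K := by
    refine ⟨fun x => ?_⟩
    have h1 : IsAlgebraic (IntermediateField.adjoin k {σ t}) x :=
      Algebra.IsAlgebraic.isAlgebraic x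
    refine h1.ringHom_of_comp_eq F (RingHom.id K) F.injective ?_
    ext a
    exact hf a
  let ι₀ : K →ₐ[L] Om k := IsAlgClosed.lift
  have h1 : ∀ a : L, ι₀ (σ a) = τ a := fun a => ι₀.commutes a
  refine ⟨{ toRingHom := (ι₀ : K →+* Om k), commutes' := fun c => ?_ }, ?_⟩
  · change ι₀ (algebraMap k K c) = algebraMap k (Om k) c
    rw [← σ.commutes, h1, τ.commutes]
  · ext a
    exact h1 a

namespace Cor

variable {L : Type} [Field L] [Algebra k L] {Φ : Cor L n}

omit [IsAlgClosed k] [CharZero k] in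
private theorem form_comp {K Ω : Type} [Field K] [Field Ω] (σ : L →+* K) (φ : K →+* Ω)
    (x y : K) : (Φ.form σ x y).map φ = Φ.form (φ.comp σ) (φ x) (φ y) := by
  unfold form
  rw [map_add, map_mul, MvPolynomial.map_C, MvPolynomial.map_map, MvPolynomial.map_map]
  have h : φ.comp (Polynomial.eval₂RingHom σ x) =
      Polynomial.eval₂RingHom (φ.comp σ) (φ x) := by
    ext a
    · simp
    · simp
  rw [h]

omit [IsAlgClosed k] [CharZero k] in
private theorem on_comp {K Ω : Type} [Field K] [Field Ω] {σ : L →+* K} (φ : K →+* Ω)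
    {x y : K} (h : Φ.On σ x y) : Φ.On (φ.comp σ) (φ x) (φ y) := by
  unfold On at h ⊢
  rw [← map_pow, h, map_add, RingHom.comp_apply, RingHom.comp_apply,
    ← Polynomial.map_dickson φ, Polynomial.eval_map, Polynomial.eval₂_at_apply]

omit [IsAlgClosed k] [CharZero k] in
/-- The product of the forms `Φ(x i, y i)` is a point of the symmetric power, and its value is the Chow
form of the values. -/
private theorem exists_sec (hΦ : Φ.Ok X) {K : Type} [Field K] [Algebra k K]
    {σ : L →ₐ[k] K} {r : ℕ} {x y : Fin r → K}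
    (hon : ∀ i, Φ.On (σ : L →+* K) (x i) (y i))
    (hne : ∀ i, Φ.form (σ : L →+* K) (x i) (y i) ≠ 0) :
    ∃ Ψ : Pt (Sy X (r * Φ.e)) K, ∀ (v : Place k K) (P : Fin r → Fin Φ.e → Pt X k),
      (∀ i, Φ.Val X σ v (x i) (y i) (P i)) →
        IsVal v Ψ (chp fun a : Fin (r * Φ.e) =>
          P (finProdFinEquiv.symm a).1 (finProdFinEquiv.symm a).2) := by
  have hhom : (∏ i, Φ.form (σ : L →+* K) (x i) (y i)).IsHomogeneous (r * Φ.e) := by
    have h := MvPolynomial.IsHomogeneous.prod Finset.univ
      (fun i => Φ.form (σ : L →+* K) (x i) (y i)) (fun _ => Φ.e)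
      (fun i _ => hΦ.form_hom (σ : L →+* K) (x i) (y i))
    simpa using h
  have h0 : cf (e := r * Φ.e) (∏ i, Φ.form (σ : L →+* K) (x i) (y i)) ≠ 0 :=
    cf_ne hhom (Finset.prod_ne_zero_iff.2 fun i _ => hne i)
  have hS : ∀ f ∈ Sy X (r * Φ.e), MvPolynomial.aeval
      (cf (e := r * Φ.e) (∏ i, Φ.form (σ : L →+* K) (x i) (y i))) f = 0 := by
    intro f hf
    let Ω := AlgebraicClosure K
    let φ : K →ₐ[k] Ω := IsScalarTower.toAlgHom k K Ω
    have h1 : ∀ i, ∃ (c : Ω) (P : Fin Φ.e → Pt X Ω),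
        Φ.form ((φ.comp σ : L →ₐ[k] Ω) : L →+* Ω) (φ (x i)) (φ (y i)) =
          MvPolynomial.C c * pro fun a => (P a).1.rep := fun i =>
      hΦ.onX Ω (φ.comp σ) (φ (x i)) (φ (y i)) (on_comp (φ : K →+* Ω) (hon i))
    choose c P hP using h1
    refine sec_aeval φ (c := ∏ i, c i) (P := fun a : Fin (r * Φ.e) =>
      P (finProdFinEquiv.symm a).1 (finProdFinEquiv.symm a).2) ?_ hf
    rw [map_prod, map_prod]
    have h2 : ∀ i, (Φ.form (σ : L →+* K) (x i) (y i)).map (φ : K →+* Ω) =
        MvPolynomial.C (c i) * pro fun a => (P i a).1.rep := fun i => by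
      rw [← hP i, form_comp]
      rfl
    rw [Finset.prod_congr rfl fun i _ => h2 i, Finset.prod_mul_distrib]
    congr 1
    unfold pro
    rw [Equiv.prod_comp finProdFinEquiv.symm fun p => lin (P p.1 p.2).1.rep,
      Fintype.prod_prod_type]
  refine ⟨mkPt (hom_Sy X (r * Φ.e)) _ h0 hS, fun v P hP => ?_⟩
  rw [← form_val_iff hhom]
  exact form_val_prod fun i => (hP i).val

/-- The values of a multisection with constant image, at all places: let `K`, `σ`, `x`, `y`, `z₀`, `T` be as
in `Sec`. The forms `Φ(x i, y i)` are not zero (`form_ne_of_val` at a place outside `T`, which exists since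
`K` has infinitely many places). The product of the forms is a form of degree `r e` over `K` whose
coefficients satisfy the equations `Sy X (r * e)`: over the algebraic closure of `K` it is a multiple of a
Chow form (`Ok.onX` for all `i`, as in `form_val_prod`). At every place `v` the forms have values `P i`
(`Ok.exists_val`), and the Chow form of all `P i a` is the value of the product (`form_val_prod`,
`form_val_iff`), with `tr1 [..] = ∑ i, ∑ a, [P i a]` (`tr1_chp`, `finProdFinEquiv`). At the places `v ∉ T`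
the given values are the same points of the symmetric power, so the same sum (`isVal_unique`,
`sum_single_eq`). Now `const_tr`. -/
theorem Ok.sec_all (hX : Hom X) (hΦ : Φ.Ok X) {K : Type} [Field K] [Algebra k K]
    (hK : IsCurve k K) {σ : L →ₐ[k] K} {r : ℕ} {x y : Fin r → K} {z₀ : Pt X k →₀ R}
    {T : Finset (Place k K)} (hr : 0 < r)
    (h : ∀ v ∉ T, ∃ P : Fin r → Fin Φ.e → Pt X k, (∀ i, Φ.Val X σ v (x i) (y i) (P i)) ∧
      ∑ i, ∑ a, Finsupp.single (P i a) 1 - z₀ ∈ RatR1 R X) (v : Place k K) :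
    ∃ P : Fin r → Fin Φ.e → Pt X k, (∀ i, Φ.Val X σ v (x i) (y i) (P i)) ∧
      ∑ i, ∑ a, Finsupp.single (P i a) 1 - z₀ ∈ RatR1 R X := by
  obtain ⟨v₁, hv₁⟩ := sec_place hK T
  obtain ⟨P₁, hP₁, -⟩ := h v₁ hv₁
  have hon : ∀ i, Φ.On (σ : L →+* K) (x i) (y i) := fun i => (hP₁ i).on
  have hne : ∀ i, Φ.form (σ : L →+* K) (x i) (y i) ≠ 0 := by
    intro i h0
    obtain ⟨l, hl⟩ := (hP₁ i).val
    refine form_ne_of_val (hΦ.form_hom (σ : L →+* K) (x i) (y i)) hl ?_
    rw [h0]
    funext j
    unfold cf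
    rw [MvPolynomial.coeff_zero]
    rfl
  obtain ⟨Ψ, hΨ⟩ := exists_sec hΦ hon hne
  have hres : HasRes k K := hasRes_of_isCurve hK
  choose P hP using fun (c : Place k K) (i : Fin r) => hΦ.exists_val hX σ c (hon i) (hne i)
  have he : 0 < r * Φ.e := Nat.mul_pos hr hΦ.pos
  have htr : ∀ P' : Fin r → Fin Φ.e → Pt X k, tr1 R hX he (Finsupp.single
      (chp fun a : Fin (r * Φ.e) => P' (finProdFinEquiv.symm a).1 (finProdFinEquiv.symm a).2) 1) =
        ∑ i, ∑ a, Finsupp.single (P' i a) 1 := by
    intro P'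
    rw [tr1_chp]
    exact sec_sum (fun p => Finsupp.single p (1 : R)) P'
  refine ⟨P v, hP v, ?_⟩
  rw [← htr (P v)]
  refine const_tr hX he hK (Ψ := Ψ) (Q := fun c => chp fun a : Fin (r * Φ.e) =>
    P c (finProdFinEquiv.symm a).1 (finProdFinEquiv.symm a).2) (fun c => hΨ c (P c) (hP c))
    (T := T) (fun c hc => ?_) v
  obtain ⟨P', hP', hz⟩ := h c hc
  have h3 := isVal_unique (hΨ c (P c) (hP c)) (hΨ c P' hP')
  rw [h3, htr P']
  exact hz

/-- `r` times the image of a point minus `z₀` is a combination of differences in one fibre, up to rational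
equivalence, as in `cls_of_degree_zero` (`GT/Cov.lean`): embed the field of the point into `Om k`
(`exists_embed`), extend the embedding of `L` to `K` (`cov_lift` there, a private lemma: copy it), take
the place of `K` below (`TInc.exists_below`), `Ok.sec_all`, `Val.map` and `dif_om`. -/
theorem Ok.sec_val (hX : Hom X) (hL : IsCurve k L) (hΦ : Φ.Ok X) (hs : Φ.Sec R X) :
    ∃ (r : ℕ) (z₀ : Pt X k →₀ R), 0 < r ∧ ∀ z ∈ Φ.Vls R X,
      (r : R) • z - z₀ ∈ Submodule.span R (Φ.Dif R X) ⊔ RatR1 R X := by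
  obtain ⟨K₀, i1, i2, hK₀, σ₀, r, x₀, y₀, z₀, T, hr, hc⟩ := hs
  refine ⟨r, z₀, hr, ?_⟩
  rintro _ ⟨K, j1, j2, hK, σ, v, x, y, P, hP, rfl⟩
  obtain ⟨ι, w, hw⟩ := exists_embed hK v
  obtain ⟨ι₀, hι₀⟩ := CorF_lift hL hK₀ σ₀ (ι.comp σ)
  obtain ⟨c, hcw⟩ := exists_below hK₀ w ι₀
  obtain ⟨P', hP', h0⟩ := hΦ.sec_all hX hK₀ hr hc c
  have h1 : (r : R) • (∑ a, Finsupp.single (P a) (1 : R)) - z₀ =
      ∑ i, (∑ a, Finsupp.single (P a) (1 : R) - ∑ a, Finsupp.single (P' i a) (1 : R)) +
        (∑ i, ∑ a, Finsupp.single (P' i a) (1 : R) - z₀) := by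
    rw [Finset.sum_sub_distrib, Finset.sum_const, Finset.card_univ, Fintype.card_fin,
      Nat.cast_smul_eq_nsmul]
    abel
  rw [h1]
  refine Submodule.add_mem_sup
    (Submodule.sum_mem _ fun i _ => Submodule.subset_span ?_) h0
  have h2 := (hP' i).map hcw
  rw [hι₀] at h2
  exact dif_om hX hL (hP.map hw) h2

/-- **The space `Deg0`.** For `z` in the span of `Vls` we have `(e r) • z - (deg z) • z₀` in the span of
`Dif` plus `RatR1` (`sec_val`; the degree of the generators is `e`), so `z` is in it if the degree is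
zero. -/
theorem Ok.deg0_le (hX : Hom X) (hL : IsCurve k L) (hΦ : Φ.Ok X) (hs : Φ.Sec R X) :
    Φ.Deg0 R X ≤ Submodule.span R (Φ.Dif R X) ⊔ RatR1 R X := by
  obtain ⟨r, z₀, hr, hA⟩ := hΦ.sec_val (R := R) hX hL hs
  set W : Submodule R (Pt X k →₀ R) := Submodule.span R (Φ.Dif R X) ⊔ RatR1 R X with hW
  let dg : (Pt X k →₀ R) →ₗ[R] R := Finsupp.linearCombination R (fun _ => (1 : R))
  have hB : ∀ z ∈ Submodule.span R (Φ.Vls R X), ((Φ.e : R) * r) • z - dg z • z₀ ∈ W := by
    intro z hz
    induction hz using Submodule.span_induction with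
    | mem z hz =>
      have h1 := hA z hz
      have h2 : dg z = (Φ.e : R) := by
        obtain ⟨K, j1, j2, hK, σ, v, x, y, P, hP, rfl⟩ := hz
        change Finsupp.linearCombination R (fun _ => (1 : R)) _ = _
        rw [map_sum]
        simp
      have h3 := W.smul_mem (Φ.e : R) h1
      rw [smul_sub, smul_smul] at h3
      rw [h2]
      exact h3
    | zero =>
      rw [map_zero, smul_zero, zero_smul, sub_zero]
      exact W.zero_mem
    | add a b _ _ ha hb =>
      have h1 := W.add_mem ha hb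
      rw [map_add, smul_add, add_smul]
      convert h1 using 1
      abel
    | smul c a _ ha =>
      have h1 := W.smul_mem c ha
      rw [map_smul, smul_comm _ c, smul_eq_mul, mul_smul c (dg a), ← smul_sub]
      exact h1
  rintro z ⟨hz1, hz2⟩
  have hd1 : dg z = 0 := hz2
  have h1 := hB z hz1
  rw [hd1, zero_smul, sub_zero] at h1
  have h2 : ((Φ.e : R) * r) ≠ 0 := by
    have h3 : (Φ.e : R) ≠ 0 := by exact_mod_cast hΦ.pos.ne'
    have h4 : (r : R) ≠ 0 := by exact_mod_cast hr.ne'
    exact mul_ne_zero h3 h4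
  have h3 := W.smul_mem ((Φ.e : R) * r)⁻¹ h1
  rw [smul_smul, inv_mul_cancel₀ h2, one_smul] at h3
  exact h3

end Cor

end Pool.Agent.GTC
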