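import Pool.Agent.GT.Cov
import Pool.Agent.TInc.EmbD

/-!
# Finite coverings of curves: places and divisors
-/

set_option autoImplicit false

noncomputable section

namespace Pool.Agent.GTC

open Pool.Agent.ZCyc Pool.Agent.Dess Pool.Agent.GT Pool.Agent.TInc Module
open scoped Classical

variable {k : Type} [Field k] [IsAlgClosed k] [CharZero k] {K K' : Type} [Field K] [Algebra k K]
  [Field K'] [Algebra k K']

/-- The place below a place: embed `K'` into `Om k` with a place `V` above `w` (`exists_embed`),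
and take the place of `K` below `V` (`TInc.exists_below`). -/
theorem cvr_below (hK : IsCurve k K) (hK' : IsCurve k K') (φ : K →ₐ[k] K') (w : Place k K') :
    ∃ v : Place k K, w.ring.comap (φ : K →+* K') = v.ring := by
  obtain ⟨ι, V, hV⟩ := exists_embed hK' w
  obtain ⟨c, hc⟩ := TInc.exists_below hK V (ι.comp φ)
  refine ⟨c, ?_⟩
  rw [← hc, ← hV]
  rfl

omit [IsAlgClosed k] [CharZero k] in
private theorem cvr_mem {φ : K →ₐ[k] K'} {w : Place k K'}
    {v : Place k K} (h : w.ring.comap (φ : K →+* K') = v.ring) (f : K) :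
    φ f ∈ w.ring ↔ f ∈ v.ring := by
  rw [← h, ValuationSubring.mem_comap]
  rfl

private theorem cvr_zero (hK : IsCurve k K) (hK' : IsCurve k K') (φ : K →ₐ[k] K')
    {w : Place k K'} {v : Place k K} (h : w.ring.comap (φ : K →+* K') = v.ring) {f : K}
    (hf : f ≠ 0) (h0 : ord v f = 0) : ord w (φ f) = 0 := by
  have hf' : φ f ≠ 0 := (map_ne_zero _).mpr hf
  rw [ord_eq_zero_iff hK' hf', ← map_inv₀, cvr_mem h, cvr_mem h]
  exact (ord_eq_zero_iff hK hf).1 h0

private theorem cvr_pos (hK' : IsCurve k K') (φ : K →ₐ[k] K')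
    {w : Place k K'} {v : Place k K} (h : w.ring.comap (φ : K →+* K') = v.ring) {π : K}
    (hπ : IsUnif v π) : 0 < ord w (φ π) := by
  have hf' : φ π ≠ 0 := (map_ne_zero _).mpr hπ.1
  rw [← vanishes_iff_ord hK' hf', Place.vanishes_iff_or, ← map_inv₀, cvr_mem h]
  right
  rcases (v.vanishes_iff_or π).1 hπ.2.1 with h3 | h3
  · exact absurd h3 hπ.1
  · exact h3

/-- The ramification index: `e = ord w (φ π)` for a uniformizer `π` at `v` (`exists_unif`,
`ord_unif`),
which is positive because `φ π` vanishes at `w` (`vanishes_iff_ord`; an element of `K` is in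
`v.ring` if
and only if its image is in `w.ring`); `f / π ^ n` with `n = ord v f` and its inverse are in
`v.ring`
(`ord_hasOrd`, or `mem_iff_ord` for both), so `ord w (φ (f / π ^ n)) = 0`. -/
theorem cvr_ord (hK : IsCurve k K) (hK' : IsCurve k K') (φ : K →ₐ[k] K') {w : Place k K'}
    {v : Place k K} (h : w.ring.comap (φ : K →+* K') = v.ring) :
    ∃ e : ℕ, 0 < e ∧ ∀ f : K, ord w (φ f) = e * ord v f := by
  obtain ⟨π, hπ⟩ := exists_unif hK v
  have hpos := cvr_pos hK' φ h hπ
  refine ⟨(ord w (φ π)).toNat, by omega, fun f => ?_⟩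
  rw [Int.toNat_of_nonneg hpos.le]
  by_cases hf : f = 0
  · rw [hf, map_zero, ord_zero, ord_zero, mul_zero]
  · have hz : π ^ ord v f ≠ 0 := zpow_ne_zero _ hπ.1
    have hu : f / π ^ ord v f ≠ 0 := div_ne_zero hf hz
    have hu0 : ord v (f / π ^ ord v f) = 0 := by
      rw [div_eq_mul_inv, ord_mul hK v hf (inv_ne_zero hz), ord_inv hK, ord_zpow hK,
        ord_unif hK hπ]
      ring
    have h1 := cvr_zero hK hK' φ h hu hu0
    have h2 : φ f = φ (f / π ^ ord v f) * φ π ^ ord v f := by
      rw [← map_zpow₀, ← map_mul, div_mul_cancel₀ _ hz]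
    rw [h2, ord_mul hK' w ((map_ne_zero _).mpr hu)
      (zpow_ne_zero _ ((map_ne_zero _).mpr hπ.1)), h1, zero_add, ord_zpow hK']
    ring

/-- The set of the places above a place is finite (they are zeros of `φ π` for a uniformizer `π` at
`v`,
`finite_ord`). -/
theorem cvr_finite (hK : IsCurve k K) (hK' : IsCurve k K') (φ : K →ₐ[k] K') (v : Place k K) :
    ∃ S : Finset (Place k K'), ∀ w, w ∈ S ↔ w.ring.comap (φ : K →+* K') = v.ring := by
  obtain ⟨π, hπ⟩ := exists_unif hK v
  refine ⟨(finite_ord hK' (φ π)).toFinset.filter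
    fun w => w.ring.comap (φ : K →+* K') = v.ring, fun w => ?_⟩
  rw [Finset.mem_filter, Set.Finite.mem_toFinset]
  refine ⟨fun h => h.2, fun h => ⟨?_, h⟩⟩
  exact ne_of_gt (cvr_pos hK' φ h hπ)

end Pool.Agent.GTC
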