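import Pool.Agent.GTC.ChowP
import Pool.Agent.GTM.DkH

/-!
# Correspondences from families of curves to a projective variety

`X` is a projective variety over the algebraically closed field `k` of characteristic zero, `L` the
function field of a curve `C` over `k`, and `S : y ² = D_m(x, f) + B` a family of curves over `C`, where
`D_m` is the Dickson polynomial, `D_m(w + f / w, f) = w ^ m + (f / w) ^ m`. For `m = 3` this is the general
elliptic curve `y ² = x ³ - 3 f x + B`. A correspondence of degree `e` from `S` to `X` is given by the Chow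
forms of the images of the points `(x, y)`: a form `G(x) + y H(x)` of degree `e` in the variables
`U_0, ..., U_n` which is a product of `e` linear forms `∑ i, p_i U_i`, where `p` is a point of `X`.
-/

set_option autoImplicit false

noncomputable section

namespace Pool.Agent.GTC

open Pool.Agent.ZCyc Pool.Agent.Dess Pool.Agent.GT Pool.Agent.GTM Pool.Agent.TInc
open scoped Classical LinearAlgebra.Projectivization

/-- A family of curves `y ² = D_m(x, f) + B` over the field `L`, and a correspondence of degree `e` from it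
to the projective space, given by the form `G(x) + y H(x)` of degree `e`. -/
structure Cor (L : Type) [Field L] (n : ℕ) where
  /-- the index of the Dickson polynomial -/
  m : ℕ
  /-- the parameter of the Dickson polynomial -/
  f : L
  /-- the constant -/
  B : L
  /-- the degree of the correspondence -/
  e : ℕ
  /-- the Chow form, the part without `y` -/
  G : MvPolynomial (Fin (n + 1)) (Polynomial L)
  /-- the Chow form, the part with `y` -/
  H : MvPolynomial (Fin (n + 1)) (Polynomial L)

namespace Cor

variable {k L : Type} [Field k] [Field L] [Algebra k L] {n : ℕ}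

/-- `(x, y)` is a point of the curve with coordinates in an extension of `L`. -/
def On (Φ : Cor L n) {K : Type} [Field K] (σ : L →+* K) (x y : K) : Prop :=
  y ^ 2 = (Polynomial.dickson 1 (σ Φ.f) Φ.m).eval x + σ Φ.B

/-- the Chow form of the image of the point `(x, y)` -/
def form (Φ : Cor L n) {K : Type} [Field K] (σ : L →+* K) (x y : K) :
    MvPolynomial (Fin (n + 1)) K :=
  Φ.G.map (Polynomial.eval₂RingHom σ x) +
    MvPolynomial.C y * Φ.H.map (Polynomial.eval₂RingHom σ x)

/-- The curve is smooth, and the forms `Φ(x, y)` are homogeneous of degree `e`, not all zero, and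
multiples of Chow forms of `e` points of `X`. -/
structure Ok (Φ : Cor L n) (X : Set (MvPolynomial (Fin (n + 1)) k)) : Prop where
  three : 3 ≤ Φ.m
  disc : Φ.B ^ 2 ≠ 4 * Φ.f ^ Φ.m
  pos : 0 < Φ.e
  homG : Φ.G.IsHomogeneous Φ.e
  homH : Φ.H.IsHomogeneous Φ.e
  ne : Φ.G ≠ 0 ∨ Φ.H ≠ 0
  onX : ∀ (K : Type) [Field K] [Algebra k K] [IsAlgClosed K] (σ : L →ₐ[k] K) (x y : K),
    Φ.On (σ : L →+* K) x y → ∃ (c : K) (P : Fin Φ.e → Pt X K),
      Φ.form (σ : L →+* K) x y = MvPolynomial.C c * pro fun a => (P a).1.rep

/-- `B ² / f ^ m` is not constant. -/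
def NonConst (k : Type) [Field k] [Algebra k L] (Φ : Cor L n) : Prop :=
  Φ.f ≠ 0 ∧ ∀ c : k, Φ.B ^ 2 ≠ algebraMap k L c * Φ.f ^ Φ.m

/-- `B ² / f ^ m` is not constant, or `m = 3` and the elliptic curve has bad reduction at some place. -/
def Good (k : Type) [Field k] [Algebra k L] (Φ : Cor L n) : Prop :=
  Φ.NonConst k ∨ Φ.m = 3 ∧ ∃ δ : Place k L, BadAt δ Φ.f Φ.B

/-- `N + 1 = (m - 2) a + g`, where `g` is the genus of the base curve and `a > 0` the degree of a divisor
`A` with `div f + 4 A ≥ 0` and `div B + 2 m A ≥ 0`. -/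
def Bound [IsAlgClosed k] [CharZero k] (hL : IsCurve k L) (Φ : Cor L n) (N : ℕ) : Prop :=
  ∃ (A : Place k L →₀ ℤ) (a g : ℕ), deg A = a ∧ 0 < a ∧
    (Φ.f ≠ 0 → ∀ v, 0 ≤ ord v Φ.f + 4 * A v) ∧ (Φ.B ≠ 0 → ∀ v, 0 ≤ ord v Φ.B + 2 * Φ.m * A v) ∧
    Riemann hL g ∧ N + 1 = (Φ.m - 2) * a + g

/-- The image under the correspondence of the value of the point `(x, y)` at the place `v` is the
zero-cycle `P_1 + ... + P_e`: the Chow form of the points `P a` is the value at `v` of a multiple of
the form `Φ(x, y)`. -/
structure Val (Φ : Cor L n) (X : Set (MvPolynomial (Fin (n + 1)) k)) {K : Type} [Field K]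
    [Algebra k K] (σ : L →ₐ[k] K) (v : Place k K) (x y : K) (P : Fin Φ.e → Pt X k) : Prop where
  on : Φ.On (σ : L →+* K) x y
  val : ∃ l : K, ∀ s, v.At (l * (Φ.form (σ : L →+* K) x y).coeff s)
    ((pro fun a => (P a).1.rep).coeff s)

section cycles

variable (R : Type) [Field R] (Φ : Cor L n) (X : Set (MvPolynomial (Fin (n + 1)) k))

/-- the images of points -/
def Vls : Set (Pt X k →₀ R) :=
  {z | ∃ (K : Type) (_ : Field K) (_ : Algebra k K) (_ : IsCurve k K) (σ : L →ₐ[k] K)
    (v : Place k K) (x y : K) (P : Fin Φ.e → Pt X k), Φ.Val X σ v x y P ∧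
      z = ∑ a, Finsupp.single (P a) 1}

/-- the differences of the images of two points of one fibre -/
def Dif : Set (Pt X k →₀ R) :=
  {z | ∃ (K : Type) (_ : Field K) (_ : Algebra k K) (_ : IsCurve k K) (σ : L →ₐ[k] K)
    (v : Place k K) (x y x' y' : K) (P P' : Fin Φ.e → Pt X k), Φ.Val X σ v x y P ∧
      Φ.Val X σ v x' y' P' ∧ z = ∑ a, Finsupp.single (P a) 1 - ∑ a, Finsupp.single (P' a) 1}

/-- Let `W + f / W` be the first coordinate of a point of the curve. The other points with the same
coordinate `y` are the points with the first coordinates `x_b = ξ ^ b W + f / (ξ ^ b W)`, where `ξ` is a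
primitive root of unity of the order `m`. The elements of this set are the cycles
`∑ b, ω ^ (- b) Φ(x_b, y)`. -/
def Eig (ξ : k) (ω : R) : Set (Pt X k →₀ R) :=
  {z | ∃ (K : Type) (_ : Field K) (_ : Algebra k K) (_ : IsCurve k K) (σ : L →ₐ[k] K)
    (v : Place k K) (W y : K) (P : Fin Φ.m → Fin Φ.e → Pt X k), W ≠ 0 ∧
    (∀ b : Fin Φ.m, Φ.Val X σ v (algebraMap k K ξ ^ b.val * W +
      σ Φ.f / (algebraMap k K ξ ^ b.val * W)) y (P b)) ∧
    z = ∑ b, ∑ a, Finsupp.single (P b a) (ω ^ b.val)⁻¹}

/-- the images of points, together with the points of the base curve below them -/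
def Prs : Set ((Pt X k →₀ R) × (Place k L →₀ R)) :=
  {w | ∃ (K : Type) (_ : Field K) (_ : Algebra k K) (_ : IsCurve k K) (σ : L →ₐ[k] K)
    (v : Place k K) (c : Place k L) (x y : K) (P : Fin Φ.e → Pt X k),
    v.ring.comap (σ : L →+* K) = c.ring ∧ Φ.Val X σ v x y P ∧
      w = (∑ a, Finsupp.single (P a) 1, Finsupp.single c 1)}

/-- the cycles `∑ a_i Φ(p_i)` such that the divisor `∑ a_i c_i` is a combination of principal divisors,
where `c_i` is the point of the base curve below `p_i` -/
def Ker [CharZero R] [IsAlgClosed k] [CharZero k] (hL : IsCurve k L) :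
    Submodule R (Pt X k →₀ R) :=
  (Submodule.span R (Φ.Prs R X) ⊓ (PrinR R hL).comap (LinearMap.snd R _ _)).map
    (LinearMap.fst R _ _)

/-- the cycles `∑ a_i Φ(p_i)` of degree zero -/
def Deg0 : Submodule R (Pt X k →₀ R) :=
  Submodule.span R (Φ.Vls R X) ⊓ LinearMap.ker (Finsupp.linearCombination R fun _ => (1 : R))

/-- Some multisection has a constant image: there are points `(x i, y i)` of the curve over a finite
extension `K` of `L`, such that the sum of the images of their values at the place `v` is rationally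
equivalent to the same cycle `z₀` for almost all places `v` of `K`. -/
def Sec [CharZero R] : Prop :=
  ∃ (K : Type) (_ : Field K) (_ : Algebra k K) (_ : IsCurve k K) (σ : L →ₐ[k] K)
    (r : ℕ) (x y : Fin r → K) (z₀ : Pt X k →₀ R) (T : Finset (Place k K)), 0 < r ∧
    ∀ v ∉ T, ∃ P : Fin r → Fin Φ.e → Pt X k, (∀ i, Φ.Val X σ v (x i) (y i) (P i)) ∧
      ∑ i, ∑ a, Finsupp.single (P i a) 1 - z₀ ∈ RatR1 R X

/-- The spaces of zero-cycles on `X` given by the correspondence, and their numbers: the eigen-cycles for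
a root of unity `ω ≠ ± 1` of the order dividing `m`, with the number `N`; and the images of the cycles on
the family which have the image zero in the Chow group of the base curve, or - if a multisection has
a constant image - the images of all cycles of degree zero, with the number `[(m - 1) / 2] N`. -/
inductive Piece [CharZero R] [IsAlgClosed k] [CharZero k] (hL : IsCurve k L) (N : ℕ) :
    ℕ → Submodule R (Pt X k →₀ R) → Prop
  | eig (h : Φ.NonConst k) (ξ : k) (hξ : IsPrimitiveRoot ξ Φ.m) (ω : R) (h1 : ω ^ Φ.m = 1)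
      (h2 : ω ^ 2 ≠ 1) : Piece hL N N (Submodule.span R (Φ.Eig R X ξ ω))
  | ker (h : Φ.Good k) : Piece hL N ((Φ.m - 1) / 2 * N) (Φ.Ker R X hL)
  | sec (h : Φ.Good k) (hs : Φ.Sec R X) : Piece hL N ((Φ.m - 1) / 2 * N) (Φ.Deg0 R X)

end cycles

end Cor

end Pool.Agent.GTC
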