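import Pool.Agent.GTC.ChowP

/-!
# Elimination: the equations of the symmetric power which are not homogeneous
-/

set_option autoImplicit false

noncomputable section

namespace Pool.Agent.GTC

open Pool.Agent.ZCyc Pool.Agent.Dess Pool.Agent.GT MvPolynomial
open scoped Classical LinearAlgebra.Projectivization

variable {k : Type} [Field k] {n : ℕ} {X : Set (MvPolynomial (Fin (n + 1)) k)} {e : ℕ}

/-- The homogeneous components of an equation are equations: over the field `RatFunc K` the tuple
`P a` for `a ≠ 0`, `t P 0` (`0 : Fin e`, `0 < e`) satisfies the equations `X` (homogeneous,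
`GT.aeval_smul_homog`) and has the Chow form `t * chw P` (`chw_smul`, `chw_map`), so
`∑ d, t ^ d F_d(chw P) = 0` (`sum_homogeneousComponent`, `GT.aeval_smul_homog`), and the powers of `t`
are linearly independent over `K` (`RatFunc.X` is transcendental: the sum is the image of the polynomial
`∑ d, C (F_d(chw P)) * X ^ d`, and `RatFunc.algebraMap_injective`). -/
theorem ela_comp (hX : Hom X) (he : 0 < e) {F : MvPolynomial (Fin (nx n e + 1)) k}
    (hF : ∀ (K : Type) [Field K] [Algebra k K] (P : Fin e → Fin (n + 1) → K),
      (∀ a, ∀ f ∈ X, aeval (P a) f = 0) → aeval (chw P) F = 0) (d : ℕ) (K : Type) [Field K]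
    [Algebra k K] (P : Fin e → Fin (n + 1) → K) (hP : ∀ a, ∀ f ∈ X, aeval (P a) f = 0) :
    aeval (chw P) (homogeneousComponent d F) = 0 := by
  let A := Polynomial K
  let L := FractionRing A
  let φ : K →ₐ[k] L := IsScalarTower.toAlgHom k K L
  let ψ : A →+* L := algebraMap A L
  have hψ : Function.Injective ψ := IsFractionRing.injective A L
  let t : L := ψ Polynomial.X
  let c : Fin e → L := fun a => if a = ⟨0, he⟩ then t else 1
  have hc : ∏ a, c a = t := by
    rw [Finset.prod_ite_eq' Finset.univ (⟨0, he⟩ : Fin e) (fun _ => t)]
    simp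
  have hmap : ∀ (m : ℕ) (x : Fin (m + 1) → K) (f : MvPolynomial (Fin (m + 1)) k),
      aeval (fun i => φ (x i)) f = φ (aeval x f) := by
    intro m x f
    rw [← AlgHom.comp_apply, comp_aeval]
  have h1 : ∀ a, ∀ f ∈ X, aeval (fun i => c a * φ (P a i)) f = 0 := by
    intro a f hf
    obtain ⟨d', hd'⟩ := hX f hf
    rw [aeval_smul_homog hd' (c a) (fun i => φ (P a i)), hmap, hP a f hf, map_zero, mul_zero]
  have h2 := hF L (fun a i => c a * φ (P a i)) h1
  have h3 : chw (fun a i => c a * φ (P a i)) = fun i => t * φ (chw P i) := by
    rw [chw_smul c (fun a i => φ (P a i)), hc]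
    have := chw_map (φ : K →+* L) P
    funext i
    have h4 := congrFun this i
    simp only [RingHom.coe_coe] at h4
    rw [← h4]
  rw [h3] at h2
  let p : A := ∑ j ∈ Finset.range (F.totalDegree + 1),
    Polynomial.C (aeval (chw P) (homogeneousComponent j F)) * Polynomial.X ^ j
  have h5 : ψ p = 0 := by
    rw [← h2]
    conv_rhs => rw [← sum_homogeneousComponent F]
    rw [map_sum, map_sum]
    refine Finset.sum_congr rfl fun j _ => ?_
    rw [aeval_smul_homog (homogeneousComponent_isHomogeneous j F) t (fun i => φ (chw P i)), hmap,
      map_mul, map_pow, mul_comm]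
    rfl
  have h6 : p = 0 := hψ (by rw [h5, map_zero])
  by_cases hd : d < F.totalDegree + 1
  · have h7 : Polynomial.coeff p d = 0 := by rw [h6, Polynomial.coeff_zero]
    have h8 : Polynomial.coeff p d = ∑ j ∈ Finset.range (F.totalDegree + 1),
        (aeval (chw P) (homogeneousComponent j F)) * (if d = j then 1 else 0) := by
      rw [Polynomial.finsetSum_coeff]
      exact Finset.sum_congr rfl fun j _ => by rw [Polynomial.coeff_C_mul, Polynomial.coeff_X_pow]
    rw [h8, Finset.sum_eq_single d (fun b _ hb => by rw [if_neg (Ne.symm hb), mul_zero])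
      (fun h => absurd (Finset.mem_range.mpr hd) h), if_pos rfl, mul_one] at h7
    exact h7
  · rw [homogeneousComponent_eq_zero d F (by omega), map_zero]

/-- All polynomials which vanish at all Chow forms vanish at all points of the symmetric power. Proof:
`F` is the sum of its homogeneous components (`sum_homogeneousComponent`). The components of degree
`d > 0` are in `Sy X e` by `ela_comp`. The component of degree zero is a constant. It is zero if there is
any tuple `P` over any field (`ela_comp`). If there is no tuple then all variables are in `Sy X e`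
(`isHomogeneous_X`), so that all coordinates of `Q` are zero, a contradiction to `rep_nonzero`. -/
theorem ela_all (hX : Hom X) (he : 0 < e) {F : MvPolynomial (Fin (nx n e + 1)) k}
    (hF : ∀ (K : Type) [Field K] [Algebra k K] (P : Fin e → Fin (n + 1) → K),
      (∀ a, ∀ f ∈ X, aeval (P a) f = 0) → aeval (chw P) F = 0) {K : Type} [Field K] [Algebra k K]
    (Q : Pt (Sy X e) K) : aeval Q.1.rep F = 0 := by
  have h1 : ∀ d, aeval Q.1.rep (homogeneousComponent d F) = 0 := by
    intro d
    rcases Nat.eq_zero_or_pos d with rfl | hd
    · by_cases h : ∃ (K' : Type) (_ : Field K') (_ : Algebra k K') (P : Fin e → Fin (n + 1) → K'),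
        ∀ a, ∀ f ∈ X, aeval (P a) f = 0
      · obtain ⟨K', _, _, P, hP⟩ := h
        have h2 := ela_comp hX he hF 0 K' P hP
        rw [homogeneousComponent_zero, aeval_C] at h2
        have h3 : coeff 0 F = 0 := by
          have := (algebraMap k K').injective
          exact this (by rw [h2, map_zero])
        rw [homogeneousComponent_zero, h3, C_0, map_zero]
      · exfalso
        apply Q.1.rep_nonzero
        funext i
        have hi : (MvPolynomial.X i : MvPolynomial (Fin (nx n e + 1)) k) ∈ Sy X e := by
          refine ⟨⟨1, one_pos, isHomogeneous_X _ i⟩, ?_⟩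
          intro K' _ _ P hP
          exact absurd ⟨K', _, _, P, hP⟩ h
        have := Q.2 _ hi
        rw [aeval_X] at this
        exact this
    · refine Q.2 _ ⟨⟨d, hd, homogeneousComponent_isHomogeneous d F⟩, ?_⟩
      intro K' _ _ P hP
      exact ela_comp hX he hF d K' P hP
  conv_lhs => rw [← sum_homogeneousComponent F]
  rw [map_sum]
  exact Finset.sum_eq_zero fun j _ => h1 j

end Pool.Agent.GTC
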