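import Mathlib

/-!
# Elimination: a valuation ring
-/

set_option autoImplicit false

noncomputable section

namespace Pool.Agent.GTC

open MvPolynomial
open scoped Classical

variable {k : Type} [Field k]

/-- A valuation ring. Let `y` be a vector in a field `K`, `x` a tuple in a field `F'` such that all
polynomials `G` with `G(z) = 0` satisfy `G(y) = 0`. Then there is a valuation ring `V` of `F'` which
contains all `G(z)`, and `G(z)` is in the maximal ideal if and only if `G(y) = 0`. Proof: let `p` be the
kernel of `aeval y` (prime). `aeval z` maps the complement of `p` to nonzero elements, i.e. units, of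
`F'`, so it extends to `Localization.AtPrime p →+* F'` (`IsLocalization.lift`), and
`IsLocalRing.exists_factor_valuationRing` gives `V`. `G(z)` is the image of the element `G` of the local
ring, which is a unit if and only if `G ∉ p` (`IsLocalization.AtPrime.isUnit_to_map_iff`), and the
homomorphism to `V` is local. -/
theorem elb_val {K : Type} [Field K] [Algebra k K] {F' : Type} [Field F'] [Algebra k F'] {ι : Type}
    (y : ι → K) (z : ι → F') (h : ∀ G : MvPolynomial ι k, aeval z G = 0 → aeval y G = 0) :
    ∃ V : ValuationSubring F', (∀ G : MvPolynomial ι k, aeval z G ∈ V) ∧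
      ∀ G : MvPolynomial ι k, aeval z G ∈ V.nonunits ↔ aeval y G = 0 := by
  let p : Ideal (MvPolynomial ι k) := RingHom.ker (aeval y : MvPolynomial ι k →ₐ[k] K).toRingHom
  have hp : p.IsPrime := RingHom.ker_isPrime _
  have hmem : ∀ G : MvPolynomial ι k, G ∈ p ↔ aeval y G = 0 := fun G => RingHom.mem_ker
  have hunit : ∀ G : p.primeCompl,
      IsUnit ((aeval z : MvPolynomial ι k →ₐ[k] F').toRingHom (G : MvPolynomial ι k)) := by
    intro G
    rw [isUnit_iff_ne_zero]
    intro h0
    exact G.2 ((hmem _).2 (h _ h0))
  let f : Localization.AtPrime p →+* F' := IsLocalization.lift (M := p.primeCompl) hunit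
  have hf : ∀ G : MvPolynomial ι k,
      f (algebraMap (MvPolynomial ι k) (Localization.AtPrime p) G) = aeval z G := by
    intro G
    exact IsLocalization.lift_eq (M := p.primeCompl) hunit G
  obtain ⟨V, hV, hloc⟩ := IsLocalRing.exists_factor_valuationRing f
  have hin : ∀ G : MvPolynomial ι k, aeval z G ∈ V := by
    intro G
    rw [← hf G]
    exact hV _
  refine ⟨V, hin, fun G => ?_⟩
  have e1 : (aeval z G : F') = ((f.codRestrict V.toSubring hV)
      (algebraMap (MvPolynomial ι k) (Localization.AtPrime p) G) : V) := (hf G).symm
  rw [e1]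
  have e2 := ValuationSubring.coe_mem_nonunits_iff (A := V)
    (a := (f.codRestrict V.toSubring hV)
      (algebraMap (MvPolynomial ι k) (Localization.AtPrime p) G))
  rw [e2, IsLocalRing.mem_maximalIdeal, mem_nonunits_iff, ← hmem G]
  constructor
  · intro h1
    by_contra h2
    apply h1
    have h3 : IsUnit (algebraMap (MvPolynomial ι k) (Localization.AtPrime p) G) :=
      (IsLocalization.AtPrime.isUnit_to_map_iff (Localization.AtPrime p) p G).2 h2
    exact h3.map (f.codRestrict V.toSubring hV)
  · intro h1 h2
    have h3 : IsUnit (algebraMap (MvPolynomial ι k) (Localization.AtPrime p) G) :=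
      hloc.map_nonunit _ h2
    exact (IsLocalization.AtPrime.isUnit_to_map_iff (Localization.AtPrime p) p G).1 h3 h1

end Pool.Agent.GTC
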