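import Pool.Agent.GTC.ElB1
import Pool.Agent.GTC.ElB2

/-!
# Elimination: a prime ideal and a valuation ring
-/

set_option autoImplicit false

noncomputable section

namespace Pool.Agent.GTC

open Pool.Agent.ZCyc Pool.Agent.Dess Pool.Agent.GT MvPolynomial
open scoped Classical LinearAlgebra.Projectivization

variable {k : Type} [Field k] {n : ℕ} {X : Set (MvPolynomial (Fin (n + 1)) k)} {e : ℕ}

/-- `elb_prime` and `elb_val` for `F' = FractionRing (MvPolynomial (Fin e × Fin (n + 1)) k ⧸ q)`, `x` the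
images of the variables, `z = chw x`. -/
theorem elb_main (hX : Hom X) (he : 0 < e) {K : Type} [Field K] [Algebra k K]
    (Q : Pt (Sy X e) K) : ∃ (F' : Type) (_ : Field F') (_ : Algebra k F')
      (x : Fin e → Fin (n + 1) → F') (V : ValuationSubring F'),
      (∀ a, ∀ f ∈ X, aeval (x a) f = 0) ∧
      (∀ G : MvPolynomial (Fin (nx n e + 1)) k, aeval (chw x) G ∈ V) ∧
      ∀ G : MvPolynomial (Fin (nx n e + 1)) k,
        aeval (chw x) G ∈ V.nonunits ↔ aeval Q.1.rep G = 0 := by
  obtain ⟨q, hq, hqX, hqF⟩ := elb_prime hX he Q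
  let π : MvPolynomial (Fin e × Fin (n + 1)) k →ₐ[k]
      FractionRing (MvPolynomial (Fin e × Fin (n + 1)) k ⧸ q) :=
    (IsScalarTower.toAlgHom k (MvPolynomial (Fin e × Fin (n + 1)) k ⧸ q)
      (FractionRing (MvPolynomial (Fin e × Fin (n + 1)) k ⧸ q))).comp (Ideal.Quotient.mkₐ k q)
  have hπ : ∀ G, π G = 0 ↔ G ∈ q := by
    intro G
    have h1 : π G = algebraMap (MvPolynomial (Fin e × Fin (n + 1)) k ⧸ q)
        (FractionRing (MvPolynomial (Fin e × Fin (n + 1)) k ⧸ q)) (Ideal.Quotient.mk q G) := rfl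
    rw [h1, ← Ideal.Quotient.eq_zero_iff_mem]
    exact map_eq_zero_iff _ (IsFractionRing.injective _ _)
  let x : Fin e → Fin (n + 1) → FractionRing (MvPolynomial (Fin e × Fin (n + 1)) k ⧸ q) :=
    fun a i => π (gco k n e a i)
  have hch : ∀ G : MvPolynomial (Fin (nx n e + 1)) k,
      aeval (chw x) G = π (aeval (chw (gco k n e)) G) := by
    intro G
    rw [comp_aeval_apply]
    have h3 := chw_map (π : MvPolynomial (Fin e × Fin (n + 1)) k →+*
      FractionRing (MvPolynomial (Fin e × Fin (n + 1)) k ⧸ q)) (gco k n e)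
    have h4 : (fun a i => (π : MvPolynomial (Fin e × Fin (n + 1)) k →+*
        FractionRing (MvPolynomial (Fin e × Fin (n + 1)) k ⧸ q)) (gco k n e a i)) = x := rfl
    rw [h4] at h3
    rw [h3]
    rfl
  obtain ⟨V, hV1, hV2⟩ := elb_val (k := k) Q.1.rep (chw x) fun G hG => by
    rw [hch] at hG
    exact hqF G ((hπ _).1 hG)
  refine ⟨FractionRing (MvPolynomial (Fin e × Fin (n + 1)) k ⧸ q), inferInstance, inferInstance,
    x, V, fun a f hf => ?_, hV1, hV2⟩
  have h1 : aeval (x a) f = π (aeval (gco k n e a) f) := by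
    rw [comp_aeval_apply]
  rw [h1]
  exact (hπ _).2 (hqX a f hf)

end Pool.Agent.GTC
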