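import Pool.Agent.GTC.ElA

/-!
# Elimination: a prime ideal
-/

set_option autoImplicit false

noncomputable section

namespace Pool.Agent.GTC

open Pool.Agent.ZCyc Pool.Agent.Dess Pool.Agent.GT MvPolynomial
open scoped Classical LinearAlgebra.Projectivization

variable {k : Type} [Field k] {n : ℕ} {X : Set (MvPolynomial (Fin (n + 1)) k)} {e : ℕ}

/-- the coordinates of the general tuple -/
def gco (k : Type) [Field k] (n e : ℕ) (a : Fin e) (i : Fin (n + 1)) :
    MvPolynomial (Fin e × Fin (n + 1)) k := MvPolynomial.X (a, i)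

/-- There is a prime ideal `q` of the polynomial ring in the coordinates of `e` points which contains
the equations of `X` for every point, such that all `F` with `F(chw(gco)) ∈ q` vanish at `Q`. Proof:
let `p` be the kernel of `aeval Q.1.rep`, a prime ideal, `M` the image of the submonoid `p.primeCompl`
under `aeval (chw gco)`, and `J` the ideal spanned by all `aeval (gco a) f`. `J` and `M` are disjoint: if
`aeval (chw gco) F ∈ J` then `F` vanishes at the Chow forms of all tuples `P` with `f(P a) = 0` (apply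
`aeval fun (a, i) => P a i`, which maps `J` to zero and `chw gco` to `chw P`, by `chw_map`), so
`F ∈ p` by `ela_all`. Now `Ideal.exists_le_prime_disjoint`. -/
theorem elb_prime (hX : Hom X) (he : 0 < e) {K : Type} [Field K] [Algebra k K]
    (Q : Pt (Sy X e) K) : ∃ q : Ideal (MvPolynomial (Fin e × Fin (n + 1)) k), q.IsPrime ∧
      (∀ a, ∀ f ∈ X, aeval (gco k n e a) f ∈ q) ∧
      ∀ F : MvPolynomial (Fin (nx n e + 1)) k, aeval (chw (gco k n e)) F ∈ q →
        aeval Q.1.rep F = 0 := by
  let φ : MvPolynomial (Fin (nx n e + 1)) k →ₐ[k] MvPolynomial (Fin e × Fin (n + 1)) k :=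
    aeval (chw (gco k n e))
  let p : Ideal (MvPolynomial (Fin (nx n e + 1)) k) :=
    RingHom.ker (aeval Q.1.rep : MvPolynomial (Fin (nx n e + 1)) k →ₐ[k] K)
  have hp : p.IsPrime := RingHom.ker_isPrime _
  let J : Ideal (MvPolynomial (Fin e × Fin (n + 1)) k) :=
    Ideal.span {G | ∃ a, ∃ f ∈ X, G = aeval (gco k n e a) f}
  let M : Submonoid (MvPolynomial (Fin e × Fin (n + 1)) k) :=
    p.primeCompl.map (φ : MvPolynomial (Fin (nx n e + 1)) k →*
      MvPolynomial (Fin e × Fin (n + 1)) k)
  have hdisj : Disjoint (J : Set (MvPolynomial (Fin e × Fin (n + 1)) k)) M := by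
    rw [Set.disjoint_left]
    rintro G hG ⟨F, hF, rfl⟩
    apply hF
    change aeval Q.1.rep F = 0
    refine ela_all hX he (fun K' _ _ P hP => ?_) Q
    let ψ : MvPolynomial (Fin e × Fin (n + 1)) k →ₐ[k] K' := aeval fun x => P x.1 x.2
    have hψ : ∀ a i, ψ (gco k n e a i) = P a i := fun a i => aeval_X _ _
    have h1 : J ≤ RingHom.ker ψ := by
      refine Ideal.span_le.2 ?_
      rintro _ ⟨a, f, hf, rfl⟩
      change ψ (aeval (gco k n e a) f) = 0
      rw [comp_aeval_apply]
      have h2 : (fun i => ψ (gco k n e a i)) = P a := funext fun i => hψ a i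
      rw [h2]
      exact hP a f hf
    have h2 : ψ (aeval (chw (gco k n e)) F) = 0 := h1 hG
    rw [comp_aeval_apply] at h2
    have h3 := chw_map (ψ : MvPolynomial (Fin e × Fin (n + 1)) k →+* K') (gco k n e)
    have h4 : (fun a i => (ψ : MvPolynomial (Fin e × Fin (n + 1)) k →+* K')
        (gco k n e a i)) = P := by
      funext a i
      exact hψ a i
    rw [h4] at h3
    rw [h3]
    exact h2
  obtain ⟨q, hq, hJ, hM⟩ := Ideal.exists_le_prime_disjoint J M hdisj
  refine ⟨q, hq, fun a f hf => hJ (Ideal.subset_span ⟨a, f, hf, rfl⟩), fun F hF => ?_⟩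
  by_contra h
  exact Set.disjoint_left.1 hM hF ⟨F, h, rfl⟩

end Pool.Agent.GTC
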