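import Mathlib

/-!
# Forms and their coefficients
-/

set_option autoImplicit false

noncomputable section

namespace Pool.Agent.GTC

open MvPolynomial
open scoped Classical

/-- the exponents of the monomials of degree `e` in `n + 1` variables -/
def exS (n e : ℕ) : Finset (Fin (n + 1) →₀ ℕ) := Finset.univ.finsuppAntidiag e

/-- `Finset.mem_finsuppAntidiag`; the support is always in `univ`. -/
theorem mem_exS {n e : ℕ} {s : Fin (n + 1) →₀ ℕ} : s ∈ exS n e ↔ ∑ i, s i = e := by
  unfold exS
  rw [Finset.mem_finsuppAntidiag]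
  exact ⟨fun h => h.1, fun h => ⟨h, Finset.subset_univ _⟩⟩

/-- the number of the monomials, minus one -/
def nx (n e : ℕ) : ℕ := (exS n e).card - 1

/-- there is at least one monomial: `Finsupp.single 0 e` -/
theorem card_exS (n e : ℕ) : (exS n e).card = nx n e + 1 := by
  have h : 0 < (exS n e).card := by
    rw [Finset.card_pos]
    refine ⟨Finsupp.single 0 e, mem_exS.2 ?_⟩
    rw [Finset.sum_eq_single 0]
    · simp
    · intro b _ hb
      rw [Finsupp.single_apply, if_neg hb.symm]
    · intro h
      exact absurd (Finset.mem_univ _) h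
  unfold nx
  omega

/-- the enumeration of the exponents -/
def exq (n e : ℕ) : {s // s ∈ exS n e} ≃ Fin (nx n e + 1) :=
  Finset.equivFinOfCardEq (card_exS n e)

/-- the exponent with the given number -/
def exn {n e : ℕ} (i : Fin (nx n e + 1)) : Fin (n + 1) →₀ ℕ := ((exq n e).symm i).1

theorem exn_sum {n e : ℕ} (i : Fin (nx n e + 1)) : ∑ j, (exn i) j = e :=
  mem_exS.1 ((exq n e).symm i).2

/-- every exponent of degree `e` has a number: `exq n e ⟨s, _⟩` -/
theorem exists_exn {n e : ℕ} {s : Fin (n + 1) →₀ ℕ} (hs : ∑ j, s j = e) :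
    ∃ i : Fin (nx n e + 1), exn i = s := by
  refine ⟨exq n e ⟨s, mem_exS.2 hs⟩, ?_⟩
  unfold exn
  rw [Equiv.symm_apply_apply]

theorem exn_injective {n e : ℕ} : Function.Injective (exn (n := n) (e := e)) := by
  intro i j h
  exact (exq n e).symm.injective (Subtype.ext h)

section

variable {A : Type} [CommRing A] {n e : ℕ}

/-- the coefficients of a form of degree `e` -/
def cf (F : MvPolynomial (Fin (n + 1)) A) (i : Fin (nx n e + 1)) : A := F.coeff (exn i)

/-- the form with the given coefficients -/
def fm (y : Fin (nx n e + 1) → A) : MvPolynomial (Fin (n + 1)) A := ∑ i, monomial (exn i) (y i)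

/-- `coeff_sum`, `coeff_monomial`, `exn_injective` -/
theorem cf_fm (y : Fin (nx n e + 1) → A) : cf (fm y) = y := by
  funext i
  unfold cf fm
  rw [coeff_sum, Finset.sum_eq_single i]
  · rw [coeff_monomial, if_pos rfl]
  · intro j _ hj
    rw [coeff_monomial, if_neg fun h => hj (exn_injective h)]
  · intro h
    exact absurd (Finset.mem_univ _) h

/-- `IsHomogeneous.sum`, `isHomogeneous_monomial`, `exn_sum` -/
theorem fm_hom (y : Fin (nx n e + 1) → A) : (fm y).IsHomogeneous e := by
  refine IsHomogeneous.sum _ _ _ fun i _ => isHomogeneous_monomial _ ?_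
  rw [Finsupp.degree_eq_sum]
  exact exn_sum i

/-- A homogeneous polynomial of degree `e` is given by its coefficients: compare the coefficients of
`s`; if `∑ s j = e` then `exists_exn`, otherwise both are zero (`IsHomogeneous.coeff_eq_zero`). -/
theorem cf_inj {F F' : MvPolynomial (Fin (n + 1)) A} (hF : F.IsHomogeneous e)
    (hF' : F'.IsHomogeneous e) (h : cf (e := e) F = cf F') : F = F' := by
  ext s
  by_cases hs : ∑ j, s j = e
  · obtain ⟨i, rfl⟩ := exists_exn hs
    exact congrFun h i
  · have hd : s.degree ≠ e := by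
      rw [Finsupp.degree_eq_sum]
      exact hs
    rw [hF.coeff_eq_zero hd, hF'.coeff_eq_zero hd]

theorem fm_cf {F : MvPolynomial (Fin (n + 1)) A} (hF : F.IsHomogeneous e) :
    fm (cf (e := e) F) = F :=
  cf_inj (fm_hom _) hF (cf_fm _)

theorem cf_smul (c : A) (F : MvPolynomial (Fin (n + 1)) A) :
    cf (e := e) (C c * F) = fun i => c * cf F i := by
  funext i
  unfold cf
  rw [coeff_C_mul]

theorem cf_map {A' : Type} [CommRing A'] (φ : A →+* A') (F : MvPolynomial (Fin (n + 1)) A) :
    cf (e := e) (F.map φ) = fun i => φ (cf F i) := by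
  funext i
  unfold cf
  rw [coeff_map]

/-- a nonzero form has a nonzero coefficient: `cf_inj` with `F' = 0` -/
theorem cf_ne {F : MvPolynomial (Fin (n + 1)) A} (hF : F.IsHomogeneous e) (h : F ≠ 0) :
    cf (e := e) F ≠ 0 := by
  intro h0
  apply h
  refine cf_inj hF (isHomogeneous_zero _ _ _) ?_
  rw [h0]
  funext i
  unfold cf
  rw [coeff_zero]
  rfl

end

end Pool.Agent.GTC
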