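import Pool.Agent.GTM.CoC
import Pool.Agent.GTM.CoF
import Pool.Agent.GTM.MainA

/-!
# Elements of the group algebra of the symmetric group and several spaces of cycles
-/

set_option autoImplicit false

noncomputable section

namespace Pool.Agent.GTC

open Pool.Agent.ZCyc Pool.Agent.Dess Pool.Agent.GT Pool.Agent.GTM Pool.Agent.ZIso
open scoped Classical LinearAlgebra.Projectivization

variable {R : Type} [Field R] [CharZero R] {k : Type} [Field k] [IsAlgClosed k] [CharZero k]
  {m : ℕ} {X : Set (MvPolynomial (Fin (m + 1)) k)}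

/-- The space `W` of cycles has the property that the alternating sums of the products of `M + 1` cycles
in `W` are rationally equivalent to zero. -/
def AltP (M : ℕ) (W : Submodule R (Pt X k →₀ R)) : Prop :=
  ∀ w : Fin (M + 1) → (Pt X k →₀ R), (∀ j, w j ∈ W) → altR w ∈ RatR R X (Fin (M + 1))

/-- The cycles which are rationally equivalent to zero can be added to the space. Proof: `altR_span` with
`G = W` (`Submodule.span_eq`). -/
theorem AltP.sup (hX : Hom X) {M : ℕ} {W : Submodule R (Pt X k →₀ R)} (h : AltP M W) :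
    AltP M (W ⊔ RatR1 R X) := by
  intro w hw
  refine altR_span hX (W : Set (Pt X k →₀ R)) (fun z hz => h z hz) w fun j => ?_
  rw [Submodule.span_eq]
  exact hw j

theorem AltP.mono {M : ℕ} {W W' : Submodule R (Pt X k →₀ R)} (h : AltP M W) (hW : W' ≤ W) :
    AltP M W' := fun w hw => h w fun j => hW (hw j)

/-- The sign kills the tensors: for `w : Fin (M + 1) → Fin M` there are `a ≠ b` with `w a = w b`, and
`τ ↦ swap a b * τ` is an involution of the set of all `τ` with `w ∘ τ = w'` which changes the sign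
(`Finset.sum_involution`). -/
theorem kills_sign (R : Type) [Field R] (M : ℕ) : KillsTensors M
    fun τ : Equiv.Perm (Fin (M + 1)) => ((Equiv.Perm.sign τ : ℤ) : R) := by
  intro w w'
  obtain ⟨a, b, hab, hw⟩ := Fintype.exists_ne_map_eq_of_card_lt w (by simp)
  refine Finset.sum_involution (fun τ _ => Equiv.swap a b * τ) ?_ ?_ ?_ ?_
  · intro τ _
    rw [Equiv.Perm.sign_mul, Equiv.Perm.sign_swap hab]
    push_cast
    ring
  · intro τ _ _ h
    have h1 : Equiv.swap a b = 1 := mul_eq_right.1 h
    exact hab (Equiv.swap_eq_one_iff.1 h1)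
  · intro τ hτ
    rw [Finset.mem_filter] at hτ ⊢
    refine ⟨Finset.mem_univ _, ?_⟩
    rw [← hτ.2]
    funext x
    change w (Equiv.swap a b (τ x)) = w (τ x)
    rcases eq_or_ne (τ x) a with h | h
    · rw [h, Equiv.swap_apply_left, hw]
    · rcases eq_or_ne (τ x) b with h' | h'
      · rw [h', Equiv.swap_apply_right, hw]
      · rw [Equiv.swap_apply_of_ne_of_ne h h']
  · intro τ _
    rw [← mul_assoc, Equiv.swap_mul_self, one_mul]

omit [CharZero R] [IsAlgClosed k] [CharZero k] in
private theorem kla_fix {r : ℕ} {J : Finset (Fin r)} {π : Equiv.Perm (Fin r)} :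
    π ∈ fixing J ↔ ∀ i ∉ J, π i = i := by
  simp [fixing]

/-- The alternating sum over the permutations of `J'`, composed with a permutation. -/
private theorem kla_inner {r : ℕ} {J' : Finset (Fin r)}
    (u : Fin r → (Pt X k →₀ R))
    (h : ∑ ρ ∈ fixing J', ((Equiv.Perm.sign ρ : ℤ) : R) • extR (u ∘ ⇑ρ) ∈ RatR R X (Fin r))
    (π : Equiv.Perm (Fin r)) :
    ∑ ρ ∈ fixing J', ((Equiv.Perm.sign ρ : ℤ) : R) • extR (u ∘ ⇑(ρ * π)) ∈
      RatR R X (Fin r) := by
  have h1 := extR_perm_rat _ h π
  have h2 : Finsupp.mapDomain (fun (x : Fin r → Pt X k) j => x (π j))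
      (∑ ρ ∈ fixing J', ((Equiv.Perm.sign ρ : ℤ) : R) • extR (u ∘ ⇑ρ)) =
      ∑ ρ ∈ fixing J', ((Equiv.Perm.sign ρ : ℤ) : R) • extR (u ∘ ⇑(ρ * π)) := by
    rw [← Finsupp.lmapDomain_apply R R, map_sum]
    refine Finset.sum_congr rfl fun ρ _ => ?_
    rw [map_smul, Finsupp.lmapDomain_apply, ← extR_perm]
    rfl
  rwa [h2] at h1

/-- The alternating sum over the permutations of `J`, from the one for `J' ⊆ J`. -/
private theorem kla_outer {r : ℕ} {J J' : Finset (Fin r)} (hJ : J' ⊆ J)
    (u : Fin r → (Pt X k →₀ R))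
    (h : ∑ ρ ∈ fixing J', ((Equiv.Perm.sign ρ : ℤ) : R) • extR (u ∘ ⇑ρ) ∈ RatR R X (Fin r)) :
    ∑ π ∈ fixing J, ((Equiv.Perm.sign π : ℤ) : R) • extR (u ∘ ⇑π) ∈ RatR R X (Fin r) := by
  set S := ∑ π ∈ fixing J, ((Equiv.Perm.sign π : ℤ) : R) • extR (u ∘ ⇑π) with hS
  have h1 : ∀ ρ ∈ fixing J', ∑ π ∈ fixing J, ((Equiv.Perm.sign π : ℤ) : R) •
      (((Equiv.Perm.sign ρ : ℤ) : R) • extR (u ∘ ⇑(ρ * π))) = S := by
    intro ρ hρ
    rw [kla_fix] at hρ
    have hρ' : ∀ i ∉ J, ρ i = i := fun i hi => hρ i fun h => hi (hJ h)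
    rw [hS]
    refine Finset.sum_bij (fun π _ => ρ * π) ?_ ?_ ?_ ?_
    · intro π hπ
      rw [kla_fix] at hπ ⊢
      intro i hi
      rw [Equiv.Perm.mul_apply, hπ i hi, hρ' i hi]
    · intro π _ π' _ h
      exact mul_left_cancel h
    · intro π hπ
      rw [kla_fix] at hπ
      refine ⟨ρ⁻¹ * π, ?_, mul_inv_cancel_left ρ π⟩
      rw [kla_fix]
      intro i hi
      rw [Equiv.Perm.mul_apply, hπ i hi, Equiv.Perm.inv_eq_iff_eq, hρ' i hi]
    · intro π _
      rw [smul_smul, Equiv.Perm.sign_mul]
      push_cast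
      rw [mul_comm]
  have h2 : ((fixing J').card : R) • S ∈ RatR R X (Fin r) := by
    have h3 : ((fixing J').card : R) • S = ∑ π ∈ fixing J, ((Equiv.Perm.sign π : ℤ) : R) •
        ∑ ρ ∈ fixing J', ((Equiv.Perm.sign ρ : ℤ) : R) • extR (u ∘ ⇑(ρ * π)) := by
      simp_rw [Finset.smul_sum]
      rw [Finset.sum_comm, Finset.sum_congr rfl h1, Finset.sum_const, Nat.cast_smul_eq_nsmul]
    rw [h3]
    exact Submodule.sum_mem _ fun π _ => Submodule.smul_mem _ _ (kla_inner u h π)
  have h3 : ((fixing J').card : R) ≠ 0 := by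
    rw [Nat.cast_ne_zero, Finset.card_ne_zero]
    exact ⟨1, kla_fix.2 fun _ _ => rfl⟩
  exact (Submodule.smul_mem_iff _ h3).1 h2

/-- The alternating sum over a set `J` with `(∑ i, M i) + 1` elements. -/
private theorem kla_alt (hX : Hom X) {s : ℕ} (M : Fin s → ℕ)
    (W : Fin s → Submodule R (Pt X k →₀ R)) (h0 : ∀ i, AltP (M i) (W i))
    {r : ℕ} {J : Finset (Fin r)} (hJ : J.card = (∑ i, M i) + 1) :
    ∀ (T : Finset (Fin r)) (u : Fin r → (Pt X k →₀ R)), (∀ j, u j ∈ ⨆ i, W i) →
      (∀ j ∉ T, ∃ i, u j ∈ W i) →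
      ∑ π ∈ fixing J, ((Equiv.Perm.sign π : ℤ) : R) • extR (u ∘ ⇑π) ∈ RatR R X (Fin r) := by
  obtain ⟨F, hF⟩ := extR_linear R (Pt X k) r
  set G : MultilinearMap R (fun _ : Fin r => Pt X k →₀ R) ((Fin r → Pt X k) →₀ R) :=
    ∑ π ∈ fixing J, ((Equiv.Perm.sign π : ℤ) : R) • F.domDomCongr π with hG
  have hGu : ∀ u : Fin r → (Pt X k →₀ R),
      ∑ π ∈ fixing J, ((Equiv.Perm.sign π : ℤ) : R) • extR (u ∘ ⇑π) = G u := by
    intro u
    rw [hG, sum_apply]
    refine Finset.sum_congr rfl fun π _ => ?_
    rw [smul_apply, MultilinearMap.domDomCongr_apply, hF]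
    rfl
  intro T
  induction T using Finset.induction_on with
  | empty =>
    intro u _ hu
    choose i hi using fun j => hu j (Finset.notMem_empty j)
    obtain ⟨y, hy⟩ : ∃ y : Fin s, M y + 1 ≤ (J.filter fun j => i j = y).card := by
      by_contra hcon
      push Not at hcon
      have h1 := Finset.card_eq_sum_card_fiberwise (s := J)
        (t := (Finset.univ : Finset (Fin s))) (f := i) (fun _ _ => Finset.mem_univ _)
      have h2 : ∑ y : Fin s, (J.filter fun j => i j = y).card ≤ ∑ y, M y :=
        Finset.sum_le_sum fun y _ => Nat.lt_succ_iff.1 (hcon y)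
      omega
    obtain ⟨J', hJ', hc⟩ := Finset.exists_subset_card_eq hy
    have hsub : J' ⊆ J := hJ'.trans (Finset.filter_subset _ _)
    refine kla_outer hsub u (fixing_extR hX (N := M y + 1) hc u ?_)
    have h1 := h0 y (fun a => u ((J'.orderIsoOfFin hc).toEquiv a : Fin r)) fun a => by
      have h1 := hJ' ((J'.orderIsoOfFin hc).toEquiv a).2
      rw [Finset.mem_filter] at h1
      have h2 := hi ((J'.orderIsoOfFin hc).toEquiv a : Fin r)
      rwa [h1.2] at h2
    unfold altR at h1
    simpa only [Int.cast_smul_eq_zsmul] using h1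
  | insert a T _ ih =>
    intro u hu hT
    have h1 : ∀ x ∈ ⨆ i, W i, G (Function.update u a x) ∈ RatR R X (Fin r) := by
      intro x hx
      refine Submodule.iSup_induction' W
        (motive := fun x _ => G (Function.update u a x) ∈ RatR R X (Fin r)) ?_ ?_ ?_ hx
      · intro i x hx
        rw [← hGu]
        refine ih _ (fun j => ?_) fun j hj => ?_
        · by_cases hja : j = a
          · rw [hja, Function.update_self]
            exact Submodule.mem_iSup_of_mem i hx
          · rw [Function.update_of_ne hja]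
            exact hu j
        · by_cases hja : j = a
          · rw [hja, Function.update_self]
            exact ⟨i, hx⟩
          · rw [Function.update_of_ne hja]
            exact hT j fun h => (Finset.mem_insert.1 h).elim hja hj
      · rw [MultilinearMap.map_update_zero]
        exact Submodule.zero_mem _
      · intro x y _ _ hx hy
        rw [MultilinearMap.map_update_add]
        exact Submodule.add_mem _ hx hy
    rw [hGu]
    have h2 := h1 (u a) (hu a)
    rwa [Function.update_eq_self] at h2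

/-- `kill_extR` (`GTM/CoD.lean`) with different numbers `M i` for the different spaces. The proof is the
same: in `alt_zero` the set `J` has `(∑ i, M i) + 1` elements, and if `u j ∈ W (i j)` for all `j` then
for some `i` there are at least `M i + 1` elements `j ∈ J` with `i j = i` (otherwise
`J.card = ∑ i, card (fiber of i) ≤ ∑ i, M i`, `Finset.card_eq_sum_card_fiberwise`), so that there is a
subset `J'` of this fiber with exactly `M i + 1` elements. (`altR w = ∑ π, sign π • extR (w ∘ π)` with
`ℤ`-multiples: `Int.cast_smul_eq_zsmul`.) -/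
theorem kill_many (hX : Hom X) {s : ℕ} (M : Fin s → ℕ) (W : Fin s → Submodule R (Pt X k →₀ R))
    (h0 : ∀ i, AltP (M i) (W i)) {r : ℕ} {β : Equiv.Perm (Fin r) → R}
    (hβ : KillsTensors (∑ i, M i) β) (w : Fin r → (Pt X k →₀ R)) (hw : ∀ j, w j ∈ ⨆ i, W i) :
    ∑ τ : Equiv.Perm (Fin r), β τ • extR (fun j => w (τ j)) ∈ RatR R X (Fin r) := by
  have h1 : ∑ τ : Equiv.Perm (Fin r), β τ •
      (RatR R X (Fin r)).mkQ (extR (fun j => w (τ j))) = 0 := by
    refine second_fundamental (n := ∑ i, M i) (fun τ J hJ => ?_) hβ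
    have h2 := kla_alt hX M W h0 hJ Finset.univ (fun j => w (τ j)) (fun j => hw _)
      (fun j hj => absurd (Finset.mem_univ j) hj)
    rw [← Submodule.Quotient.mk_eq_zero, ← Submodule.mkQ_apply, map_sum] at h2
    rw [← h2]
    refine Finset.sum_congr rfl fun π _ => ?_
    rw [map_smul]
    rfl
  rw [← Submodule.Quotient.mk_eq_zero, ← Submodule.mkQ_apply, map_sum, ← h1]
  exact Finset.sum_congr rfl fun τ _ => map_smul _ _ _

/-- Changing the factors of a product by cycles which are rationally equivalent to zero. -/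
private theorem kla_change (hX : Hom X) {r : ℕ} (w : Fin r → (Pt X k →₀ R))
    (T : Finset (Fin r)) : ∀ u : Fin r → (Pt X k →₀ R), (∀ j, w j - u j ∈ RatR1 R X) →
      (∀ j ∉ T, w j = u j) → extR w - extR u ∈ RatR R X (Fin r) := by
  obtain ⟨F, hF⟩ := extR_linear R (Pt X k) r
  induction T using Finset.induction_on with
  | empty =>
    intro u _ hT
    have h1 : w = u := funext fun j => hT j (Finset.notMem_empty j)
    rw [h1, sub_self]
    exact Submodule.zero_mem _
  | insert a T _ ih =>
    intro u hu hT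
    have h1 := ih (Function.update u a (w a)) (fun j => ?_) (fun j hj => ?_)
    · have h2 : extR (Function.update u a (w a)) - extR u ∈ RatR R X (Fin r) := by
        have h3 : extR (Function.update u a (w a)) - extR u =
            extR (Function.update u a (w a - u a)) := by
          rw [← hF, ← hF, ← hF, MultilinearMap.map_update_sub, Function.update_eq_self]
        rw [h3]
        refine extR_rat hX _ a ?_
        rw [Function.update_self]
        exact hu a
      have h3 : extR w - extR u = (extR w - extR (Function.update u a (w a))) +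
          (extR (Function.update u a (w a)) - extR u) := by abel
      rw [h3]
      exact Submodule.add_mem _ h1 h2
    · by_cases hja : j = a
      · rw [hja, Function.update_self, sub_self]
        exact Submodule.zero_mem _
      · rw [Function.update_of_ne hja]
        exact hu j
    · by_cases hja : j = a
      · rw [hja, Function.update_self]
      · rw [Function.update_of_ne hja]
        exact hT j fun h => (Finset.mem_insert.1 h).elim hja hj

/-- The same modulo cycles which are rationally equivalent to zero: `w j = u j + ρ j` with `u j` in the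
sum of the `W i` and `ρ j ∈ RatR1 R X` (`Submodule.mem_sup`), and `extR w - extR u ∈ RatR R X (Fin r)` for
all `w`, `u` with `w j - u j ∈ RatR1 R X` for all `j` (change the factors one after the other,
`extR_linear`, `extR_rat`; induction over a set of factors). -/
theorem kill_many' (hX : Hom X) {s : ℕ} (M : Fin s → ℕ) (W : Fin s → Submodule R (Pt X k →₀ R))
    (h0 : ∀ i, AltP (M i) (W i)) {r : ℕ} {β : Equiv.Perm (Fin r) → R}
    (hβ : KillsTensors (∑ i, M i) β) (w : Fin r → (Pt X k →₀ R))
    (hw : ∀ j, w j ∈ (⨆ i, W i) ⊔ RatR1 R X) :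
    ∑ τ : Equiv.Perm (Fin r), β τ • extR (fun j => w (τ j)) ∈ RatR R X (Fin r) := by
  have h1 : ∀ j, ∃ u ∈ ⨆ i, W i, ∃ ρ ∈ RatR1 R X, u + ρ = w j :=
    fun j => Submodule.mem_sup.1 (hw j)
  choose u hu ρ hρ h using h1
  have h2 := kill_many hX M W h0 hβ u hu
  have h3 : ∑ τ : Equiv.Perm (Fin r), β τ • extR (fun j => w (τ j)) =
      ∑ τ : Equiv.Perm (Fin r), β τ • extR (fun j => u (τ j)) +
      ∑ τ : Equiv.Perm (Fin r), β τ • (extR (fun j => w (τ j)) - extR (fun j => u (τ j))) := by
    rw [← Finset.sum_add_distrib]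
    refine Finset.sum_congr rfl fun τ _ => ?_
    rw [← smul_add]
    congr 1
    abel
  rw [h3]
  refine Submodule.add_mem _ h2 (Submodule.sum_mem _ fun τ _ => Submodule.smul_mem _ _ ?_)
  refine kla_change hX _ Finset.univ _ (fun j => ?_) fun j hj => absurd (Finset.mem_univ j) hj
  have h4 : w (τ j) - u (τ j) = ρ (τ j) := by
    rw [← h (τ j)]
    abel
  rw [h4]
  exact hρ _

end Pool.Agent.GTC
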