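import Pool.Agent.GTC.CorC
import Pool.Agent.GTC.CorF

/-!
# Zero-cycles and correspondences from families of curves
-/

set_option autoImplicit false

noncomputable section

namespace Pool.Agent.GTC

open Pool.Agent.ZCyc Pool.Agent.Dess Pool.Agent.GT Pool.Agent.GTM Pool.Agent.TInc Pool.Agent.ZIso
open scoped Classical LinearAlgebra.Projectivization

variable {k : Type} [Field k] [IsAlgClosed k] [CharZero k] {n : ℕ}
  {X : Set (MvPolynomial (Fin (n + 1)) k)} {R : Type} [Field R] [CharZero R]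

/-- the alternating products for all pieces -/
theorem Cor.Piece.altP {L : Type} [Field L] [Algebra k L] {Φ : Cor L n} (hX : Hom X)
    (hL : IsCurve k L) (hΦ : Φ.Ok X) {N : ℕ} (hN : Φ.Bound hL N) {M : ℕ}
    {T : Submodule R (Pt X k →₀ R)} (hT : Φ.Piece R X hL N M T) : AltP M T := by
  cases hT with
  | eig h ξ hξ ω h1 h2 => exact (hΦ.alt_eig hX hL h hN hξ h1 h2).mono le_sup_left
  | ker h => exact (hΦ.alt_dif hX hL h hN).mono (hΦ.ker_le hX hL)
  | sec h hs => exact (hΦ.alt_dif hX hL h hN).mono (hΦ.deg0_le hX hL hs)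

/-- **Zero-cycles and correspondences from families of curves.** -/
theorem main_cor (hX : Hom X) {s : ℕ} {L : Fin s → Type} [∀ j, Field (L j)]
    [∀ j, Algebra k (L j)] (hL : ∀ j, IsCurve k (L j)) {Φ : ∀ j, Cor (L j) n}
    (hΦ : ∀ j, (Φ j).Ok X) {N : Fin s → ℕ} (hN : ∀ j, (Φ j).Bound (hL j) (N j)) {M : Fin s → ℕ}
    {T : Fin s → Submodule R (Pt X k →₀ R)} (hT : ∀ j, (Φ j).Piece R X (hL j) (N j) (M j) (T j))
    {r : ℕ} {β : Equiv.Perm (Fin r) → R} (hβ : KillsTensors (∑ j, M j) β)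
    (z : Fin r → (Pt X k →₀ R)) (hz : ∀ i, z i ∈ (⨆ j, T j) ⊔ RatR1 R X) :
    ∑ τ : Equiv.Perm (Fin r), β τ • extR (fun i => z (τ i)) ∈ RatR R X (Fin r) :=
  kill_many' hX M T (fun j => (hT j).altP hX (hL j) (hΦ j) (hN j)) hβ z hz

end Pool.Agent.GTC
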