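import Pool.Agent.GTC.Chow

/-!
# Linear factors of a product of linear forms
-/

set_option autoImplicit false

noncomputable section

namespace Pool.Agent.GTC

open MvPolynomial
open scoped Classical

private theorem lin_ne_zero' {K : Type} [Field K] {n : ℕ} {p : Fin (n + 1) → K} (hp : p ≠ 0) :
    lin p ≠ 0 := by
  intro h
  apply hp
  apply lin_inj
  rw [h]
  simp [lin]

private theorem lin_irr {K : Type} [Field K] {n : ℕ} {p : Fin (n + 1) → K} (hp : p ≠ 0) :
    Irreducible (lin p) := by
  have h0 := lin_ne_zero' hp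
  refine MvPolynomial.irreducible_of_totalDegree_eq_one ((lin_hom p).totalDegree h0) ?_
  intro x hx
  obtain ⟨d, hd⟩ := MvPolynomial.ne_zero_iff.mp h0
  have hx0 : x ≠ 0 := by
    rintro rfl
    exact hd (zero_dvd_iff.mp (hx d))
  exact isUnit_iff_ne_zero.mpr hx0

/-- A linear form which divides a product of linear forms is a multiple of one of them:
`MvPolynomial.irreducible_of_totalDegree_eq_one` (the total degree of `lin p` is one, by `lin_hom`,
and every common divisor of the coefficients is a unit, since one of them is a unit), irreducible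
elements are prime (`MvPolynomial` over a field is a unique factorisation domain), `Prime.dvd_finset_prod_iff`
(or `Prime.exists_mem_finset_dvd`); if `lin p` divides `lin q` then the quotient has degree zero
(`totalDegree_mul_of_isDomain` or homogeneity), so it is a constant, and `lin_inj`. -/
theorem lin_dvd {K : Type} [Field K] {n e : ℕ} {p : Fin (n + 1) → K} {Q : Fin e → Fin (n + 1) → K}
    (hp : p ≠ 0) (hQ : ∀ a, Q a ≠ 0) (h : lin p ∣ pro Q) :
    ∃ a, ∃ c : K, c ≠ 0 ∧ Q a = fun i => c * p i := by
  have h0 := lin_ne_zero' hp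
  have hpr : Prime (lin p) := (lin_irr hp).prime
  obtain ⟨a, -, r, hr⟩ := hpr.exists_mem_finset_dvd h
  refine ⟨a, ?_⟩
  have hQ0 := lin_ne_zero' (hQ a)
  have hr0 : r ≠ 0 := by
    rintro rfl
    exact hQ0 (by rw [hr, mul_zero])
  have hdeg : r.totalDegree = 0 := by
    have h1 := congrArg MvPolynomial.totalDegree hr
    rw [MvPolynomial.totalDegree_mul_of_isDomain h0 hr0, (lin_hom p).totalDegree h0,
      (lin_hom (Q a)).totalDegree hQ0] at h1
    omega
  have hrC := MvPolynomial.totalDegree_eq_zero_iff_eq_C.mp hdeg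
  refine ⟨MvPolynomial.coeff 0 r, ?_, ?_⟩
  · intro hc
    rw [hc, C_0] at hrC
    exact hr0 hrC
  · apply lin_inj
    rw [lin_smul, ← hrC, hr, mul_comm]

end Pool.Agent.GTC
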