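import Pool.Agent.GTC.ChowP
import Pool.Agent.GTC.UniqA

/-!
# The linear factors of a Chow form are unique
-/

set_option autoImplicit false

noncomputable section

namespace Pool.Agent.GTC

open Pool.Agent.ZCyc Pool.Agent.Dess Pool.Agent.GT MvPolynomial
open scoped Classical LinearAlgebra.Projectivization

/-- The factors are unique: induction on `e`. `lin (P 0)` divides `C c * pro Q`, hence (`c` is a unit)
`pro Q`, so `Q b` is a multiple of `P 0` for some `b`; cancel this factor on both sides
(`Fin.prod_univ_succ`, and the remaining `Q` composed with `Fin.succAbove b`, `Fin.prod_univ_succAbove`)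
and apply the induction hypothesis. -/
theorem pro_unique {K : Type} [Field K] {n e : ℕ} {P Q : Fin e → Fin (n + 1) → K} {c : K}
    (hP : ∀ a, P a ≠ 0) (hQ : ∀ a, Q a ≠ 0) (hc : c ≠ 0) (h : pro P = C c * pro Q) :
    ∃ π : Equiv.Perm (Fin e), ∀ a, ∃ l : K, l ≠ 0 ∧ P a = fun i => l * Q (π a) i := by
  induction e generalizing c with
  | zero => exact ⟨Equiv.refl _, fun a => a.elim0⟩
  | succ e ih =>
    have hP0 : pro P = lin (P 0) * pro (fun i => P i.succ) := by
      unfold pro
      rw [Fin.prod_univ_succ]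
    have hcc : (C c⁻¹ * (C c * pro Q) : MvPolynomial (Fin (n + 1)) K) = pro Q := by
      rw [← mul_assoc, ← C_mul, inv_mul_cancel₀ hc, C_1, one_mul]
    have hdvd : lin (P 0) ∣ pro Q := by
      rw [← hcc, ← h, hP0]
      exact (dvd_mul_right _ _).mul_left _
    obtain ⟨b, d, hd, hb⟩ := lin_dvd (hP 0) hQ hdvd
    have hQb : pro Q = lin (Q b) * pro (fun i => Q (b.succAbove i)) := by
      unfold pro
      rw [Fin.prod_univ_succAbove _ b]
    have hl : lin (P 0) ≠ 0 := fun h0 => hP 0 (lin_inj (by
      rw [h0]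
      simp [lin]))
    have h1 : pro (fun i => P i.succ) = C (c * d) * pro (fun i => Q (b.succAbove i)) := by
      apply mul_left_cancel₀ hl
      rw [← hP0, h, hQb, hb, lin_smul, C_mul]
      ring
    obtain ⟨π, hπ⟩ := ih (fun a => hP a.succ) (fun a => hQ (b.succAbove a)) (mul_ne_zero hc hd) h1
    refine ⟨(finSuccEquiv e).trans ((Equiv.optionCongr π).trans (finSuccEquiv' b).symm),
      fun a => ?_⟩
    refine Fin.cases ?_ (fun a => ?_) a
    · refine ⟨d⁻¹, inv_ne_zero hd, ?_⟩
      have h2 : ((finSuccEquiv e).trans ((Equiv.optionCongr π).trans (finSuccEquiv' b).symm)) 0 =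
          b := by
        simp
      rw [h2, hb]
      funext i
      rw [← mul_assoc, inv_mul_cancel₀ hd, one_mul]
    · obtain ⟨l, hl1, hl2⟩ := hπ a
      refine ⟨l, hl1, ?_⟩
      have h2 : ((finSuccEquiv e).trans ((Equiv.optionCongr π).trans (finSuccEquiv' b).symm))
          a.succ = b.succAbove (π a) := by
        simp
      rw [h2]
      exact hl2

variable {k : Type} [Field k] {n : ℕ} {X : Set (MvPolynomial (Fin (n + 1)) k)} {e : ℕ}

/-- `chp P = chp Q` means that the coefficients `chw` of the representatives are proportional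
(`Projectivization.mk_eq_mk_iff'`), so `pro P = C c * pro Q` (`cf_inj` or `fm_chw`), and `pro_unique`;
two points of `Pt X K` with proportional representatives are equal (`Subtype.ext`,
`Projectivization.mk_rep`, `Projectivization.mk_eq_mk_iff'`). -/
theorem chp_unique {K : Type} [Field K] [Algebra k K] {P Q : Fin e → Pt X K}
    (h : chp P = chp Q) : ∃ π : Equiv.Perm (Fin e), ∀ a, P a = Q (π a) := by
  have hP0 : ∀ a, (P a).1.rep ≠ 0 := fun a => (P a).1.rep_nonzero
  have hQ0 : ∀ a, (Q a).1.rep ≠ 0 := fun a => (Q a).1.rep_nonzero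
  have h1 : Projectivization.mk K (chw fun a => (P a).1.rep) (chw_ne hP0) =
      Projectivization.mk K (chw fun a => (Q a).1.rep) (chw_ne hQ0) := congrArg Subtype.val h
  obtain ⟨c, hc⟩ := (Projectivization.mk_eq_mk_iff' K _ _ _ _).1 h1
  have hc0 : c ≠ 0 := by
    rintro rfl
    rw [zero_smul] at hc
    exact chw_ne hP0 hc.symm
  have h2 : (pro fun a => (P a).1.rep) = C c * pro fun a => (Q a).1.rep := by
    refine cf_inj (pro_hom _) ?_ ?_
    · exact (pro_hom _).C_mul c
    · rw [cf_smul]
      exact hc.symm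
  obtain ⟨π, hπ⟩ := pro_unique hP0 hQ0 hc0 h2
  refine ⟨π, fun a => Subtype.ext ?_⟩
  obtain ⟨l, -, hl⟩ := hπ a
  rw [← Projectivization.mk_rep (P a).1, ← Projectivization.mk_rep (Q (π a)).1]
  exact (Projectivization.mk_eq_mk_iff' K _ _ _ _).2 ⟨l, hl.symm⟩

/-- `chp_unique`, `Equiv.sum_comp` -/
theorem sum_single_eq {K : Type} [Field K] [Algebra k K] {P Q : Fin e → Pt X K}
    (h : chp P = chp Q) {R : Type} [CommRing R] (c : R) :
    ∑ a, Finsupp.single (P a) c = ∑ a, Finsupp.single (Q a) c := by
  obtain ⟨π, hπ⟩ := chp_unique h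
  rw [← Equiv.sum_comp π fun a => Finsupp.single (Q a) c]
  exact Finset.sum_congr rfl fun a _ => by rw [hπ a]

end Pool.Agent.GTC
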