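import Pool.Agent.GTC.ElD
import Pool.Agent.GTC.Uniq
import Pool.Agent.GTM.CoD

/-!
# The transfer of zero-cycles from the symmetric power to the variety
-/

set_option autoImplicit false

noncomputable section

namespace Pool.Agent.GTC

open Pool.Agent.ZCyc Pool.Agent.Dess Pool.Agent.GT Pool.Agent.GTM
open scoped Classical LinearAlgebra.Projectivization

variable {k : Type} [Field k] [IsAlgClosed k] {n : ℕ} {X : Set (MvPolynomial (Fin (n + 1)) k)}
  {e : ℕ}

/-- the points of which a point of the symmetric power is the Chow form -/
def fac (hX : Hom X) (he : 0 < e) (Q : Pt (Sy X e) k) : Fin e → Pt X k :=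
  (exists_chp hX he Q).choose

theorem chp_fac (hX : Hom X) (he : 0 < e) (Q : Pt (Sy X e) k) : chp (fac hX he Q) = Q :=
  (exists_chp hX he Q).choose_spec

/-- the transfer of cycles on the symmetric power: `[chp P] ↦ ∑ a, [P a]` -/
def tr1 (R : Type) [Field R] (hX : Hom X) (he : 0 < e) :
    (Pt (Sy X e) k →₀ R) →ₗ[R] (Pt X k →₀ R) :=
  Finsupp.linearCombination R fun Q => ∑ a, Finsupp.single (fac hX he Q a) 1

/-- the transfer of cycles on products -/
def trI (R : Type) [Field R] (hX : Hom X) (he : 0 < e) (ι : Type) [Fintype ι] :
    ((ι → Pt (Sy X e) k) →₀ R) →ₗ[R] ((ι → Pt X k) →₀ R) :=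
  Finsupp.linearCombination R fun Q =>
    ∑ s : ι → Fin e, Finsupp.single (fun j => fac hX he (Q j) (s j)) 1

private theorem tra_single (R : Type) [Field R] (hX : Hom X) (he : 0 < e) (Q : Pt (Sy X e) k)
    (c : R) : tr1 R hX he (Finsupp.single Q c) = ∑ a, Finsupp.single (fac hX he Q a) c := by
  unfold tr1
  rw [Finsupp.linearCombination_single, Finset.smul_sum]
  refine Finset.sum_congr rfl fun a _ => ?_
  rw [Finsupp.smul_single, smul_eq_mul, mul_one]

private theorem traI_single (R : Type) [Field R] (hX : Hom X) (he : 0 < e) {ι : Type} [Fintype ι]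
    (Q : ι → Pt (Sy X e) k) (c : R) : trI R hX he ι (Finsupp.single Q c) =
      ∑ s : ι → Fin e, Finsupp.single (fun j => fac hX he (Q j) (s j)) c := by
  unfold trI
  rw [Finsupp.linearCombination_single, Finset.smul_sum]
  refine Finset.sum_congr rfl fun a _ => ?_
  rw [Finsupp.smul_single, smul_eq_mul, mul_one]

/-- `sum_single_eq` and `chp_fac` -/
theorem tr1_chp (R : Type) [Field R] (hX : Hom X) (he : 0 < e) (P : Fin e → Pt X k) (c : R) :
    tr1 R hX he (Finsupp.single (chp P) c) = ∑ a, Finsupp.single (P a) c := by
  rw [tra_single]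
  exact sum_single_eq (chp_fac hX he (chp P)) c

/-- the same for products: `chp_unique` for every factor gives permutations `π j` of `Fin e`, and
`Equiv.piCongrRight` (an equivalence of `ι → Fin e`) -/
theorem trI_chp (R : Type) [Field R] (hX : Hom X) (he : 0 < e) {ι : Type} [Fintype ι]
    (P : ι → Fin e → Pt X k) (c : R) :
    trI R hX he ι (Finsupp.single (fun j => chp (P j)) c) =
      ∑ s : ι → Fin e, Finsupp.single (fun j => P j (s j)) c := by
  rw [traI_single]
  have h1 : ∀ j, ∃ π : Equiv.Perm (Fin e), ∀ a, fac hX he (chp (P j)) a = P j (π a) :=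
    fun j => chp_unique (chp_fac hX he (chp (P j)))
  choose π hπ using h1
  refine Fintype.sum_equiv (Equiv.piCongrRight π) _ _ fun s => ?_
  congr 1
  funext j
  exact hπ j (s j)

/-- The transfer of an exterior product: both sides are multilinear (`extR_linear`), so we may assume
`z j = single (Q j) 1` (`MultilinearMap` extensionality on a basis, e.g. `Basis.ext_multilinear` with
`Finsupp.basisSingleOne`), and then both sides are `∑ s, single (fun j => fac (Q j) (s j)) 1` (`extR_single`,
`MultilinearMap.map_sum` for the right hand side). -/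
theorem trI_ext (R : Type) [Field R] [CharZero R] (hX : Hom X) (he : 0 < e) {r : ℕ}
    (z : Fin r → (Pt (Sy X e) k →₀ R)) :
    trI R hX he (Fin r) (extR z) = extR fun j => tr1 R hX he (z j) := by
  obtain ⟨F, hF⟩ := extR_linear R (Pt (Sy X e) k) r
  obtain ⟨G, hG⟩ := extR_linear R (Pt X k) r
  have h1 : (trI R hX he (Fin r)).compMultilinearMap F =
      G.compLinearMap (fun _ => tr1 R hX he) := by
    refine Module.Basis.ext_multilinear
      (fun _ : Fin r => (Finsupp.basisSingleOne : Module.Basis (Pt (Sy X e) k) R _)) fun Q => ?_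
    rw [LinearMap.compMultilinearMap_apply, MultilinearMap.compLinearMap_apply, hF]
    simp only [Finsupp.coe_basisSingleOne]
    have h2 := extR_single (R := R) Q (fun _ => 1)
    rw [Finset.prod_const_one] at h2
    rw [h2, traI_single]
    simp only [tra_single]
    rw [MultilinearMap.map_sum]
    refine Finset.sum_congr (by ext; simp) fun s _ => ?_
    have h3 := extR_single (R := R) (fun j => fac hX he (Q j) (s j)) (fun _ => 1)
    rw [Finset.prod_const_one] at h3
    rw [hG, h3]
  have h4 := congrArg (fun M => M z) h1
  simp only [LinearMap.compMultilinearMap_apply, MultilinearMap.compLinearMap_apply, hF, hG] at h4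
  exact h4

/-- `tr1` is `trI` for one factor: `toR`-free form, with `Unit` for the index; the maps
`x ↦ fun _ => x` as `Finsupp.lmapDomain` -/
theorem trI_unit (R : Type) [Field R] (hX : Hom X) (he : 0 < e) (z : Pt (Sy X e) k →₀ R) :
    trI R hX he Unit (Finsupp.lmapDomain R R (fun x _ => x) z) =
      Finsupp.lmapDomain R R (fun x _ => x) (tr1 R hX he z) := by
  induction z using Finsupp.induction_linear with
  | zero => rw [map_zero, map_zero, map_zero, map_zero]
  | add f g hf hg => rw [map_add, map_add, map_add, map_add, hf, hg]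
  | single Q c =>
    rw [tra_single, map_sum]
    simp only [Finsupp.lmapDomain_apply, Finsupp.mapDomain_single]
    rw [traI_single]
    refine Eq.trans ?_ (Fintype.sum_equiv (Equiv.funUnique Unit (Fin e))
      (fun s => (Finsupp.single (fun j => fac hX he Q (s j)) c : (Unit → Pt X k) →₀ R))
      (fun a => Finsupp.single (fun _ => fac hX he Q a) c) fun s => rfl)
    exact Finset.sum_congr (by ext; simp) fun s _ => rfl

/-- coefficients -/
theorem trI_toR (R : Type) [Field R] [CharZero R] (hX : Hom X) (he : 0 < e) {ι : Type} [Fintype ι]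
    (z : (ι → Pt (Sy X e) k) →₀ ℚ) : trI R hX he ι (toR R z) = toR R (trI ℚ hX he ι z) := by
  induction z using Finsupp.induction_linear with
  | zero => simp only [map_zero]
  | add f g hf hg => simp only [map_add, hf, hg]
  | single Q c =>
    rw [toR_single, traI_single, traI_single, map_sum]
    exact Finset.sum_congr rfl fun s _ => (toR_single _ _).symm

theorem tr1_toR (R : Type) [Field R] [CharZero R] (hX : Hom X) (he : 0 < e)
    (z : Pt (Sy X e) k →₀ ℚ) : tr1 R hX he (toR R z) = toR R (tr1 ℚ hX he z) := by
  induction z using Finsupp.induction_linear with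
  | zero => simp only [map_zero]
  | add f g hf hg => simp only [map_add, hf, hg]
  | single Q c =>
    rw [toR_single, tra_single, tra_single, map_sum]
    exact Finset.sum_congr rfl fun s _ => (toR_single _ _).symm

/-- the degree is multiplied by `e` -/
theorem tr1_deg (R : Type) [Field R] (hX : Hom X) (he : 0 < e) (z : Pt (Sy X e) k →₀ R) :
    Finsupp.linearCombination R (fun _ => (1 : R)) (tr1 R hX he z) =
      e * Finsupp.linearCombination R (fun _ => (1 : R)) z := by
  induction z using Finsupp.induction_linear with
  | zero => simp only [map_zero, mul_zero]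
  | add f g hf hg => simp only [map_add, hf, hg, mul_add]
  | single Q c =>
    rw [tra_single, map_sum]
    simp only [Finsupp.linearCombination_single, smul_eq_mul, mul_one]
    rw [Finset.sum_const, Finset.card_univ, Fintype.card_fin, nsmul_eq_mul]

end Pool.Agent.GTC
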